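import Pool.Agent.H459R3.NS.High2

/-!
Examples: half-period shifts and planes.
-/

open MeasureTheory Set Filter Topology
open scoped ContDiff

namespace H459R3.NS

theorem MeetsTriads.hit {X : Set K3} (h : MeetsTriads X) (a b : K3)
    (hab : crossProduct a b ≠ 0) : a ∈ X ∨ b ∈ X ∨ -a - b ∈ X :=
  h a b (-a - b) (by abel) hab

/-- `k · m` -/
def dt3 (k m : K3) : ℤ := ∑ j, k j * m j

theorem ee_half (k m : K3) (x : V) :
    ee k (x + fun j => (m j : ℝ) / 2) = (-1) ^ (dt3 k m).natAbs * ee k x := by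
  rw [ee_add, mul_comm]
  congr 1
  have e1 : ph k (fun j => (m j : ℝ) / 2) = (dt3 k m : ℝ) / 2 := by
    unfold ph dt3
    push_cast
    rw [Finset.sum_div]
    exact Finset.sum_congr rfl fun j _ => by ring
  unfold ee
  rw [e1]
  have e2 : (2 * Real.pi * Complex.I * (((dt3 k m : ℝ) / 2 : ℝ) : ℂ))
      = (dt3 k m : ℂ) * (Real.pi * Complex.I) := by
    push_cast; ring
  rw [e2, Complex.exp_int_mul, Complex.exp_pi_mul_I]
  have h : ∀ n : ℤ, ((-1 : ℂ)) ^ n = (-1) ^ n.natAbs := by
    intro n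
    rcases Int.natAbs_eq n with h | h
    · conv_lhs => rw [h]
      rw [zpow_natCast]
    · conv_lhs => rw [h]
      rw [zpow_neg, zpow_natCast, ← inv_pow]
      norm_num
  exact h _

theorem per_shift {f : V → ℝ} (hf : SP f) (c x : V) :
    Per (fun x => f (x + c)) := by
  intro i x
  simp only
  rw [show x + Pi.single i 1 + c = (x + c) + Pi.single i 1 by abel, hf.per i (x + c)]

/-- The part with even `k · m` is the average of the function and its shift by `m / 2`. -/
theorem part_even {f : V → ℝ} (hf : SP f) (m : K3) (x : V) :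
    part {k | Even (dt3 k m)} f x = ((f x + f (x + fun j => (m j : ℝ) / 2) : ℝ) : ℂ) / 2 := by
  have hs := (rap_fr hf).summable
  have h1 := hasSum_fc (per_ofReal hf.per) (contDiff_ofReal hf.smooth).continuous hs x
  have h2 := hasSum_fc (per_ofReal hf.per) (contDiff_ofReal hf.smooth).continuous hs
    (x + fun j => (m j : ℝ) / 2)
  have h3 := (h1.add h2).div_const 2
  have e : ∀ k, (fc (fun x => (f x : ℂ)) k * ee k x
      + fc (fun x => (f x : ℂ)) k * ee k (x + fun j => (m j : ℝ) / 2)) / 2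
      = {k | Even (dt3 k m)}.indicator (fr f) k * ee k x := by
    intro k
    rw [ee_half]
    by_cases hk : Even (dt3 k m)
    · rw [indicator_of_mem (by exact hk), Even.neg_one_pow (Int.natAbs_even.2 hk)]
      unfold fr
      ring
    · rw [indicator_of_notMem (by exact hk), Odd.neg_one_pow
        (Int.natAbs_odd.2 (Int.not_even_iff_odd.1 hk))]
      ring
  simp_rw [e] at h3
  unfold part
  rw [h3.tsum_eq]
  push_cast
  ring

theorem meets_even (m : K3) : MeetsTriads {k | Even (dt3 k m)} := by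
  intro a b c habc _
  by_contra hcon
  push Not at hcon
  obtain ⟨ha, hb, hc⟩ := hcon
  simp only [mem_setOf_eq, Int.not_even_iff_odd] at ha hb hc
  have h1 : dt3 a m + dt3 b m + dt3 c m = 0 := by
    unfold dt3
    rw [← Finset.sum_add_distrib, ← Finset.sum_add_distrib]
    refine Finset.sum_eq_zero fun j _ => ?_
    have := congrFun habc j
    simp only [Pi.add_apply, Pi.zero_apply] at this
    rw [← add_mul, ← add_mul, this, zero_mul]
  have h2 : Odd (dt3 a m + dt3 b m + dt3 c m) := (ha.add_odd hb).add_odd hc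
  rw [h1] at h2
  exact absurd h2 (by decide)

theorem dimTwo_empty : DimTwo 0 ∅ := by
  intro x r _
  simp

/-- A set which meets every line parallel to the `j`-th axis in at most one point is
two-dimensional. -/
theorem dimTwo_graph (j : Fin 3) {Q : Set K3}
    (hQ : ∀ a ∈ Q, ∀ b ∈ Q, (∀ i, i ≠ j → a i = b i) → a = b) : DimTwo 9 Q := by
  intro x r hr
  set B : Set K3 := {q ∈ Q | ∀ i, |q i - x i| ≤ r} with hB
  have hfin : B.Finite := (finite_box x r).subset fun q hq => (N_le_iff (q - x) r).2 hq.2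
  -- project along the axis
  set pr : K3 → (({i : Fin 3 // i ≠ j}) → ℤ) := fun q i => q i with hpr
  have hinj : Set.InjOn pr B := by
    intro a ha b hb hab
    exact hQ a ha.1 b hb.1 fun i hi => congrFun hab ⟨i, hi⟩
  set F : Set (({i : Fin 3 // i ≠ j}) → ℤ) :=
    Set.Icc (fun i => x i - r) (fun i => x i + r) with hF
  have hsub : pr '' B ⊆ F := by
    rintro _ ⟨q, hq, rfl⟩
    constructor
    · intro i
      have := (abs_le.1 (hq.2 i)).1
      simp only [hpr]
      linarith
    · intro i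
      have := (abs_le.1 (hq.2 i)).2
      simp only [hpr]
      linarith
  have hFf : F.Finite := Set.finite_Icc _ _
  have h1 : B.ncard ≤ F.ncard := by
    rw [← Set.ncard_image_of_injOn hinj]
    exact Set.ncard_le_ncard hsub hFf
  have h2 : F.ncard = (2 * r + 1) ^ 2 := by
    have e : F = ((Finset.Icc (fun i : {i : Fin 3 // i ≠ j} => x i - (r : ℤ))
        (fun i => x i + r) : Finset _) : Set _) := by
      rw [Finset.coe_Icc]
    rw [e, Set.ncard_coe_finset, Pi.card_Icc]
    have : ∀ i : {i : Fin 3 // i ≠ j}, (Finset.Icc (x i - (r : ℤ)) (x i + r)).card = 2 * r + 1 := by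
      intro i
      rw [Int.card_Icc]
      omega
    simp_rw [this]
    rw [Finset.prod_const, Finset.card_univ]
    congr 1
    fin_cases j <;> rfl
  rw [h2] at h1
  have h3 : ((2 * r + 1 : ℕ) : ℝ) ^ 2 ≤ 9 * (r : ℝ) ^ 2 := by
    have : (1 : ℝ) ≤ r := by exact_mod_cast hr
    push_cast
    nlinarith
  calc (B.ncard : ℝ) ≤ (((2 * r + 1) ^ 2 : ℕ) : ℝ) := by exact_mod_cast h1
    _ = ((2 * r + 1 : ℕ) : ℝ) ^ 2 := by push_cast; ring
    _ ≤ _ := h3

theorem DimTwo.union {A B : ℝ} {P Q : Set K3} (hP : DimTwo A P) (hQ : DimTwo B Q) :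
    DimTwo (A + B) (P ∪ Q) := by
  intro x r hr
  have e : {q ∈ P ∪ Q | ∀ j, |q j - x j| ≤ r}
      = {q ∈ P | ∀ j, |q j - x j| ≤ r} ∪ {q ∈ Q | ∀ j, |q j - x j| ≤ r} := by
    ext q
    simp only [mem_setOf_eq, mem_union]
    tauto
  rw [e]
  have h := Set.ncard_union_le {q ∈ P | ∀ j, |q j - x j| ≤ r} {q ∈ Q | ∀ j, |q j - x j| ≤ r}
  have h' : (({q ∈ P | ∀ j, |q j - x j| ≤ r} ∪ {q ∈ Q | ∀ j, |q j - x j| ≤ r}).ncard : ℝ)
      ≤ (({q ∈ P | ∀ j, |q j - x j| ≤ r}).ncard : ℝ)
        + (({q ∈ Q | ∀ j, |q j - x j| ≤ r}).ncard : ℝ) := by exact_mod_cast h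
  have h1 := hP x r hr
  have h2 := hQ x r hr
  linarith

/-- A lattice plane through the origin is two-dimensional. -/
theorem dimTwo_plane {n : K3} (hn : n ≠ 0) : DimTwo 9 {k | dt3 k n = 0} := by
  obtain ⟨j, hj⟩ : ∃ j, n j ≠ 0 := by
    by_contra hcon
    push Not at hcon
    exact hn (funext hcon)
  refine dimTwo_graph j fun a ha b hb hab => ?_
  have h1 : dt3 a n - dt3 b n = 0 := by
    rw [show dt3 a n = 0 from ha, show dt3 b n = 0 from hb]; ring
  have h2 : dt3 a n - dt3 b n = (a j - b j) * n j := by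
    unfold dt3
    rw [← Finset.sum_sub_distrib]
    rw [Finset.sum_eq_single j (fun i _ hi => by rw [hab i hi]; ring)
      (fun h => absurd (Finset.mem_univ j) h)]
    ring
  rw [h2] at h1
  funext i
  by_cases hi : i = j
  · subst hi
    have := (mul_eq_zero.1 h1).resolve_right hj
    linarith
  · exact hab i hi

theorem dimTwo_planes (F : Finset K3) (hF : ∀ n ∈ F, n ≠ 0) :
    DimTwo (9 * F.card) {k | ∃ n ∈ F, dt3 k n = 0} := by
  classical
  induction F using Finset.induction_on with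
  | empty =>
    have : ({k : K3 | ∃ n ∈ (∅ : Finset K3), dt3 k n = 0}) = ∅ := by ext; simp
    rw [this]
    simpa using dimTwo_empty
  | insert a F ha ih =>
    have e : ({k : K3 | ∃ n ∈ insert a F, dt3 k n = 0})
        = {k | dt3 k a = 0} ∪ {k | ∃ n ∈ F, dt3 k n = 0} := by
      ext k
      simp
    rw [e, Finset.card_insert_of_notMem ha]
    have h := (dimTwo_plane (hF a (Finset.mem_insert_self a F))).union
      (ih fun n hn => hF n (Finset.mem_insert_of_mem hn))
    have e2 : (9 : ℝ) + 9 * (F.card : ℝ) = 9 * ((F.card + 1 : ℕ) : ℝ) := by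
      push_cast; ring
    rw [← e2]
    exact h

end H459R3.NS
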