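import Mathlib

/-!
Definitions for smooth periodic solutions of the Navier-Stokes equations.
-/

open MeasureTheory Set
open scoped ContDiff

namespace H459R3.NS

/-- The space `ℝ³`. -/
abbrev V := Fin 3 → ℝ

/-- Frequencies. -/
abbrev K3 := Fin 3 → ℤ

/-- `f` is `1`-periodic in each of the three coordinates. -/
def Per {F : Type*} (f : V → F) : Prop := ∀ (i : Fin 3) (x : V), f (x + Pi.single i 1) = f x

/-- The period cell. -/
def cube : Set V := Icc 0 1

/-- Smooth periodic functions. -/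
structure SP (f : V → ℝ) : Prop where
  smooth : ContDiff ℝ ∞ f
  per : Per f

/-- The derivative in the direction of the `j`-th coordinate. -/
noncomputable def pd {E : Type*} [NormedAddCommGroup E] [NormedSpace ℝ E] (j : Fin 3) (f : V → E)
    (x : V) : E := fderiv ℝ f x (Pi.single j 1)

/-- The Laplacian. -/
noncomputable def lap (f : V → ℝ) (x : V) : ℝ := ∑ j, pd j (pd j f) x

/-- `k · x`. -/
noncomputable def ph (k : K3) (x : V) : ℝ := ∑ j, (k j : ℝ) * x j

/-- The character `exp (2 π i k · x)`. -/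
noncomputable def ee (k : K3) (x : V) : ℂ := Complex.exp (2 * Real.pi * Complex.I * (ph k x : ℂ))

/-- The Fourier coefficients `∫ exp (-2 π i k · x) f(x) dx` over the period cell. -/
noncomputable def fc (f : V → ℂ) (k : K3) : ℂ := ∫ x in cube, ee (-k) x * f x

/-- The Fourier coefficients of a real function. -/
noncomputable def fr (f : V → ℝ) : K3 → ℂ := fc (fun x => (f x : ℂ))

/-- The part of the function `f` with frequencies in `R`: the sum of the Fourier series of `f`
restricted to the frequencies `k ∈ R`. -/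
noncomputable def part (R : Set K3) (f : V → ℝ) (x : V) : ℂ :=
  ∑' k : K3, R.indicator (fr f) k * ee k x

/-- The set `Q` of frequencies has dimension at most two, with constant `A`: every cube with side
`2 r`, `r ≥ 1`, contains at most `A r²` points of `Q`. -/
def DimTwo (A : ℝ) (Q : Set K3) : Prop :=
  ∀ (x : K3) (r : ℕ), 1 ≤ r → (({q ∈ Q | ∀ j, |q j - x j| ≤ r}).ncard : ℝ) ≤ A * r ^ 2

/-- Every triad `a + b + c = 0` of frequencies which is not collinear (`a × b ≠ 0`) meets `X`. -/
def MeetsTriads (X : Set K3) : Prop :=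
  ∀ a b c : K3, a + b + c = 0 → crossProduct a b ≠ 0 → a ∈ X ∨ b ∈ X ∨ c ∈ X

/-- `(u, p)` is a smooth `1`-periodic solution of the Navier-Stokes equations with viscosity `ν` and
without force on the time interval `[0, T)`: `u` and `p` are `C^∞` on `[0, T) × ℝ³` and `1`-periodic
in each coordinate of `x`, `div u = 0` and
`∂ₜ uᵢ + ∑ⱼ uⱼ ∂ⱼ uᵢ = ν Δ uᵢ - ∂ᵢ p`. -/
structure IsSol (ν T : ℝ) (u : ℝ → V → V) (p : ℝ → V → ℝ) : Prop where
  smooth_u : ContDiffOn ℝ ∞ (fun z : ℝ × V => u z.1 z.2) (Ico 0 T ×ˢ univ)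
  smooth_p : ContDiffOn ℝ ∞ (fun z : ℝ × V => p z.1 z.2) (Ico 0 T ×ˢ univ)
  per_u : ∀ t ∈ Ico 0 T, Per (u t)
  per_p : ∀ t ∈ Ico 0 T, Per (p t)
  divfree : ∀ t ∈ Ico 0 T, ∀ x, ∑ i, pd i (fun y => u t y i) x = 0
  momentum : ∀ t ∈ Ioo 0 T, ∀ x i,
    deriv (fun s => u s x i) t + ∑ j, u t x j * pd j (fun y => u t y i) x
      = ν * ∑ j, pd j (pd j (fun y => u t y i)) x - pd i (p t) x

/-- Kinetic energy (without the factor `1/2`): `∫ |v|²` over the period cell. -/
noncomputable def energy (v : V → V) : ℝ := ∑ i, ∫ x in cube, v x i ^ 2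

/-- `∫ |∇v|²` over the period cell. -/
noncomputable def enstrophy (v : V → V) : ℝ :=
  ∑ i, ∑ j, ∫ x in cube, pd j (fun y => v y i) x ^ 2

/-- `∫ |Δv|²` over the period cell. -/
noncomputable def palin (v : V → V) : ℝ := ∑ i, ∫ x in cube, lap (fun y => v y i) x ^ 2

/-- The rate at which the nonlinear term of the equation increases half the enstrophy:
`-∑ ∫ ∂ₘvᵢ ∂ᵢvⱼ ∂ₘvⱼ` (sum over `i, j, m`), which is `∫ (v·∇v)·Δv` if `div v = 0`. -/
noncomputable def stretch (v : V → V) : ℝ :=
  -∑ i, ∑ j, ∑ m, ∫ x in cube, pd m (fun y => v y i) x *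
    (pd i (fun y => v y j) x * pd m (fun y => v y j) x)

/-- `v` is a smooth periodic vector field. -/
def SPV (v : V → V) : Prop := ContDiff ℝ ∞ v ∧ Per v

end H459R3.NS
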