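import Pool.Agent.H459R3.NS.Lp

/-!
The Serrin criterion modulo comparison fields.
-/

open MeasureTheory Set Filter Topology
open scoped ENNReal NNReal

namespace H459R3.NS

theorem young {θ ν c : ℝ} (hθ0 : 0 ≤ θ) (hθ1 : θ < 1) (hν : 0 < ν) (hc : 0 ≤ c) :
    ∃ D : ℝ, 0 ≤ D ∧ ∀ β G H : ℝ, 0 ≤ β → 0 ≤ G → 0 ≤ H →
      c * (β * (G ^ (1 - θ) * H ^ θ * H))
        ≤ ν / 2 * H ^ 2 + D * (β ^ (2 / (1 - θ)) * G ^ 2) := by
  set w1 := (1 + θ) / 2 with hw1
  set w2 := (1 - θ) / 2 with hw2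
  have h1 : 0 < w1 := by rw [hw1]; linarith
  have h2 : 0 < w2 := by rw [hw2]; linarith
  have h12 : w1 + w2 = 1 := by rw [hw1, hw2]; ring
  have hν2 : 0 < ν / 2 := by positivity
  set D : ℝ := (c * (ν / 2) ^ (-w1)) ^ (1 / w2) with hD
  have hb0 : 0 ≤ c * (ν / 2) ^ (-w1) := by positivity
  have hD0 : 0 ≤ D := Real.rpow_nonneg hb0 _
  refine ⟨D, hD0, fun β G H hβ hG hH => ?_⟩
  have hq0 : 0 ≤ β ^ (2 / (1 - θ)) := Real.rpow_nonneg hβ _
  have h := Real.geom_mean_le_arith_mean2_weighted h1.le h2.le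
    (p₁ := ν / 2 * H ^ 2) (p₂ := D * (β ^ (2 / (1 - θ)) * G ^ 2)) (by positivity) (by positivity)
    h12
  have e1 : (ν / 2 * H ^ 2) ^ w1 = (ν / 2) ^ w1 * (H ^ θ * H) := by
    rw [Real.mul_rpow hν2.le (sq_nonneg H)]
    congr 1
    rw [← Real.rpow_natCast H 2, ← Real.rpow_mul hH]
    have : ((2 : ℕ) : ℝ) * w1 = θ + 1 := by rw [hw1]; push_cast; ring
    rw [this, Real.rpow_add_one' hH (by linarith)]
  have e2 : (D * (β ^ (2 / (1 - θ)) * G ^ 2)) ^ w2
      = c * (ν / 2) ^ (-w1) * (β * G ^ (1 - θ)) := by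
    rw [Real.mul_rpow hD0 (by positivity), Real.mul_rpow hq0 (sq_nonneg G)]
    have a1 : D ^ w2 = c * (ν / 2) ^ (-w1) := by
      rw [hD, ← Real.rpow_mul hb0]
      have : 1 / w2 * w2 = 1 := by field_simp
      rw [this, Real.rpow_one]
    have a2 : (β ^ (2 / (1 - θ))) ^ w2 = β := by
      rw [← Real.rpow_mul hβ]
      have : 2 / (1 - θ) * w2 = 1 := by
        rw [hw2]
        have : 1 - θ ≠ 0 := by linarith
        field_simp
      rw [this, Real.rpow_one]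
    have a3 : (G ^ 2) ^ w2 = G ^ (1 - θ) := by
      rw [← Real.rpow_natCast G 2, ← Real.rpow_mul hG]
      congr 1
      rw [hw2]; push_cast; ring
    rw [a1, a2, a3]
  rw [e1, e2] at h
  have e3 : (ν / 2) ^ w1 * (ν / 2) ^ (-w1) = 1 := by
    rw [← Real.rpow_add hν2]; simp
  have e4 : (ν / 2) ^ w1 * (H ^ θ * H) * (c * (ν / 2) ^ (-w1) * (β * G ^ (1 - θ)))
      = ((ν / 2) ^ w1 * (ν / 2) ^ (-w1)) * (c * (β * (G ^ (1 - θ) * H ^ θ * H))) := by ring
  rw [e4, e3, one_mul] at h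
  refine h.trans ?_
  have b1 : w1 * (ν / 2 * H ^ 2) ≤ 1 * (ν / 2 * H ^ 2) :=
    mul_le_mul_of_nonneg_right (by rw [hw1]; linarith) (by positivity)
  have b2 : w2 * (D * (β ^ (2 / (1 - θ)) * G ^ 2)) ≤ 1 * (D * (β ^ (2 / (1 - θ)) * G ^ 2)) :=
    mul_le_mul_of_nonneg_right (by rw [hw2]; linarith) (by positivity)
  linarith

theorem SPV.sp {v : V → V} (h : SPV v) (i : Fin 3) : SP (fun y => v y i) where
  smooth := contDiff_pi.1 h.1 i
  per := fun j x => by simp only [h.2 j x]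

theorem serrin {p : ℝ≥0∞} (hp : 3 < p) {q : ℝ} (hpq : 3 * (p⁻¹).toReal + 2 / q = 1)
    {ν K lam κ : ℝ} (hν : 0 < ν) (hK : 0 ≤ K) (hκ0 : 0 ≤ κ) (hκ : κ < 1 - lam) :
    ∃ C : ℝ, 0 ≤ C ∧ ∀ (T A : ℝ) (u : ℝ → V → V) (P : ℝ → V → ℝ) (β γ : ℝ → ℝ), IsSol ν T u P →
      0 ≤ A → (∀ t ∈ Ioo 0 T, 0 ≤ β t ∧ 0 ≤ γ t) → IntegrableOn (fun t => β t ^ q) (Ioo 0 T) →
      IntegrableOn γ (Ioo 0 T) →
      (∀ t ∈ Ioo 0 T, ∃ (v w : V → V) (Q : Set K3), SPV v ∧ SPV w ∧ DimTwo A Q ∧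
        (∀ i, ∀ k ∉ Q, fr (fun x => w x i) k = 0) ∧
        enstrophy v ≤ K ^ 2 * enstrophy (u t) ∧ palin v ≤ K ^ 2 * palin (u t) ∧
        enstrophy w ≤ K ^ 2 * enstrophy (u t) ∧
        stretch v ≤ lam * stretch (u t) + κ * (ν * palin (u t)) + γ t * enstrophy (u t) ∧
        ∀ i, eLpNorm (fun x => u t x i - v x i - w x i) p (volume.restrict cube)
          ≤ ENNReal.ofReal (β t)) →
      (∀ t ∈ Ico 0 T, enstrophy (u t) ≤ enstrophy (u 0) * Real.exp
        (C * ((∫ s in Ioo 0 T, β s ^ q) + (∫ s in Ioo 0 T, γ s) + A * energy (u 0)))) ∧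
      ∃ M, ∀ t ∈ Ico 0 T, ∀ x i, |u t x i| ≤ M := by
  set θ := th p with hθ
  have hθ0 : 0 ≤ θ := th_nonneg p
  have hθ1 : θ < 1 := th_lt_one hp
  have hq : q = 2 / (1 - θ) := by
    have h1 : 2 / q = 1 - θ := by
      have : θ = 3 * (p⁻¹).toReal := rfl
      rw [this]
      linarith
    rw [← h1]
    have : q ≠ 0 := by
      intro h0
      rw [h0, div_zero] at h1
      linarith
    field_simp
  obtain ⟨C1, hC10, hC1⟩ := mul_of_Lp hp
  have hl : 0 < 1 - lam := by linarith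
  set δ : ℝ := 1 - κ / (1 - lam) with hδ
  have hδ0 : 0 < δ := by
    rw [hδ, sub_pos, div_lt_one hl]; exact hκ
  set M : ℝ := 1 + K + K ^ 2 with hM
  have hM0 : 0 < M := by positivity
  obtain ⟨D, hD0, hD⟩ := young (c := 108 * M * C1 / (1 - lam)) hθ0 hθ1 (mul_pos hδ0 hν)
    (by positivity)
  set D2 : ℝ := 4 * M ^ 2 * K ^ 2 / (9 * (1 - lam) ^ 2 * (δ * ν)) with hD2
  have hD20 : 0 ≤ D2 := by positivity
  set D3 : ℝ := 2 / (1 - lam) with hD3
  have hD30 : 0 ≤ D3 := by positivity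
  refine ⟨D + D2 / (2 * ν) + D3, by positivity, fun T A u P β γ h hA hβγ0 hβi hγi hcomp => ?_⟩
  have hβ0 : ∀ t ∈ Ioo 0 T, 0 ≤ β t := fun t ht => (hβγ0 t ht).1
  have hγ0 : ∀ t ∈ Ioo 0 T, 0 ≤ γ t := fun t ht => (hβγ0 t ht).2
  set y : ℝ → ℝ := fun s => enstrophy (u s) with hy
  have hy0 : ∀ s, 0 ≤ y s := fun s => enstrophy_nonneg _
  set g : ℝ → ℝ := fun s => (D * β s ^ q + D3 * γ s) + D2 * A * y s with hg
  have hg0 : ∀ s ∈ Ioo 0 T, 0 ≤ g s := by
    intro s hs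
    have h1 := Real.rpow_nonneg (hβ0 s hs) q
    have h2 := hy0 s
    have h3 := hγ0 s hs
    simp only [hg]
    positivity
  have hE0 := energy_nonneg (u 0)
  have hβq0 : 0 ≤ ∫ s in Ioo 0 T, β s ^ q :=
    setIntegral_nonneg measurableSet_Ioo fun s hs => Real.rpow_nonneg (hβ0 s hs) q
  have hγi0 : 0 ≤ ∫ s in Ioo 0 T, γ s := setIntegral_nonneg measurableSet_Ioo hγ0
  have hβ1 : ∀ t ∈ Ico 0 T, IntegrableOn (fun s => β s ^ q) (Icc 0 t) := by
    intro t ht
    rw [integrableOn_Icc_iff_integrableOn_Ioc, integrableOn_Ioc_iff_integrableOn_Ioo]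
    exact hβi.mono_set (Ioo_subset_Ioo_right ht.2.le)
  have hγ1 : ∀ t ∈ Ico 0 T, IntegrableOn γ (Icc 0 t) := by
    intro t ht
    rw [integrableOn_Icc_iff_integrableOn_Ioc, integrableOn_Ioc_iff_integrableOn_Ioo]
    exact hγi.mono_set (Ioo_subset_Ioo_right ht.2.le)
  have hy1 : ∀ t ∈ Ico 0 T, IntegrableOn y (Icc 0 t) := by
    intro t ht
    have hyc : ContinuousOn y (Icc 0 t) :=
      h.enstrophy_continuousOn.mono fun s hs => ⟨hs.1, hs.2.trans_lt ht.2⟩
    exact hyc.integrableOn_Icc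
  refine h.gron hν (g := g) hδ0 hg0 (fun t ht => (((hβ1 t ht).const_mul _).add
    ((hγ1 t ht).const_mul _)).add ((hy1 t ht).const_mul _)) (fun t ht => ?_) (fun s hs => ?_)
  · -- the integral of `g`
    have i1 : IntervalIntegrable (fun s => D * β s ^ q) volume 0 t :=
      ((intervalIntegrable_iff_integrableOn_Icc_of_le ht.1).2 (hβ1 t ht)).const_mul _
    have i3 : IntervalIntegrable (fun s => D3 * γ s) volume 0 t :=
      ((intervalIntegrable_iff_integrableOn_Icc_of_le ht.1).2 (hγ1 t ht)).const_mul _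
    have i2 : IntervalIntegrable (fun s => D2 * A * y s) volume 0 t :=
      ((intervalIntegrable_iff_integrableOn_Icc_of_le ht.1).2 (hy1 t ht)).const_mul _
    have i13 : IntervalIntegrable (fun s => D * β s ^ q + D3 * γ s) volume 0 t := i1.add i3
    simp only [hg]
    rw [intervalIntegral.integral_add i13 i2, intervalIntegral.integral_add i1 i3,
      intervalIntegral.integral_const_mul, intervalIntegral.integral_const_mul,
      intervalIntegral.integral_const_mul]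
    have a1 : ∫ s in (0 : ℝ)..t, β s ^ q ≤ ∫ s in Ioo 0 T, β s ^ q := by
      rw [intervalIntegral.integral_of_le ht.1, integral_Ioc_eq_integral_Ioo]
      refine setIntegral_mono_set hβi ?_ (Ioo_subset_Ioo_right ht.2.le).eventuallyLE
      filter_upwards [ae_restrict_mem measurableSet_Ioo] with s hs
      exact Real.rpow_nonneg (hβ0 s hs) q
    have a1' : ∫ s in (0 : ℝ)..t, γ s ≤ ∫ s in Ioo 0 T, γ s := by
      rw [intervalIntegral.integral_of_le ht.1, integral_Ioc_eq_integral_Ioo]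
      refine setIntegral_mono_set hγi ?_ (Ioo_subset_Ioo_right ht.2.le).eventuallyLE
      filter_upwards [ae_restrict_mem measurableSet_Ioo] with s hs
      exact hγ0 s hs
    have a2 := h.int_enstrophy hν ht
    have a3 : D2 * A * ∫ s in (0 : ℝ)..t, y s ≤ D2 * A * (energy (u 0) / (2 * ν)) := by gcongr
    have a4 : D2 * A * (energy (u 0) / (2 * ν)) = D2 / (2 * ν) * (A * energy (u 0)) := by
      ring
    have a5 : D * ∫ s in (0 : ℝ)..t, β s ^ q ≤ D * ∫ s in Ioo 0 T, β s ^ q := by gcongr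
    have a5' : D3 * ∫ s in (0 : ℝ)..t, γ s ≤ D3 * ∫ s in Ioo 0 T, γ s := by gcongr
    rw [a4] at a3
    set I1 := ∫ s in Ioo 0 T, β s ^ q with hI1
    set I2 := ∫ s in Ioo 0 T, γ s with hI2
    set E := A * energy (u 0) with hE
    have hE' : 0 ≤ E := mul_nonneg hA hE0
    have b1 : 0 ≤ D2 / (2 * ν) * (I1 + I2) := by positivity
    have b2 : 0 ≤ D * (I2 + E) := by positivity
    have b3 : 0 ≤ D3 * (I1 + E) := by positivity
    have e : (D + D2 / (2 * ν) + D3) * (I1 + I2 + E)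
        = D * I1 + D3 * I2 + D2 / (2 * ν) * E
          + D2 / (2 * ν) * (I1 + I2) + D * (I2 + E) + D3 * (I1 + E) := by ring
    rw [e]
    linarith
  · -- the differential inequality
    have hI : s ∈ Ico 0 T := ⟨hs.1.le, hs.2⟩
    obtain ⟨v, w, Q, hv, hw, hQ, hwQ, hvG, hvH, hwG, hst, hLp⟩ := hcomp s hs
    set G := Real.sqrt (y s) with hG
    set H := Real.sqrt (palin (u s)) with hH
    have hG2 : G ^ 2 = y s := Real.sq_sqrt (hy0 s)
    have hH2 : H ^ 2 = palin (u s) := Real.sq_sqrt (palin_nonneg _)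
    have hG0 : 0 ≤ G := Real.sqrt_nonneg _
    have hH0 : 0 ≤ H := Real.sqrt_nonneg _
    have ha : GH2 (fun i x => u s x i) G H :=
      ⟨fun i => h.sp hI i, hG0, hH0, hG2.symm.le, hH2.symm.le⟩
    have hv' : GH2 (fun i x => v x i) (K * G) (K * H) :=
      ⟨hv.sp, by positivity, by positivity, by rw [mul_pow, hG2]; exact hvG,
        by rw [mul_pow, hH2]; exact hvH⟩
    have hcmp := cub_compare_mul (a := fun i x => u s x i) (v := fun i x => v x i)
      (w := fun i x => w x i) hK (mul_nonneg hC10 (hβ0 s hs)) hθ0 hθ1 hQ ha hv' hw.sp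
      hwQ (by rw [mul_pow, hG2]; exact hwG)
      (fun i => hC1 _ _ (((h.sp hI i).sub (hv.sp i)).sub (hw.sp i)).cont (hβ0 s hs) (hLp i))
    have hst' : -cub (fun i x => v x i) ≤ lam * -cub (fun i x => u s x i)
        + κ * (ν * palin (u s)) + γ s * y s := hst
    have hY := hD (β s) G H (hβ0 s hs) hG0 hH0
    set X := G ^ (1 - θ) * H ^ θ * H with hX
    set r := Real.sqrt (2 * A) with hr
    have hr2 : r ^ 2 = 2 * A := Real.sq_sqrt (by positivity)
    have h4 : 2 * M * (r * K / 3 * (G ^ 2 * H)) / (1 - lam)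
        ≤ δ * ν / 2 * H ^ 2 + D2 * A * G ^ 2 * G ^ 2 := by
      have h5 : 0 ≤ (δ * ν * H - 2 * M * r * K / (3 * (1 - lam)) * G ^ 2) ^ 2
          / (2 * (δ * ν)) := by positivity
      have e : (δ * ν * H - 2 * M * r * K / (3 * (1 - lam)) * G ^ 2) ^ 2 / (2 * (δ * ν))
          = δ * ν / 2 * H ^ 2 + 4 * M ^ 2 * K ^ 2 / (9 * (1 - lam) ^ 2 * (δ * ν)) * (r ^ 2 / 2)
            * G ^ 2 * G ^ 2 - 2 * M * (r * K / 3 * (G ^ 2 * H)) / (1 - lam) := by
        field_simp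
        ring
      rw [hr2] at e
      have e' : (2 * A) / 2 = A := by ring
      rw [e', ← hD2] at e
      linarith
    have h6 : -(2 * cub (fun i x => u s x i))
        ≤ 2 * (κ * (ν * palin (u s)) + γ s * y s
          + M * (54 * (C1 * β s * X) + r * K / 3 * (G ^ 2 * H))) / (1 - lam) := by
      rw [le_div_iff₀ hl]
      linarith
    have h7 : 2 * (κ * (ν * palin (u s)) + γ s * y s
          + M * (54 * (C1 * β s * X) + r * K / 3 * (G ^ 2 * H))) / (1 - lam)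
        = 2 * (κ / (1 - lam)) * (ν * palin (u s)) + 2 / (1 - lam) * γ s * y s
          + 108 * M * C1 / (1 - lam) * (β s * X)
          + 2 * M * (r * K / 3 * (G ^ 2 * H)) / (1 - lam) := by
      field_simp
      ring
    rw [h7, ← hD3] at h6
    have h8 : g s * y s = D * (β s ^ (2 / (1 - θ)) * G ^ 2) + D3 * γ s * y s
        + D2 * A * G ^ 2 * G ^ 2 := by
      simp only [hg]
      rw [← hG2, hq]
      ring
    have h9 : κ / (1 - lam) = 1 - δ := by rw [hδ]; ring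
    rw [h9] at h6
    show -(2 * cub (fun i x => u s x i)) ≤ (2 - δ) * (ν * palin (u s)) + g s * y s
    rw [h8]
    rw [← hH2] at h6 ⊢
    linarith

end H459R3.NS
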