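import Pool.Agent.H459R3.NS.Defs

/-!
Fourier series of `1`-periodic functions on `ℝ³`.
-/

open MeasureTheory Set Filter Topology
open scoped ContDiff

namespace H459R3.NS

attribute [local instance] instMeasureSpaceUnitAddCircle

theorem ph_add (k : K3) (x y : V) : ph k (x + y) = ph k x + ph k y := by
  simp [ph, mul_add, Finset.sum_add_distrib]

theorem ph_add_left (k l : K3) (x : V) : ph (k + l) x = ph k x + ph l x := by
  simp [ph, add_mul, Finset.sum_add_distrib]

theorem ph_neg (k : K3) (x : V) : ph (-k) x = -ph k x := by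
  simp [ph, Finset.sum_neg_distrib]

theorem ee_add_left (k l : K3) (x : V) : ee (k + l) x = ee k x * ee l x := by
  rw [ee, ee, ee, ← Complex.exp_add, ph_add_left]
  congr 1
  push_cast
  ring

theorem ee_zero (x : V) : ee 0 x = 1 := by simp [ee, ph]

theorem norm_ee (k : K3) (x : V) : ‖ee k x‖ = 1 := by
  have : ee k x = Complex.exp (((2 * Real.pi * ph k x : ℝ) : ℂ) * Complex.I) := by
    rw [ee]; congr 1; push_cast; ring
  rw [this, Complex.norm_exp_ofReal_mul_I]

theorem ee_neg (k : K3) (x : V) : ee (-k) x = (starRingEnd ℂ) (ee k x) := by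
  have h1 : ee k x = Complex.exp (((2 * Real.pi * ph k x : ℝ) : ℂ) * Complex.I) := by
    rw [ee]; congr 1; push_cast; ring
  have h2 : ee (-k) x = Complex.exp (-(((2 * Real.pi * ph k x : ℝ) : ℂ) * Complex.I)) := by
    rw [ee, ph_neg]; congr 1; push_cast; ring
  rw [h1, h2, ← Complex.exp_conj]
  congr 1
  rw [map_mul, Complex.conj_ofReal, Complex.conj_I]
  ring

theorem ph_contDiff (k : K3) {n : WithTop ℕ∞} : ContDiff ℝ n (ph k) := by
  unfold ph
  exact ContDiff.sum fun i _ => contDiff_const.mul (contDiff_apply ℝ ℝ i)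

theorem ee_contDiff (k : K3) {n : WithTop ℕ∞} : ContDiff ℝ n (ee k) := by
  unfold ee
  exact (contDiff_const.mul (Complex.ofRealCLM.contDiff.comp (ph_contDiff k))).cexp

theorem ee_continuous (k : K3) : Continuous (ee k) := (ee_contDiff k (n := 0)).continuous

theorem ph_single (k : K3) (i : Fin 3) (c : ℝ) : ph k (Pi.single i c) = k i * c := by
  simp [ph, Pi.single_apply]

theorem ee_single (k : K3) (i : Fin 3) : ee k (Pi.single i 1) = 1 := by
  rw [ee, ph_single, Complex.exp_eq_one_iff]
  exact ⟨k i, by push_cast; ring⟩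

theorem ee_add (k : K3) (x y : V) : ee k (x + y) = ee k x * ee k y := by
  rw [ee, ee, ee, ← Complex.exp_add, ph_add]
  congr 1
  push_cast
  ring

theorem ee_per (k : K3) : Per (ee k) := fun i x => by rw [ee_add, ee_single, mul_one]

theorem Per.mul {f g : V → ℂ} (hf : Per f) (hg : Per g) : Per (fun x => f x * g x) :=
  fun i x => by simp only [hf i x, hg i x]

/-! ### lift to the torus -/

/-- The covering map. -/
def cov (x : V) : UnitAddTorus (Fin 3) := fun i => (x i : UnitAddCircle)

theorem cov_surj : Function.Surjective cov := by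
  intro t
  choose y hy using fun i => QuotientAddGroup.mk_surjective (t i)
  exact ⟨y, funext hy⟩

theorem cov_quot : IsOpenQuotientMap cov := by
  have h : IsOpenQuotientMap (Pi.map (fun (_ : Fin 3) (r : ℝ) => (r : UnitAddCircle))) :=
    IsOpenQuotientMap.piMap fun _ => QuotientAddGroup.isOpenQuotientMap_mk
  exact h

theorem Per.int {F : Type*} {f : V → F} (hf : Per f) (m : K3) (x : V) :
    f (x + fun i => (m i : ℝ)) = f x := by
  have h : ∀ (i : Fin 3) (n : ℤ) (y : V), f (y + Pi.single i (n : ℝ)) = f y := by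
    intro i n y
    have h1 : Function.Periodic f (Pi.single i (1 : ℝ)) := fun z => hf i z
    have h2 := h1.zsmul n y
    have h3 : (n • (Pi.single i (1 : ℝ) : V)) = Pi.single i (n : ℝ) := by
      rw [← Pi.single_smul]; simp
    rwa [h3] at h2
  have e : (x + fun i => (m i : ℝ)) = x + Pi.single 0 (m 0 : ℝ) + Pi.single 1 (m 1 : ℝ)
      + Pi.single 2 (m 2 : ℝ) := by
    funext i
    fin_cases i <;> simp [Pi.single_apply]
  rw [e, h, h, h]

theorem Per.eq_of_cov {F : Type*} {f : V → F} (hf : Per f) {x y : V} (h : cov x = cov y) :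
    f x = f y := by
  have h1 : ∀ i, ∃ n : ℤ, y i - x i = n := by
    intro i
    have h2 : ((x i : ℝ) : UnitAddCircle) = (y i : UnitAddCircle) := congrFun h i
    rw [QuotientAddGroup.eq, AddSubgroup.mem_zmultiples_iff] at h2
    obtain ⟨n, hn⟩ := h2
    refine ⟨n, ?_⟩
    rw [zsmul_one] at hn
    rw [hn]; ring
  choose m hm using h1
  have : y = x + fun i => (m i : ℝ) := by
    funext i
    rw [Pi.add_apply, ← hm i]; ring
  rw [this, hf.int]

/-- The function on the torus. -/
noncomputable def lift (f : V → ℂ) (t : UnitAddTorus (Fin 3)) : ℂ :=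
  f (Function.surjInv cov_surj t)

theorem lift_cov {f : V → ℂ} (hf : Per f) (x : V) : lift f (cov x) = f x :=
  hf.eq_of_cov (Function.surjInv_eq cov_surj (cov x))

theorem lift_continuous {f : V → ℂ} (hf : Per f) (hc : Continuous f) : Continuous (lift f) := by
  rw [cov_quot.isQuotientMap.continuous_iff]
  have : lift f ∘ cov = f := funext fun x => lift_cov hf x
  rwa [this]

theorem mFourier_cov (k : K3) (x : V) : UnitAddTorus.mFourier k (cov x) = ee k x := by
  change ∏ i, (fourier (k i) ((x i : ℝ) : UnitAddCircle) : ℂ) = _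
  have h1 : ∀ i, (fourier (k i) ((x i : ℝ) : UnitAddCircle) : ℂ)
      = Complex.exp (2 * Real.pi * Complex.I * ((k i : ℝ) * x i : ℝ)) := by
    intro i
    rw [fourier_coe_apply]
    congr 1
    push_cast
    ring
  rw [Finset.prod_congr rfl fun i _ => h1 i, ← Complex.exp_sum, ee, ph]
  congr 1
  push_cast
  rw [Finset.mul_sum]

theorem cell_ae : ({x : V | ∀ i, x i ∈ Ioc ((0 : V) i) ((0 : V) i + 1)} : Set V)
    =ᵐ[volume] cube := by
  have e : ({x : V | ∀ i, x i ∈ Ioc ((0 : V) i) ((0 : V) i + 1)} : Set V)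
      = Set.pi univ (fun i => Ioc ((0 : V) i) ((1 : V) i)) := by
    ext x; simp
  rw [e]
  exact Measure.univ_pi_Ioc_ae_eq_Icc (μ := fun _ : Fin 3 => (volume : Measure ℝ))

theorem integral_torus {E : Type*} [NormedAddCommGroup E] [NormedSpace ℝ E]
    (f : UnitAddTorus (Fin 3) → E) : ∫ t, f t = ∫ x in cube, f (cov x) := by
  rw [UnitAddTorus.integral_preimage f 0, Measure.restrict_congr_set cell_ae]
  rfl

theorem fc_eq {f : V → ℂ} (hf : Per f) (k : K3) :
    UnitAddTorus.mFourierCoeff (lift f) k = fc f k := by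
  rw [UnitAddTorus.mFourierCoeff, integral_torus, fc]
  congr 1
  funext x
  rw [mFourier_cov, lift_cov hf, smul_eq_mul]

/-- Fourier inversion. -/
theorem hasSum_fc {f : V → ℂ} (hf : Per f) (hc : Continuous f) (hs : Summable (fc f)) (x : V) :
    HasSum (fun k => fc f k * ee k x) (f x) := by
  let F : C(UnitAddTorus (Fin 3), ℂ) := ⟨lift f, lift_continuous hf hc⟩
  have e : UnitAddTorus.mFourierCoeff F = fc f := funext fun k => fc_eq hf k
  have h := UnitAddTorus.hasSum_mFourier_series_apply_of_summable (f := F) (by rw [e]; exact hs)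
    (cov x)
  rw [e] at h
  simp only [mFourier_cov, smul_eq_mul] at h
  rw [show F (cov x) = f x from lift_cov hf x] at h
  exact h

/-- Orthogonality. -/
theorem integral_ee (k : K3) : ∫ x in cube, ee k x = if k = 0 then 1 else 0 := by
  have h := UnitAddTorus.orthonormal_mFourier (d := Fin 3)
  rw [orthonormal_iff_ite] at h
  have h1 := h 0 k
  simp only [ContinuousMap.inner_toLp, UnitAddTorus.mFourier_zero] at h1
  rw [integral_torus] at h1
  simp only [mFourier_cov, ContinuousMap.one_apply, map_one, mul_one] at h1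
  rw [h1]
  by_cases hk : k = 0
  · simp [hk]
  · rw [if_neg hk, if_neg (fun h => hk h.symm)]

theorem cube_finite : IsFiniteMeasure (volume.restrict cube) := by
  constructor
  rw [Measure.restrict_apply_univ]
  exact isCompact_Icc.measure_lt_top

theorem volume_cube : volume cube = 1 := by
  rw [cube, Real.volume_Icc_pi]
  simp

theorem integrableOn_cube {E : Type*} [NormedAddCommGroup E] {f : V → E} (hf : Continuous f) :
    IntegrableOn f cube := hf.continuousOn.integrableOn_compact isCompact_Icc

end H459R3.NS
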