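import Pool.Agent.H459R3.NS.Cor

/-!
The trilinear form `∑ ∫ ∂ₘaᵢ ∂ᵢbⱼ ∂ₘcⱼ` for three different fields.
-/

open MeasureTheory Set Filter Topology
open scoped ContDiff ENNReal

namespace H459R3.NS

/-- The trilinear form. -/
noncomputable def C3 (a b c : Fin 3 → V → ℝ) : ℝ :=
  ∑ i, ∑ j, ∑ m, ∫ x in cube, pd m (a i) x * (pd i (b j) x * pd m (c j) x)

theorem cub_eq (v : Fin 3 → V → ℝ) : cub v = C3 v v v := rfl

theorem SP.sub {f g : V → ℝ} (hf : SP f) (hg : SP g) : SP (fun x => f x - g x) where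
  smooth := hf.smooth.sub hg.smooth
  per := fun i x => by simp only [hf.per i x, hg.per i x]

theorem pd_add3 {f g h : V → ℝ} (hf : SP f) (hg : SP g) (hh : SP h) (m : Fin 3) (x : V) :
    pd m (fun y => f y + g y + h y) x = pd m f x + pd m g x + pd m h x := by
  unfold pd
  have h1 : HasFDerivAt (fun y => f y + g y + h y) _ x :=
    ((hf.diff x).hasFDerivAt.add (hg.diff x).hasFDerivAt).add (hh.diff x).hasFDerivAt
  rw [h1.fderiv]
  rfl

section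

variable {a a1 a2 a3 b c : Fin 3 → V → ℝ}

theorem C3_add1 (h1 : ∀ i, SP (a1 i)) (h2 : ∀ i, SP (a2 i)) (h3 : ∀ i, SP (a3 i))
    (hb : ∀ i, SP (b i)) (hc : ∀ i, SP (c i))
    (ha : ∀ i, a i = fun x => a1 i x + a2 i x + a3 i x) :
    C3 a b c = C3 a1 b c + C3 a2 b c + C3 a3 b c := by
  unfold C3
  rw [← Finset.sum_add_distrib, ← Finset.sum_add_distrib]
  refine Finset.sum_congr rfl fun i _ => ?_
  rw [← Finset.sum_add_distrib, ← Finset.sum_add_distrib]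
  refine Finset.sum_congr rfl fun j _ => ?_
  rw [← Finset.sum_add_distrib, ← Finset.sum_add_distrib]
  refine Finset.sum_congr rfl fun m _ => ?_
  have s := ((hb j).pd i).mul ((hc j).pd m)
  have i1 := (((h1 i).pd m).mul s).int
  have i2 := (((h2 i).pd m).mul s).int
  have i3 := (((h3 i).pd m).mul s).int
  have i12 := ((((h1 i).pd m).mul s).add (((h2 i).pd m).mul s)).int
  rw [← integral_add i1 i2, ← integral_add i12 i3, ha i]
  congr 1
  funext x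
  rw [pd_add3 (h1 i) (h2 i) (h3 i)]
  ring

theorem C3_add2 (h1 : ∀ i, SP (a1 i)) (h2 : ∀ i, SP (a2 i)) (h3 : ∀ i, SP (a3 i))
    (hb : ∀ i, SP (b i)) (hc : ∀ i, SP (c i))
    (ha : ∀ i, a i = fun x => a1 i x + a2 i x + a3 i x) :
    C3 b a c = C3 b a1 c + C3 b a2 c + C3 b a3 c := by
  unfold C3
  rw [← Finset.sum_add_distrib, ← Finset.sum_add_distrib]
  refine Finset.sum_congr rfl fun i _ => ?_
  rw [← Finset.sum_add_distrib, ← Finset.sum_add_distrib]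
  refine Finset.sum_congr rfl fun j _ => ?_
  rw [← Finset.sum_add_distrib, ← Finset.sum_add_distrib]
  refine Finset.sum_congr rfl fun m _ => ?_
  have i1 := (((hb i).pd m).mul (((h1 j).pd i).mul ((hc j).pd m))).int
  have i2 := (((hb i).pd m).mul (((h2 j).pd i).mul ((hc j).pd m))).int
  have i3 := (((hb i).pd m).mul (((h3 j).pd i).mul ((hc j).pd m))).int
  have i12 := ((((hb i).pd m).mul (((h1 j).pd i).mul ((hc j).pd m))).add
    (((hb i).pd m).mul (((h2 j).pd i).mul ((hc j).pd m)))).int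
  rw [← integral_add i1 i2, ← integral_add i12 i3, ha j]
  congr 1
  funext x
  rw [pd_add3 (h1 j) (h2 j) (h3 j)]
  ring

theorem C3_add3 (h1 : ∀ i, SP (a1 i)) (h2 : ∀ i, SP (a2 i)) (h3 : ∀ i, SP (a3 i))
    (hb : ∀ i, SP (b i)) (hc : ∀ i, SP (c i))
    (ha : ∀ i, a i = fun x => a1 i x + a2 i x + a3 i x) :
    C3 b c a = C3 b c a1 + C3 b c a2 + C3 b c a3 := by
  unfold C3
  rw [← Finset.sum_add_distrib, ← Finset.sum_add_distrib]
  refine Finset.sum_congr rfl fun i _ => ?_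
  rw [← Finset.sum_add_distrib, ← Finset.sum_add_distrib]
  refine Finset.sum_congr rfl fun j _ => ?_
  rw [← Finset.sum_add_distrib, ← Finset.sum_add_distrib]
  refine Finset.sum_congr rfl fun m _ => ?_
  have i1 := (((hb i).pd m).mul (((hc j).pd i).mul ((h1 j).pd m))).int
  have i2 := (((hb i).pd m).mul (((hc j).pd i).mul ((h2 j).pd m))).int
  have i3 := (((hb i).pd m).mul (((hc j).pd i).mul ((h3 j).pd m))).int
  have i12 := ((((hb i).pd m).mul (((hc j).pd i).mul ((h1 j).pd m))).add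
    (((hb i).pd m).mul (((hc j).pd i).mul ((h2 j).pd m)))).int
  rw [← integral_add i1 i2, ← integral_add i12 i3, ha j]
  congr 1
  funext x
  rw [pd_add3 (h1 j) (h2 j) (h3 j)]
  ring

end

/-! ### Controlled factors -/

theorem abs_int_pd_le {s f g : V → ℝ} (hs : SP s) (hf : SP f) (hg : SP g) {β : ℝ}
    (hβ : ∀ x, |s x| ≤ β) (m : Fin 3) :
    |∫ x in cube, pd m s x * (f x * g x)|
      ≤ β * (nrm (pd m f) * nrm g + nrm f * nrm (pd m g)) := by
  have e : ∫ x in cube, pd m s x * (f x * g x)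
      = -((∫ x in cube, (s x * f x) * pd m g x) + ∫ x in cube, (s x * pd m f x) * g x) := by
    rw [ibp hs (hf.mul hg) m, ← integral_add ((hs.mul hf).mul (hg.pd m)).int
      ((hs.mul (hf.pd m)).mul hg).int]
    congr 2
    funext x
    rw [pd_mul hf hg]
    ring
  have h1 := abs_int_mul_le (hs.mul hf).cont (hg.pd m).cont
  have h2 := abs_int_mul_le (hs.mul (hf.pd m)).cont hg.cont
  have h3 := nrm_mul_le hs.cont hf.cont hβ
  have h4 := nrm_mul_le hs.cont (hf.pd m).cont hβ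
  rw [e, abs_neg]
  refine (abs_add_le _ _).trans ?_
  have h5 := h1.trans (mul_le_mul_of_nonneg_right h3 (nrm_nonneg _))
  have h6 := h2.trans (mul_le_mul_of_nonneg_right h4 (nrm_nonneg _))
  linarith

/-- `G` and `H` bound the first and second derivatives of `a` in `L²`. -/
structure GH (a : Fin 3 → V → ℝ) (G H : ℝ) : Prop where
  sp : ∀ i, SP (a i)
  g : ∀ i j, nrm (pd j (a i)) ≤ G
  h : ∀ i j k, nrm (pd k (pd j (a i))) ≤ H

theorem GH.g0 {a : Fin 3 → V → ℝ} {G H : ℝ} (h : GH a G H) : 0 ≤ G :=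
  (nrm_nonneg _).trans (h.g 0 0)

theorem GH.h0 {a : Fin 3 → V → ℝ} {G H : ℝ} (h : GH a G H) : 0 ≤ H :=
  (nrm_nonneg _).trans (h.h 0 0 0)

theorem abs_sum3_le {f : Fin 3 → Fin 3 → Fin 3 → ℝ} {B : ℝ} (h : ∀ i j m, |f i j m| ≤ B) :
    |∑ i, ∑ j, ∑ m, f i j m| ≤ 27 * B := by
  have h1 : ∀ i j, |∑ m, f i j m| ≤ 3 * B := by
    intro i j
    refine (Finset.abs_sum_le_sum_abs _ _).trans ((Finset.sum_le_sum fun m _ => h i j m).trans ?_)
    simp
  have h2 : ∀ i, |∑ j, ∑ m, f i j m| ≤ 9 * B := by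
    intro i
    refine (Finset.abs_sum_le_sum_abs _ _).trans ((Finset.sum_le_sum fun j _ => h1 i j).trans ?_)
    simp
    linarith
  refine (Finset.abs_sum_le_sum_abs _ _).trans ((Finset.sum_le_sum fun i _ => h2 i).trans ?_)
  simp
  linarith

section

variable {s b c : Fin 3 → V → ℝ} {β Gb Hb Gc Hc : ℝ}

theorem two_le {x1 x2 y1 y2 X1 X2 Y1 Y2 : ℝ} (hx1 : 0 ≤ x1) (hx2 : 0 ≤ x2) (hy1 : 0 ≤ y1)
    (hy2 : 0 ≤ y2) (h1 : x1 ≤ X1) (h2 : x2 ≤ X2) (h3 : y1 ≤ Y1) (h4 : y2 ≤ Y2) :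
    x1 * x2 + y1 * y2 ≤ X1 * X2 + Y1 * Y2 :=
  add_le_add (mul_le_mul h1 h2 hx2 (hx1.trans h1)) (mul_le_mul h3 h4 hy2 (hy1.trans h3))

theorem abs_C3_1 (hs : ∀ i, SP (s i)) (hβ : ∀ i x, |s i x| ≤ β) (hb : GH b Gb Hb)
    (hc : GH c Gc Hc) : |C3 s b c| ≤ 27 * (β * (Hb * Gc + Gb * Hc)) := by
  have hβ0 : 0 ≤ β := (abs_nonneg _).trans (hβ 0 0)
  refine abs_sum3_le fun i j m => ?_
  refine (abs_int_pd_le (hs i) ((hb.sp j).pd i) ((hc.sp j).pd m) (hβ i) m).trans ?_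
  exact mul_le_mul_of_nonneg_left (two_le (nrm_nonneg _) (nrm_nonneg _) (nrm_nonneg _)
    (nrm_nonneg _) (hb.h _ _ _) (hc.g _ _) (hb.g _ _) (hc.h _ _ _)) hβ0

theorem abs_C3_2 (hs : ∀ i, SP (s i)) (hβ : ∀ i x, |s i x| ≤ β) (hb : GH b Gb Hb)
    (hc : GH c Gc Hc) : |C3 b s c| ≤ 27 * (β * (Hb * Gc + Gb * Hc)) := by
  have hβ0 : 0 ≤ β := (abs_nonneg _).trans (hβ 0 0)
  refine abs_sum3_le fun i j m => ?_
  have e : ∫ x in cube, pd m (b i) x * (pd i (s j) x * pd m (c j) x)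
      = ∫ x in cube, pd i (s j) x * (pd m (b i) x * pd m (c j) x) := by
    congr 1
    funext x
    ring
  rw [e]
  refine (abs_int_pd_le (hs j) ((hb.sp i).pd m) ((hc.sp j).pd m) (hβ j) i).trans ?_
  exact mul_le_mul_of_nonneg_left (two_le (nrm_nonneg _) (nrm_nonneg _) (nrm_nonneg _)
    (nrm_nonneg _) (hb.h _ _ _) (hc.g _ _) (hb.g _ _) (hc.h _ _ _)) hβ0

theorem abs_C3_3 (hs : ∀ i, SP (s i)) (hβ : ∀ i x, |s i x| ≤ β) (hb : GH b Gb Hb)
    (hc : GH c Gc Hc) : |C3 b c s| ≤ 27 * (β * (Hb * Gc + Gb * Hc)) := by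
  have hβ0 : 0 ≤ β := (abs_nonneg _).trans (hβ 0 0)
  refine abs_sum3_le fun i j m => ?_
  have e : ∫ x in cube, pd m (b i) x * (pd i (c j) x * pd m (s j) x)
      = ∫ x in cube, pd m (s j) x * (pd m (b i) x * pd i (c j) x) := by
    congr 1
    funext x
    ring
  rw [e]
  refine (abs_int_pd_le (hs j) ((hb.sp i).pd m) ((hc.sp j).pd i) (hβ j) m).trans ?_
  exact mul_le_mul_of_nonneg_left (two_le (nrm_nonneg _) (nrm_nonneg _) (nrm_nonneg _)
    (nrm_nonneg _) (hb.h _ _ _) (hc.g _ _) (hb.g _ _) (hc.h _ _ _)) hβ0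

end

/-! ### Two-dimensional factors -/

/-- the sum over all triads -/
noncomputable def tz (x y z : K3 → ℝ≥0∞) : ℝ≥0∞ :=
  ∑' p : K3 × K3, x p.1 * y p.2 * z (-p.1 - p.2)

theorem tz_comm12 (x y z : K3 → ℝ≥0∞) : tz x y z = tz y x z := by
  unfold tz
  rw [← (Equiv.prodComm K3 K3).tsum_eq]
  refine tsum_congr fun p => ?_
  simp only [Equiv.prodComm_apply, Prod.fst_swap, Prod.snd_swap]
  rw [show -p.2 - p.1 = -p.1 - p.2 by abel]
  ring

theorem tz_comm23 (x y z : K3 → ℝ≥0∞) : tz x y z = tz x z y := by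
  unfold tz
  rw [← inv23.tsum_eq]
  refine tsum_congr fun p => ?_
  have : inv23 p = (p.1, -p.1 - p.2) := rfl
  rw [this]
  simp only
  rw [show -p.1 - (-p.1 - p.2) = p.2 by abel]
  ring

theorem tz_le {A : ℝ} {Q : Set K3} (hQ : DimTwo A Q) {x y z : K3 → ℝ≥0∞}
    (hx : ∀ k, k ∉ Q → x k = 0) (hy : y 0 = 0) (hz : z 0 = 0) :
    tz x y z ≤ ENNReal.ofReal (2 * A) ^ (1 / 2 : ℝ) * (e2 x * e2 y * e2 (fun l => N l * z l)
        + e2 x * e2 z * e2 (fun l => N l * y l)) := by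
  classical
  refine le_trans (le_of_eq ?_) (thin_full hQ x y z hy hz)
  unfold tz
  rw [ENNReal.tsum_prod']
  refine tsum_congr fun q => tsum_congr fun k => ?_
  by_cases hq : q ∈ Q
  · rw [if_pos hq]
  · rw [if_neg hq, hx q hq, zero_mul, zero_mul]

/-- Fourier weights of a field -/
noncomputable def wt (a : Fin 3 → V → ℝ) (k : K3) : ℝ≥0∞ :=
  ENNReal.ofReal (W (fun i => fr (a i)) k)

theorem wt_zero (a : Fin 3 → V → ℝ) : wt a 0 = 0 := by
  have : W (fun i => fr (a i)) 0 = 0 := by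
    unfold W D
    simp
  rw [wt, this, ENNReal.ofReal_zero]

theorem abs_C3_tz {a b c : Fin 3 → V → ℝ} (ha : ∀ i, SP (a i)) (hb : ∀ i, SP (b i))
    (hc : ∀ i, SP (c i)) : ENNReal.ofReal |C3 a b c| ≤ tz (wt a) (wt b) (wt c) := by
  set F : K3 × K3 → ℂ := fun p => ∑ i, ∑ j, ∑ m,
    D m (fr (a i)) p.1 * D i (fr (b j)) p.2 * D m (fr (c j)) (-p.1 - p.2) with hF
  have hsum : HasSum F ((C3 a b c : ℝ) : ℂ) := by
    unfold C3
    push_cast
    refine hasSum_sum fun i _ => hasSum_sum fun j _ => hasSum_sum fun m _ => ?_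
    rw [← tri_fr ((ha i).pd m) ((hb j).pd i) ((hc j).pd m), fr_pd (ha i), fr_pd (hb j),
      fr_pd (hc j)]
    exact (summable_tri ((rap_fr (ha i)).D m).summable ((rap_fr (hb j)).D i).summable
      ((rap_fr (hc j)).D m).summable).hasSum
  have hle : ∀ p, ‖F p‖ ≤ W (fun i => fr (a i)) p.1 * W (fun i => fr (b i)) p.2
      * W (fun i => fr (c i)) (-p.1 - p.2) := by
    intro p
    have h1 : ‖F p‖ ≤ ∑ i, ∑ j, ∑ m, ‖D m (fr (a i)) p.1‖ * ‖D i (fr (b j)) p.2‖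
        * ‖D m (fr (c j)) (-p.1 - p.2)‖ := by
      refine (norm_sum_le _ _).trans (Finset.sum_le_sum fun i _ => ?_)
      refine (norm_sum_le _ _).trans (Finset.sum_le_sum fun j _ => ?_)
      refine (norm_sum_le _ _).trans (Finset.sum_le_sum fun m _ => ?_)
      rw [norm_mul, norm_mul]
    refine h1.trans ?_
    exact frob (fun i m => ‖D m (fr (a i)) p.1‖) (fun i m => ‖D m (fr (b i)) p.2‖)
      (fun i m => ‖D m (fr (c i)) (-p.1 - p.2)‖) (W_nonneg _ _) (W_nonneg _ _) (W_nonneg _ _)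
      (W_sq _ _).symm (W_sq _ _).symm (W_sq _ _).symm
  have hs : Summable fun p => ‖F p‖ := by
    have hs3 : ∀ i j m, Summable fun p : K3 × K3 =>
        ‖D m (fr (a i)) p.1‖ * ‖D i (fr (b j)) p.2‖ * ‖D m (fr (c j)) (-p.1 - p.2)‖ := fun i j m =>
      summable_norm_tri ((rap_fr (ha i)).D m).summable ((rap_fr (hb j)).D i).summable
        ((rap_fr (hc j)).D m).summable
    refine Summable.of_nonneg_of_le (fun p => norm_nonneg _) (fun p => ?_)
      (summable_sum (s := Finset.univ) fun i _ => summable_sum (s := Finset.univ) fun j _ =>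
        summable_sum (s := Finset.univ) fun m _ => hs3 i j m)
    refine (norm_sum_le _ _).trans (Finset.sum_le_sum fun i _ => ?_)
    refine (norm_sum_le _ _).trans (Finset.sum_le_sum fun j _ => ?_)
    refine (norm_sum_le _ _).trans (Finset.sum_le_sum fun m _ => ?_)
    rw [norm_mul, norm_mul]
  have h0 : |C3 a b c| = ‖((C3 a b c : ℝ) : ℂ)‖ := by rw [Complex.norm_real, Real.norm_eq_abs]
  rw [h0, ← hsum.tsum_eq]
  refine (ENNReal.ofReal_le_ofReal (norm_tsum_le_tsum_norm hs)).trans ?_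
  rw [ENNReal.ofReal_tsum_of_nonneg (fun p => norm_nonneg _) hs]
  unfold tz
  refine ENNReal.tsum_le_tsum fun p => ?_
  unfold wt
  rw [← ENNReal.ofReal_mul (W_nonneg _ _), ← ENNReal.ofReal_mul
    (mul_nonneg (W_nonneg _ _) (W_nonneg _ _))]
  exact ENNReal.ofReal_le_ofReal (hle p)

theorem e2_wt {a : Fin 3 → V → ℝ} (ha : ∀ i, SP (a i)) {G : ℝ} (hG0 : 0 ≤ G)
    (hG : ∑ i, ∑ j, ∫ x in cube, pd j (a i) x ^ 2 ≤ G ^ 2) :
    e2 (wt a) ≤ ENNReal.ofReal G :=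
  e2_W (fun i => rap_fr (ha i)) hG0 ((sum_grad ha).trans_le hG)

theorem e2_Nwt {a : Fin 3 → V → ℝ} (ha : ∀ i, SP (a i)) {H : ℝ} (hH0 : 0 ≤ H)
    (hH : ∑ i, ∫ x in cube, lap (a i) x ^ 2 ≤ H ^ 2) :
    e2 (fun k => N k * wt a k) ≤ ENNReal.ofReal (H / (2 * Real.pi)) :=
  e2_NW (fun i => rap_fr (ha i)) hH0 ((sum_hess ha).trans_le hH)

/-- a field with its norms -/
structure GH2 (a : Fin 3 → V → ℝ) (G H : ℝ) : Prop where
  sp : ∀ i, SP (a i)
  g0 : 0 ≤ G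
  h0 : 0 ≤ H
  g : ∑ i, ∑ j, ∫ x in cube, pd j (a i) x ^ 2 ≤ G ^ 2
  h : ∑ i, ∫ x in cube, lap (a i) x ^ 2 ≤ H ^ 2

theorem GH2.gh {a : Fin 3 → V → ℝ} {G H : ℝ} (h : GH2 a G H) : GH a G H where
  sp := h.sp
  g := by
    intro i j
    have h1 : nrm (pd j (a i)) ^ 2 ≤ G ^ 2 := by
      rw [nrm_sq]
      refine le_trans ?_ h.g
      have a1 : ∫ x in cube, pd j (a i) x ^ 2 ≤ ∑ j, ∫ x in cube, pd j (a i) x ^ 2 :=
        Finset.single_le_sum (f := fun j => ∫ x in cube, pd j (a i) x ^ 2)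
          (fun _ _ => integral_nonneg fun _ => sq_nonneg _) (Finset.mem_univ j)
      exact a1.trans (Finset.single_le_sum (f := fun i => ∑ j, ∫ x in cube, pd j (a i) x ^ 2)
        (fun _ _ => Finset.sum_nonneg fun _ _ => integral_nonneg fun _ => sq_nonneg _)
        (Finset.mem_univ i))
    exact (pow_le_pow_iff_left₀ (nrm_nonneg _) h.g0 (by norm_num)).1 h1
  h := by
    intro i j k
    refine (nrm_pd_pd_le (h.sp i) k j).trans ?_
    have h1 : nrm (lap (a i)) ^ 2 ≤ H ^ 2 := by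
      rw [nrm_sq]
      refine le_trans ?_ h.h
      exact Finset.single_le_sum (f := fun i => ∫ x in cube, lap (a i) x ^ 2)
        (fun _ _ => integral_nonneg fun _ => sq_nonneg _) (Finset.mem_univ i)
    exact (pow_le_pow_iff_left₀ (nrm_nonneg _) h.h0 (by norm_num)).1 h1

section

variable {w b c : Fin 3 → V → ℝ} {A Gw Gb Hb Gc Hc : ℝ} {Q : Set K3}

theorem real_of_tz (hQ : DimTwo A Q) (hw : ∀ i, SP (w i)) (hwQ : ∀ i k, k ∉ Q → fr (w i) k = 0)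
    (hGw0 : 0 ≤ Gw) (hGw : ∑ i, ∑ j, ∫ x in cube, pd j (w i) x ^ 2 ≤ Gw ^ 2)
    (hb : GH2 b Gb Hb) (hc : GH2 c Gc Hc) {X : ℝ}
    (hX : ENNReal.ofReal |X| ≤ tz (wt w) (wt b) (wt c)) :
    |X| ≤ Real.sqrt (2 * A) * (Gw * (Hb * Gc + Gb * Hc)) / 6 := by
  have hpi := Real.pi_pos
  have hpi3 := Real.pi_gt_three
  have hsupp : ∀ k, k ∉ Q → wt w k = 0 := by
    intro k hk
    have : W (fun i => fr (w i)) k = 0 := by
      unfold W D
      simp [hwQ _ k hk]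
    rw [wt, this, ENNReal.ofReal_zero]
  have h1 := hX.trans (tz_le hQ hsupp (wt_zero b) (wt_zero c))
  have e1 := e2_wt hw hGw0 hGw
  have e3 := e2_wt hb.sp hb.g0 hb.g
  have e4 := e2_wt hc.sp hc.g0 hc.g
  have e5 := e2_Nwt hb.sp hb.h0 hb.h
  have e6 := e2_Nwt hc.sp hc.h0 hc.h
  have hg1 := hb.g0
  have hg2 := hc.g0
  have hh1 := hb.h0
  have hh2 := hc.h0
  have h2 : ENNReal.ofReal |X| ≤ ENNReal.ofReal (Real.sqrt (2 * A)
      * (Gw * Gb * (Hc / (2 * Real.pi)) + Gw * Gc * (Hb / (2 * Real.pi)))) := by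
    calc ENNReal.ofReal |X| ≤ _ := h1
      _ ≤ ENNReal.ofReal (2 * A) ^ (1 / 2 : ℝ) * (ENNReal.ofReal Gw * ENNReal.ofReal Gb *
          ENNReal.ofReal (Hc / (2 * Real.pi)) + ENNReal.ofReal Gw * ENNReal.ofReal Gc *
          ENNReal.ofReal (Hb / (2 * Real.pi))) := by gcongr
      _ = _ := by
          rw [ENNReal.ofReal_rpow_of_nonneg (mul_nonneg zero_le_two hQ.nonneg) (by norm_num),
            ← Real.sqrt_eq_rpow, ← ENNReal.ofReal_mul hGw0, ← ENNReal.ofReal_mul hGw0,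
            ← ENNReal.ofReal_mul (by positivity), ← ENNReal.ofReal_mul (by positivity),
            ← ENNReal.ofReal_add (by positivity) (by positivity),
            ← ENNReal.ofReal_mul (by positivity)]
  have h3 := (ENNReal.ofReal_le_ofReal_iff (by positivity)).1 h2
  refine h3.trans ?_
  rw [mul_div_assoc]
  refine mul_le_mul_of_nonneg_left ?_ (Real.sqrt_nonneg _)
  have h4 : Gw * Gb * (Hc / (2 * Real.pi)) + Gw * Gc * (Hb / (2 * Real.pi))
      = Gw * (Hb * Gc + Gb * Hc) / (2 * Real.pi) := by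
    field_simp
    ring
  rw [h4]
  exact div_le_div_of_nonneg_left (by positivity) (by norm_num) (by linarith)

theorem abs_C3_q1 (hQ : DimTwo A Q) (hw : ∀ i, SP (w i)) (hwQ : ∀ i k, k ∉ Q → fr (w i) k = 0)
    (hGw0 : 0 ≤ Gw) (hGw : ∑ i, ∑ j, ∫ x in cube, pd j (w i) x ^ 2 ≤ Gw ^ 2)
    (hb : GH2 b Gb Hb) (hc : GH2 c Gc Hc) :
    |C3 w b c| ≤ Real.sqrt (2 * A) * (Gw * (Hb * Gc + Gb * Hc)) / 6 :=
  real_of_tz hQ hw hwQ hGw0 hGw hb hc (abs_C3_tz hw hb.sp hc.sp)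

theorem abs_C3_q2 (hQ : DimTwo A Q) (hw : ∀ i, SP (w i)) (hwQ : ∀ i k, k ∉ Q → fr (w i) k = 0)
    (hGw0 : 0 ≤ Gw) (hGw : ∑ i, ∑ j, ∫ x in cube, pd j (w i) x ^ 2 ≤ Gw ^ 2)
    (hb : GH2 b Gb Hb) (hc : GH2 c Gc Hc) :
    |C3 b w c| ≤ Real.sqrt (2 * A) * (Gw * (Hb * Gc + Gb * Hc)) / 6 :=
  real_of_tz hQ hw hwQ hGw0 hGw hb hc (by
    rw [tz_comm12]
    exact abs_C3_tz hb.sp hw hc.sp)

theorem abs_C3_q3 (hQ : DimTwo A Q) (hw : ∀ i, SP (w i)) (hwQ : ∀ i k, k ∉ Q → fr (w i) k = 0)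
    (hGw0 : 0 ≤ Gw) (hGw : ∑ i, ∑ j, ∫ x in cube, pd j (w i) x ^ 2 ≤ Gw ^ 2)
    (hb : GH2 b Gb Hb) (hc : GH2 c Gc Hc) :
    |C3 b c w| ≤ Real.sqrt (2 * A) * (Gw * (Hb * Gc + Gb * Hc)) / 6 :=
  real_of_tz hQ hw hwQ hGw0 hGw hb hc (by
    rw [tz_comm12, tz_comm23]
    exact abs_C3_tz hb.sp hc.sp hw)

end

end H459R3.NS
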