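import Pool.Agent.H459R3.NS.Gen

/-!
From a bound of the enstrophy production to bounded enstrophy and bounded velocity.
-/

open MeasureTheory Set Filter Topology
open scoped ContDiff

namespace H459R3.NS

variable {ν T : ℝ} {u : ℝ → V → V} {p : ℝ → V → ℝ}

theorem IsSol.gron_enstrophy (h : IsSol ν T u p) {g : ℝ → ℝ} {B : ℝ} {t : ℝ} (ht : t ∈ Ico 0 T)
    (hg0 : ∀ s ∈ Ioo 0 t, 0 ≤ g s) (hgi : IntegrableOn g (Icc 0 t))
    (hgB : ∫ s in (0 : ℝ)..t, g s ≤ B)
    (hd : ∀ s ∈ Ioo 0 t,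
      -(2 * ν * palin (u s)) - 2 * cub (fun i y => u s y i) ≤ g s * enstrophy (u s)) :
    enstrophy (u t) ≤ enstrophy (u 0) * Real.exp B := by
  set y : ℝ → ℝ := fun s => enstrophy (u s) with hy
  have hy0 : ∀ s, 0 ≤ y s := fun s => enstrophy_nonneg _
  have hyc : ContinuousOn y (Icc 0 t) :=
    h.enstrophy_continuousOn.mono fun s hs => ⟨hs.1, hs.2.trans_lt ht.2⟩
  have hlog : ∀ ε : ℝ, 0 < ε → y t + ε ≤ (y 0 + ε) * Real.exp B := by
    intro ε hε
    have hpos : ∀ s, 0 < y s + ε := fun s => by linarith [hy0 s]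
    have hc : ContinuousOn (fun s => Real.log (y s + ε)) (Icc 0 t) :=
      (hyc.add continuousOn_const).log fun s _ => (hpos s).ne'
    have hd' : ∀ s ∈ Ioo 0 t, HasDerivWithinAt (fun s => Real.log (y s + ε))
        ((-(2 * ν * palin (u s)) - 2 * cub (fun i y => u s y i)) / (y s + ε)) (Ioi s) s := by
      intro s hs
      exact (((h.enstrophy_hasDerivAt ⟨hs.1, hs.2.trans ht.2⟩).add_const ε).log
        (hpos s).ne').hasDerivWithinAt
    have hle : ∀ s ∈ Ioo 0 t,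
        (-(2 * ν * palin (u s)) - 2 * cub (fun i y => u s y i)) / (y s + ε) ≤ g s := by
      intro s hs
      rw [div_le_iff₀ (hpos s)]
      refine (hd s hs).trans ?_
      exact mul_le_mul_of_nonneg_left (by linarith) (hg0 s hs)
    have h1 := intervalIntegral.sub_le_integral_of_hasDeriv_right_of_le ht.1 hc hd' hgi hle
    have h2 : Real.log (y t + ε) ≤ Real.log (y 0 + ε) + B := by linarith
    calc y t + ε = Real.exp (Real.log (y t + ε)) := (Real.exp_log (hpos t)).symm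
      _ ≤ Real.exp (Real.log (y 0 + ε) + B) := Real.exp_le_exp.2 h2
      _ = (y 0 + ε) * Real.exp B := by rw [Real.exp_add, Real.exp_log (hpos 0)]
  have hlim1 : Tendsto (fun ε : ℝ => y t + ε) (𝓝[>] 0) (𝓝 (y t + 0)) :=
    (tendsto_const_nhds.add tendsto_id).mono_left nhdsWithin_le_nhds
  have hlim2 : Tendsto (fun ε : ℝ => (y 0 + ε) * Real.exp B) (𝓝[>] 0)
      (𝓝 ((y 0 + 0) * Real.exp B)) :=
    ((tendsto_const_nhds.add tendsto_id).mul_const _).mono_left nhdsWithin_le_nhds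
  have := le_of_tendsto_of_tendsto hlim1 hlim2 (by
    filter_upwards [self_mem_nhdsWithin] with ε hε
    exact hlog ε hε)
  simpa using this

/-- The enstrophy production is bounded by `(1 - δ/2) ν ∫ |Δu|² + g/2 ∫ |∇u|²`, where the integrals
of `g` are bounded. -/
theorem IsSol.gron (h : IsSol ν T u p) (hν : 0 < ν) {g : ℝ → ℝ} {B δ : ℝ} (hδ : 0 < δ)
    (hg0 : ∀ s ∈ Ioo 0 T, 0 ≤ g s) (hgi : ∀ t ∈ Ico 0 T, IntegrableOn g (Icc 0 t))
    (hgB : ∀ t ∈ Ico 0 T, ∫ s in (0 : ℝ)..t, g s ≤ B)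
    (hd : ∀ s ∈ Ioo 0 T, -(2 * cub (fun i y => u s y i))
      ≤ (2 - δ) * (ν * palin (u s)) + g s * enstrophy (u s)) :
    (∀ t ∈ Ico 0 T, enstrophy (u t) ≤ enstrophy (u 0) * Real.exp B) ∧
    ∃ C, ∀ t ∈ Ico 0 T, ∀ x i, |u t x i| ≤ C := by
  have hen : ∀ t ∈ Ico 0 T, enstrophy (u t) ≤ enstrophy (u 0) * Real.exp B := by
    intro t ht
    refine h.gron_enstrophy ht (fun s hs => hg0 s ⟨hs.1, hs.2.trans ht.2⟩) (hgi t ht) (hgB t ht)
      fun s hs => ?_
    have h1 := hd s ⟨hs.1, hs.2.trans ht.2⟩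
    have h2 : 0 ≤ δ * (ν * palin (u s)) := mul_nonneg hδ.le (mul_nonneg hν.le (palin_nonneg _))
    linarith
  refine ⟨hen, ?_⟩
  set y : ℝ → ℝ := fun s => enstrophy (u s) with hy
  have hy0 : ∀ s, 0 ≤ y s := fun s => enstrophy_nonneg _
  set Y : ℝ := y 0 * Real.exp B with hY
  have hY0 : 0 ≤ Y := mul_nonneg (hy0 0) (Real.exp_pos _).le
  refine h.bounded_of_int_palin hν (K := (y 0 + Y * B) / (δ * ν)) fun t ht => ?_
  have hyc : ContinuousOn y (Icc 0 t) :=
    h.enstrophy_continuousOn.mono fun s hs => ⟨hs.1, hs.2.trans_lt ht.2⟩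
  have hPc : ContinuousOn (fun s => palin (u s)) (Icc 0 t) :=
    h.palin_continuousOn.mono fun s hs => ⟨hs.1, hs.2.trans_lt ht.2⟩
  have hP1 : IntegrableOn (fun s => palin (u s)) (Icc 0 t) := hPc.integrableOn_Icc
  have i2 : IntervalIntegrable (fun s => palin (u s)) volume 0 t :=
    (intervalIntegrable_iff_integrableOn_Icc_of_le ht.1).2 hP1
  have i1 : IntervalIntegrable g volume 0 t :=
    (intervalIntegrable_iff_integrableOn_Icc_of_le ht.1).2 (hgi t ht)
  have hg1 : IntegrableOn (fun s => -(δ * ν * palin (u s)) + Y * g s) (Icc 0 t) :=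
    ((hP1.const_mul (δ * ν)).neg).add ((hgi t ht).const_mul _)
  have h1 := intervalIntegral.sub_le_integral_of_hasDeriv_right_of_le ht.1 hyc
    (fun s hs => (h.enstrophy_hasDerivAt ⟨hs.1, hs.2.trans ht.2⟩).hasDerivWithinAt) hg1
    (fun s hs => by
      have hs' : s ∈ Ioo 0 T := ⟨hs.1, hs.2.trans ht.2⟩
      have a1 := hd s hs'
      have a2 : g s * y s ≤ Y * g s := by
        rw [mul_comm]
        exact mul_le_mul_of_nonneg_right (hen s ⟨hs'.1.le, hs'.2⟩) (hg0 s hs')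
      linarith)
  have j1 : IntervalIntegrable (fun s => -(δ * ν * palin (u s))) volume 0 t :=
    (i2.const_mul (δ * ν)).neg
  have j2 : IntervalIntegrable (fun s => Y * g s) volume 0 t := i1.const_mul _
  rw [intervalIntegral.integral_add j1 j2, intervalIntegral.integral_neg,
    intervalIntegral.integral_const_mul, intervalIntegral.integral_const_mul] at h1
  have a1 := mul_le_mul_of_nonneg_left (hgB t ht) hY0
  have a4 := hy0 t
  rw [le_div_iff₀ (by positivity)]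
  linarith

/-- Comparison with a field with smaller enstrophy production. -/
theorem cub_compare {a v w : Fin 3 → V → ℝ} {A β G H K lam : ℝ} {Q : Set K3}
    (hK : 0 ≤ K) (hlam : lam < 1) (hQ : DimTwo A Q) (ha : GH2 a G H) (hv : GH2 v (K * G) (K * H))
    (hw : ∀ i, SP (w i)) (hwQ : ∀ i k, k ∉ Q → fr (w i) k = 0)
    (hGw : ∑ i, ∑ j, ∫ x in cube, pd j (w i) x ^ 2 ≤ (K * G) ^ 2)
    (hβ : ∀ i x, |a i x - v i x - w i x| ≤ β) (hprod : -cub v ≤ lam * -cub a) :
    -((1 - lam) * cub a) ≤ (1 + K + K ^ 2) * (54 * (β * (G * H))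
      + Real.sqrt (2 * A) * K / 3 * (G ^ 2 * H)) := by
  set s : Fin 3 → V → ℝ := fun i x => a i x - v i x - w i x with hs
  have hsp : ∀ i, SP (s i) := fun i => ((ha.sp i).sub (hv.sp i)).sub (hw i)
  have hdec : ∀ i, a i = fun x => v i x + w i x + s i x := by
    intro i
    funext x
    simp only [hs]
    ring
  have e1 := C3_add1 (b := a) (c := a) hv.sp hw hsp ha.sp ha.sp hdec
  have e2 := C3_add2 (b := v) (c := a) hv.sp hw hsp hv.sp ha.sp hdec
  have e3 := C3_add3 (b := v) (c := v) hv.sp hw hsp hv.sp hv.sp hdec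
  have hKG : 0 ≤ K * G := mul_nonneg hK ha.g0
  have b1 := abs_le.1 (abs_C3_1 hsp hβ ha.gh ha.gh)
  have b2 := abs_le.1 (abs_C3_2 hsp hβ hv.gh ha.gh)
  have b3 := abs_le.1 (abs_C3_3 hsp hβ hv.gh hv.gh)
  have c1 := abs_le.1 (abs_C3_q1 hQ hw hwQ hKG hGw ha ha)
  have c2 := abs_le.1 (abs_C3_q2 hQ hw hwQ hKG hGw hv ha)
  have c3 := abs_le.1 (abs_C3_q3 hQ hw hwQ hKG hGw hv hv)
  rw [cub_eq v, cub_eq a] at hprod
  rw [cub_eq a]
  have hfin : (1 + K + K ^ 2) * (54 * (β * (G * H))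
      + Real.sqrt (2 * A) * K / 3 * (G ^ 2 * H))
      = 27 * (β * (H * G + G * H)) + 27 * (β * (K * H * G + K * G * H))
        + 27 * (β * (K * H * (K * G) + K * G * (K * H)))
        + Real.sqrt (2 * A) * (K * G * (H * G + G * H)) / 6
        + Real.sqrt (2 * A) * (K * G * (K * H * G + K * G * H)) / 6
        + Real.sqrt (2 * A) * (K * G * (K * H * (K * G) + K * G * (K * H))) / 6 := by
    ring
  rw [hfin]
  linarith [b1.1, b2.1, b3.1, c1.1, c2.1, c3.1]

end H459R3.NS
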