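import Pool.Agent.H459R3.NS.Main

/-!
From bounded enstrophy to bounded velocity.
-/

open MeasureTheory Set Filter Topology
open scoped ContDiff

namespace H459R3.NS

/-- `L²` norm over the period cell -/
noncomputable def nrm (f : V → ℝ) : ℝ := Real.sqrt (∫ x in cube, f x ^ 2)

theorem nrm_nonneg (f : V → ℝ) : 0 ≤ nrm f := Real.sqrt_nonneg _

theorem nrm_sq (f : V → ℝ) : nrm f ^ 2 = ∫ x in cube, f x ^ 2 :=
  Real.sq_sqrt (integral_nonneg fun _ => sq_nonneg _)

theorem abs_int_mul_le {f g : V → ℝ} (hf : Continuous f) (hg : Continuous g) :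
    |∫ x in cube, f x * g x| ≤ nrm f * nrm g := by
  have h := integral_mul_sq_le (μ := volume.restrict cube) (a := f) (b := g)
    (integrableOn_cube (hf.pow 2)) (integrableOn_cube (hg.pow 2)) (integrableOn_cube (hf.mul hg))
  rw [← nrm_sq, ← nrm_sq, ← mul_pow] at h
  exact abs_le_of_sq_le_sq h (mul_nonneg (nrm_nonneg _) (nrm_nonneg _))

theorem nrm_add_le {f g : V → ℝ} (hf : Continuous f) (hg : Continuous g) :
    nrm (fun x => f x + g x) ≤ nrm f + nrm g := by
  have h : nrm (fun x => f x + g x) ^ 2 ≤ (nrm f + nrm g) ^ 2 := by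
    rw [nrm_sq]
    have e : ∀ x, (f x + g x) ^ 2 = (f x ^ 2 + g x ^ 2) + 2 * (f x * g x) := fun x => by ring
    simp_rw [e]
    have i1 : IntegrableOn (fun x => f x ^ 2 + g x ^ 2) cube :=
      integrableOn_cube ((hf.pow 2).add (hg.pow 2))
    have i2 : IntegrableOn (fun x => 2 * (f x * g x)) cube :=
      integrableOn_cube (continuous_const.mul (hf.mul hg))
    have i3 : IntegrableOn (fun x => f x ^ 2) cube := integrableOn_cube (hf.pow 2)
    have i4 : IntegrableOn (fun x => g x ^ 2) cube := integrableOn_cube (hg.pow 2)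
    rw [integral_add i1 i2, integral_add i3 i4, integral_const_mul, ← nrm_sq, ← nrm_sq]
    have := (abs_le.1 (abs_int_mul_le hf hg)).2
    nlinarith
  exact (pow_le_pow_iff_left₀ (nrm_nonneg _) (add_nonneg (nrm_nonneg _) (nrm_nonneg _))
    (by norm_num)).1 h

theorem nrm_sum_le {f : Fin 3 → V → ℝ} (hf : ∀ j, Continuous (f j)) :
    nrm (fun x => ∑ j, f j x) ≤ ∑ j, nrm (f j) := by
  simp_rw [Fin.sum_univ_three]
  exact (nrm_add_le ((hf 0).add (hf 1)) (hf 2)).trans
    (add_le_add (nrm_add_le (hf 0) (hf 1)) le_rfl)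

theorem nrm_mul_le {f g : V → ℝ} (hf : Continuous f) (hg : Continuous g) {b : ℝ}
    (hb : ∀ x, |f x| ≤ b) : nrm (fun x => f x * g x) ≤ b * nrm g := by
  have hb0 : 0 ≤ b := (abs_nonneg _).trans (hb 0)
  have h : nrm (fun x => f x * g x) ^ 2 ≤ (b * nrm g) ^ 2 := by
    rw [nrm_sq, mul_pow, nrm_sq, ← integral_const_mul]
    refine integral_mono (integrableOn_cube ((hf.mul hg).pow 2))
      (integrableOn_cube (continuous_const.mul (hg.pow 2))) fun x => ?_
    simp only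
    rw [mul_pow, ← sq_abs (f x)]
    exact mul_le_mul_of_nonneg_right (pow_le_pow_left₀ (abs_nonneg _) (hb x) 2) (sq_nonneg _)
  exact (pow_le_pow_iff_left₀ (nrm_nonneg _) (mul_nonneg hb0 (nrm_nonneg _))
    (by norm_num)).1 h

theorem nrm_mul_le' {f g : V → ℝ} (hf : Continuous f) (hg : Continuous g) :
    nrm (fun x => f x * g x) ^ 2 ≤ nrm (fun x => f x * f x) * nrm (fun x => g x * g x) := by
  rw [nrm_sq]
  have e : ∀ x, (f x * g x) ^ 2 = (f x * f x) * (g x * g x) := fun x => by ring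
  simp_rw [e]
  exact (le_abs_self _).trans (abs_int_mul_le (hf.mul hf) (hg.mul hg))

/-- `‖∂f‖₄² ≤ 3 ‖f‖_∞ ‖∂²f‖₂` -/
theorem nrm_sq_pd_le {f : V → ℝ} (hf : SP f) (m : Fin 3) {b : ℝ} (hb : ∀ x, |f x| ≤ b) :
    nrm (fun x => pd m f x * pd m f x) ≤ 3 * b * nrm (pd m (pd m f)) := by
  have hb0 : 0 ≤ b := (abs_nonneg _).trans (hb 0)
  set g : V → ℝ := pd m f with hg
  have sg : SP g := hf.pd m
  have h1 : ∫ x in cube, (g x * g x) ^ 2 = -(3 * ∫ x in cube, (f x * pd m g x) * (g x * g x)) := by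
    have e1 : ∀ x, (g x * g x) ^ 2 = pd m f x * (g x * (g x * g x)) := by
      intro x; rw [hg]; ring
    simp_rw [e1]
    rw [ibp hf (sg.mul (sg.mul sg)) m, ← integral_const_mul]
    congr 1
    congr 1
    funext x
    rw [pd_mul sg (sg.mul sg), pd_mul sg sg]
    ring
  set X := nrm (fun x => g x * g x) with hX
  have h2 : X ^ 2 ≤ 3 * (b * nrm (pd m g) * X) := by
    rw [hX, nrm_sq, h1]
    have h3 := abs_int_mul_le (hf.mul (sg.pd m)).cont (sg.mul sg).cont
    have h4 := nrm_mul_le hf.cont (sg.pd m).cont hb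
    have h5 : |∫ x in cube, (f x * pd m g x) * (g x * g x)| ≤ b * nrm (pd m g) * X :=
      h3.trans (mul_le_mul_of_nonneg_right h4 (nrm_nonneg _))
    have := (abs_le.1 h5).1
    linarith
  have hX0 : 0 ≤ X := nrm_nonneg _
  have hn := nrm_nonneg (pd m g)
  by_contra hcon
  push Not at hcon
  have h6 : 0 < X := lt_of_le_of_lt (by positivity) hcon
  nlinarith

section fixed

variable {v : Fin 3 → V → ℝ} (hv : ∀ i, SP (v i)) (hdiv : ∀ x, ∑ i, NS.pd i (v i) x = 0)

/-- The `L²` norms of the second derivatives are bounded by that of the Laplacian. -/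
theorem nrm_pd_pd_le {f : V → ℝ} (hf : SP f) (i j : Fin 3) :
    nrm (pd i (pd j f)) ≤ nrm (lap f) := by
  have h1 : nrm (pd i (pd j f)) ^ 2 ≤ nrm (lap f) ^ 2 := by
    have h2 := sum_hess (v := fun _ => f) (fun _ => hf)
    simp only [Finset.sum_const, Finset.card_univ, Fintype.card_fin, nsmul_eq_mul] at h2
    have h3 : ∑ m, ∑ l, n2 (D l (D m (fr f))) ^ 2 = ∫ x in cube, lap f x ^ 2 := by
      push_cast at h2
      linarith
    rw [nrm_sq, nrm_sq, ← h3, ← n2_fr ((hf.pd j).pd i), fr_pd (hf.pd j), fr_pd hf]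
    have a1 : n2 (D i (D j (fr f))) ^ 2 ≤ ∑ l, n2 (D l (D j (fr f))) ^ 2 :=
      Finset.single_le_sum (f := fun l => n2 (D l (D j (fr f))) ^ 2) (fun _ _ => sq_nonneg _)
        (Finset.mem_univ i)
    exact a1.trans (Finset.single_le_sum (f := fun m => ∑ l, n2 (D l (D m (fr f))) ^ 2)
      (fun _ _ => Finset.sum_nonneg fun _ _ => sq_nonneg _) (Finset.mem_univ j))
  exact (pow_le_pow_iff_left₀ (nrm_nonneg _) (nrm_nonneg _) (by norm_num)).1 h1

include hv in
theorem int_lap_lap_conv {b P Z : ℝ} (hb : ∀ i x, |v i x| ≤ b) (hP : ∀ i, nrm (lap (v i)) ≤ P)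
    (hZ : ∀ i m, nrm (pd m (lap (v i))) ≤ Z) :
    |∑ i, ∫ x in cube, lap (v i) x * lap (conv v i) x| ≤ 108 * (b * P * Z) := by
  have hb0 : 0 ≤ b := (abs_nonneg _).trans (hb 0 0)
  have hP0 : 0 ≤ P := (nrm_nonneg _).trans (hP 0)
  have hZ0 : 0 ≤ Z := (nrm_nonneg _).trans (hZ 0 0)
  have hc : ∀ i m, nrm (pd m (conv v i)) ≤ 12 * (b * P) := by
    intro i m
    have e : pd m (conv v i) = fun x => ∑ j, (v j x * pd m (pd j (v i)) x
        + pd m (v j) x * pd j (v i) x) := by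
      funext x
      unfold conv
      rw [pd_sum (fun j _ => (hv j).mul ((hv i).pd j)) m x]
      exact Finset.sum_congr rfl fun j _ => pd_mul (hv j) ((hv i).pd j) m x
    rw [e]
    have hj : ∀ j, nrm (fun x => v j x * pd m (pd j (v i)) x + pd m (v j) x * pd j (v i) x)
        ≤ 4 * (b * P) := by
      intro j
      refine (nrm_add_le ((hv j).mul (((hv i).pd j).pd m)).cont
        (((hv j).pd m).mul ((hv i).pd j)).cont).trans ?_
      have h1 : nrm (fun x => v j x * pd m (pd j (v i)) x) ≤ b * P :=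
        (nrm_mul_le (hv j).cont (((hv i).pd j).pd m).cont (hb j)).trans
          (mul_le_mul_of_nonneg_left ((nrm_pd_pd_le (hv i) m j).trans (hP i)) hb0)
      have h2 : nrm (fun x => pd m (v j) x * pd j (v i) x) ≤ 3 * (b * P) := by
        have k0 := nrm_mul_le' ((hv j).pd m).cont ((hv i).pd j).cont
        have k1 : nrm (fun x => pd m (v j) x * pd m (v j) x) ≤ 3 * (b * P) := by
          refine (nrm_sq_pd_le (hv j) m (hb j)).trans ?_
          rw [mul_assoc]
          gcongr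
          exact (nrm_pd_pd_le (hv j) m m).trans (hP j)
        have k2 : nrm (fun x => pd j (v i) x * pd j (v i) x) ≤ 3 * (b * P) := by
          refine (nrm_sq_pd_le (hv i) j (hb i)).trans ?_
          rw [mul_assoc]
          gcongr
          exact (nrm_pd_pd_le (hv i) j j).trans (hP i)
        have k3 : nrm (fun x => pd m (v j) x * pd j (v i) x) ^ 2 ≤ (3 * (b * P)) ^ 2 := by
          refine k0.trans ?_
          rw [sq]
          exact mul_le_mul k1 k2 (nrm_nonneg _) (by positivity)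
        exact (pow_le_pow_iff_left₀ (nrm_nonneg _) (by positivity) (by norm_num)).1 k3
      linarith
    refine (nrm_sum_le fun j => (((hv j).mul (((hv i).pd j).pd m)).add
      (((hv j).pd m).mul ((hv i).pd j))).cont).trans ?_
    refine (Finset.sum_le_sum fun j _ => hj j).trans ?_
    rw [Finset.sum_const, Finset.card_univ, Fintype.card_fin, nsmul_eq_mul]
    push_cast
    linarith
  have hi : ∀ i, |∫ x in cube, lap (v i) x * lap (conv v i) x| ≤ 36 * (b * P * Z) := by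
    intro i
    have hcs := sp_conv hv i
    have e : ∫ x in cube, lap (v i) x * lap (conv v i) x
        = -∑ m, ∫ x in cube, pd m (conv v i) x * pd m (lap (v i)) x := by
      rw [← int_lap_mul hcs (hv i).lap]
      congr 1
      funext x
      ring
    rw [e, abs_neg]
    refine (Finset.abs_sum_le_sum_abs _ _).trans ?_
    have hm : ∀ m, |∫ x in cube, pd m (conv v i) x * pd m (lap (v i)) x|
        ≤ 12 * (b * P) * Z := by
      intro m
      refine (abs_int_mul_le (hcs.pd m).cont ((hv i).lap.pd m).cont).trans ?_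
      exact mul_le_mul (hc i m) (hZ i m) (nrm_nonneg _) (by positivity)
    refine (Finset.sum_le_sum fun m _ => hm m).trans ?_
    rw [Finset.sum_const, Finset.card_univ, Fintype.card_fin, nsmul_eq_mul]
    push_cast
    linarith
  refine (Finset.abs_sum_le_sum_abs _ _).trans ?_
  refine (Finset.sum_le_sum fun i _ => hi i).trans ?_
  rw [Finset.sum_const, Finset.card_univ, Fintype.card_fin, nsmul_eq_mul]
  push_cast
  linarith

end fixed

/-! ### the embedding -/

theorem summable_int2 : Summable fun n : ℤ => (1 + (n : ℝ) ^ 2) ^ (-(2 / 3) : ℝ) := by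
  have h : Summable fun n : ℤ => |(n : ℝ)| ^ (-(4 / 3) : ℝ) :=
    Real.summable_abs_int_rpow (by norm_num)
  have h2 := h.add (summable_of_hasFiniteSupport (f := fun n : ℤ => if n = 0 then (1 : ℝ) else 0)
    ((Set.finite_singleton (0 : ℤ)).subset fun n hn => by
      by_contra h
      exact hn (if_neg h)))
  refine Summable.of_nonneg_of_le (fun n => by positivity) (fun n => ?_) h2
  by_cases hn : n = 0
  · subst hn
    rw [if_pos rfl]
    have h3 : (0 : ℝ) ≤ |((0 : ℤ) : ℝ)| ^ (-(4 / 3) : ℝ) := by positivity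
    have h4 : (1 + ((0 : ℤ) : ℝ) ^ 2) ^ (-(2 / 3) : ℝ) = 1 := by simp
    linarith
  · rw [if_neg hn, add_zero]
    have hn' : 0 < |(n : ℝ)| := abs_pos.2 (by exact_mod_cast hn)
    have e : |(n : ℝ)| ^ (-(4 / 3) : ℝ) = (|(n : ℝ)| ^ 2) ^ (-(2 / 3) : ℝ) := by
      rw [← Real.rpow_natCast, ← Real.rpow_mul hn'.le]
      norm_num
    rw [e, sq_abs]
    apply Real.rpow_le_rpow_of_nonpos (by positivity) (by linarith) (by norm_num)

theorem summable_N4 : Summable fun k : K3 => if k = 0 then (0 : ℝ) else 1 / (N k : ℝ) ^ 4 := by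
  have h1 := summable_int2.mul_of_nonneg summable_int2 (fun n => by positivity)
    (fun n => by positivity)
  have h2 := summable_int2.mul_of_nonneg h1 (fun n => by positivity)
    (fun p => by positivity)
  have h3 := (eqv.summable_iff (f := fun p : ℤ × ℤ × ℤ =>
    (1 + (p.1 : ℝ) ^ 2) ^ (-(2 / 3) : ℝ) * ((1 + (p.2.1 : ℝ) ^ 2) ^ (-(2 / 3) : ℝ)
      * (1 + (p.2.2 : ℝ) ^ 2) ^ (-(2 / 3) : ℝ)))).2 h2
  refine Summable.of_nonneg_of_le (fun k => by split_ifs <;> positivity) (fun k => ?_)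
    (h3.mul_left 4)
  by_cases hk : k = 0
  · rw [if_pos hk]
    simp only [Function.comp_apply]
    positivity
  · rw [if_neg hk]
    have hN : 1 ≤ N k := Nat.one_le_iff_ne_zero.2 fun h => hk (N_eq_zero.1 h)
    have hN' : (1 : ℝ) ≤ N k := by exact_mod_cast hN
    have hj : ∀ j, (2 * (N k : ℝ) ^ 2) ^ (-(2 / 3) : ℝ) ≤ (1 + (k j : ℝ) ^ 2) ^ (-(2 / 3) : ℝ) := by
      intro j
      apply Real.rpow_le_rpow_of_nonpos (by positivity) _ (by norm_num)
      have h := (N_le_iff k (N k)).1 le_rfl j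
      have h1 : |(k j : ℝ)| ≤ N k := by exact_mod_cast h
      rw [← sq_abs (k j : ℝ)]
      nlinarith [abs_nonneg (k j : ℝ)]
    have e : (1 : ℝ) / (N k : ℝ) ^ 4 = 4 * ((2 * (N k : ℝ) ^ 2) ^ (-(2 / 3) : ℝ)
        * ((2 * (N k : ℝ) ^ 2) ^ (-(2 / 3) : ℝ) * (2 * (N k : ℝ) ^ 2) ^ (-(2 / 3) : ℝ))) := by
      rw [← Real.rpow_add (by positivity), ← Real.rpow_add (by positivity)]
      have : (-(2 / 3) + (-(2 / 3) + -(2 / 3)) : ℝ) = -((2 : ℕ) : ℝ) := by norm_num
      rw [this, Real.rpow_neg (by positivity), Real.rpow_natCast]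
      field_simp
      norm_num
    rw [e]
    have e5 : ((fun p : ℤ × ℤ × ℤ => (1 + (p.1 : ℝ) ^ 2) ^ (-(2 / 3) : ℝ)
      * ((1 + (p.2.1 : ℝ) ^ 2) ^ (-(2 / 3) : ℝ) * (1 + (p.2.2 : ℝ) ^ 2) ^ (-(2 / 3) : ℝ))) ∘ eqv) k
      = (1 + (k 0 : ℝ) ^ 2) ^ (-(2 / 3) : ℝ) * ((1 + (k 1 : ℝ) ^ 2) ^ (-(2 / 3) : ℝ)
        * (1 + (k 2 : ℝ) ^ 2) ^ (-(2 / 3) : ℝ)) := rfl
    rw [e5]
    refine mul_le_mul_of_nonneg_left ?_ (by norm_num)
    exact mul_le_mul (hj 0) (mul_le_mul (hj 1) (hj 2) (by positivity) (by positivity))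
      (by positivity) (by positivity)

/-- the constant of the embedding -/
noncomputable def C4 : ℝ := ∑' k : K3, if k = 0 then (0 : ℝ) else 1 / (N k : ℝ) ^ 4

theorem C4_nonneg : 0 ≤ C4 := tsum_nonneg fun k => by split_ifs <;> positivity

/-- `‖f‖_∞ ≤ ‖f‖₂ + C ‖Δf‖₂` -/
theorem sup_le {f : V → ℝ} (hf : SP f) (x : V) : |f x| ≤ nrm f + Real.sqrt C4 * nrm (lap f) := by
  have hr := rap_fr hf
  have hl := rap_fr hf.lap
  have h1 : |f x| ≤ ∑' k, ‖fr f k‖ := by
    have := norm_S_le hr.summable x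
    rwa [S_fr hf, Complex.norm_real, Real.norm_eq_abs] at this
  refine h1.trans ?_
  have hbd : ∀ k, ‖fr f k‖ ≤ (if k = 0 then ‖fr f 0‖ else 0)
      + Real.sqrt (if k = 0 then (0 : ℝ) else 1 / (N k : ℝ) ^ 4) * ‖fr (lap f) k‖ := by
    intro k
    by_cases hk : k = 0
    · rw [if_pos hk, if_pos hk, hk]
      simp
    · rw [if_neg hk, if_neg hk, zero_add]
      have hN : 1 ≤ N k := Nat.one_le_iff_ne_zero.2 fun h => hk (N_eq_zero.1 h)
      have hN' : (0 : ℝ) < N k := by exact_mod_cast hN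
      have e1 : fr (lap f) k = -(((2 * Real.pi) ^ 2 * ∑ j, (k j : ℝ) ^ 2 : ℝ) : ℂ) * fr f k := by
        unfold lap
        rw [fr_sum fun j _ => (hf.pd j).pd j]
        push_cast
        rw [Finset.mul_sum, ← Finset.sum_neg_distrib, Finset.sum_mul]
        refine Finset.sum_congr rfl fun j _ => ?_
        rw [fr_pd (hf.pd j), fr_pd hf, D, D]
        have := Complex.I_sq
        linear_combination ((2 * Real.pi : ℂ) ^ 2 * (k j : ℂ) ^ 2 * fr f k) * this
      have e2 : (N k : ℝ) ^ 2 * ‖fr f k‖ ≤ ‖fr (lap f) k‖ := by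
        rw [e1, norm_mul, norm_neg, Complex.norm_real, Real.norm_eq_abs,
          abs_of_nonneg (by positivity)]
        refine mul_le_mul_of_nonneg_right ?_ (norm_nonneg _)
        have a1 := N_sq_le k
        have a2 : (1 : ℝ) ≤ (2 * Real.pi) ^ 2 := by nlinarith [Real.pi_gt_three]
        have a3 : (0 : ℝ) ≤ ∑ j, (k j : ℝ) ^ 2 := by positivity
        nlinarith
      have e3 : Real.sqrt (1 / (N k : ℝ) ^ 4) = 1 / (N k : ℝ) ^ 2 := by
        rw [show (1 : ℝ) / (N k : ℝ) ^ 4 = (1 / (N k : ℝ) ^ 2) ^ 2 by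
          rw [div_pow, one_pow, ← pow_mul], Real.sqrt_sq (by positivity)]
      rw [e3, div_mul_eq_mul_div, one_mul, le_div_iff₀ (by positivity), mul_comm]
      exact e2
  have s1 : Summable fun k : K3 => if k = 0 then ‖fr f 0‖ else 0 :=
    (hasSum_ite_eq (0 : K3) ‖fr f 0‖).summable
  have sq1 : Summable fun k : K3 => (Real.sqrt (if k = 0 then (0 : ℝ) else 1 / (N k : ℝ) ^ 4)) ^ 2 := by
    refine summable_N4.congr fun k => ?_
    rw [Real.sq_sqrt (by split_ifs <;> positivity)]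
  have sq2 := summable_sq hl.summable
  have s2 : Summable fun k : K3 =>
      Real.sqrt (if k = 0 then (0 : ℝ) else 1 / (N k : ℝ) ^ 4) * ‖fr (lap f) k‖ := by
    refine Summable.of_nonneg_of_le (fun k => by positivity) (fun k => ?_) (sq1.add sq2)
    nlinarith [sq_nonneg (Real.sqrt (if k = 0 then (0 : ℝ) else 1 / (N k : ℝ) ^ 4)
      - ‖fr (lap f) k‖), sq_nonneg (Real.sqrt (if k = 0 then (0 : ℝ) else 1 / (N k : ℝ) ^ 4)),
      sq_nonneg ‖fr (lap f) k‖]
  refine (hr.summable.norm.tsum_le_tsum hbd (s1.add s2)).trans ?_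
  rw [s1.tsum_add s2, tsum_ite_eq]
  have t1 : ‖fr f 0‖ ≤ nrm f := by
    have a1 : ‖fr f 0‖ ^ 2 ≤ n2 (fr f) ^ 2 := by
      rw [n2_sq]
      exact (summable_sq hr.summable).le_tsum (0 : K3) fun _ _ => sq_nonneg _
    have a2 : n2 (fr f) ^ 2 = nrm f ^ 2 := by rw [n2_fr hf, nrm_sq]
    rw [a2] at a1
    exact (pow_le_pow_iff_left₀ (norm_nonneg _) (nrm_nonneg _) (by norm_num)).1 a1
  have t2 : ∑' k : K3, Real.sqrt (if k = 0 then (0 : ℝ) else 1 / (N k : ℝ) ^ 4) * ‖fr (lap f) k‖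
      ≤ Real.sqrt C4 * nrm (lap f) := by
    refine s2.tsum_le_of_sum_le fun F => ?_
    have b1 := Finset.sum_mul_sq_le_sq_mul_sq F
      (fun k : K3 => Real.sqrt (if k = 0 then (0 : ℝ) else 1 / (N k : ℝ) ^ 4))
      (fun k => ‖fr (lap f) k‖)
    have b2 : ∑ k ∈ F, (Real.sqrt (if k = 0 then (0 : ℝ) else 1 / (N k : ℝ) ^ 4)) ^ 2 ≤ C4 := by
      have : ∑' k : K3, (Real.sqrt (if k = 0 then (0 : ℝ) else 1 / (N k : ℝ) ^ 4)) ^ 2 = C4 :=
        tsum_congr fun k => Real.sq_sqrt (by split_ifs <;> positivity)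
      rw [← this]
      exact sq1.sum_le_tsum F fun _ _ => sq_nonneg _
    have b3 : ∑ k ∈ F, ‖fr (lap f) k‖ ^ 2 ≤ nrm (lap f) ^ 2 := by
      rw [nrm_sq, ← n2_fr hf.lap, n2_sq]
      exact sq2.sum_le_tsum F fun _ _ => sq_nonneg _
    have b4 : (∑ k ∈ F, Real.sqrt (if k = 0 then (0 : ℝ) else 1 / (N k : ℝ) ^ 4)
        * ‖fr (lap f) k‖) ^ 2 ≤ (Real.sqrt C4 * nrm (lap f)) ^ 2 := by
      rw [mul_pow, Real.sq_sqrt C4_nonneg]
      refine b1.trans ?_
      exact mul_le_mul b2 b3 (Finset.sum_nonneg fun _ _ => sq_nonneg _) C4_nonneg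
    exact (pow_le_pow_iff_left₀ (Finset.sum_nonneg fun _ _ => by positivity)
      (mul_nonneg (Real.sqrt_nonneg _) (nrm_nonneg _)) (by norm_num)).1 b4
  linarith

end H459R3.NS
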