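import Pool.Agent.H459R3.NS.High

/-!
From bounded enstrophy to bounded velocity: evolution of `∫ |Δu|²`.
-/

open MeasureTheory Set Filter Topology
open scoped ContDiff

namespace H459R3.NS

theorem int_lap_symm {f g : V → ℝ} (hf : SP f) (hg : SP g) :
    ∫ x in cube, lap f x * g x = ∫ x in cube, f x * lap g x := by
  rw [int_lap_mul hf hg]
  have e : ∫ x in cube, f x * lap g x = ∫ x in cube, lap g x * f x := by
    congr 1; funext x; ring
  rw [e, int_lap_mul hg hf]
  congr 1
  refine Finset.sum_congr rfl fun j _ => ?_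
  congr 1
  funext x
  ring

section

variable {ν T : ℝ} {u : ℝ → V → V} {p : ℝ → V → ℝ}

theorem contDiffOn_lap {f : ℝ → V → ℝ}
    (hf : ContDiffOn ℝ ∞ (fun z : ℝ × V => f z.1 z.2) (Ico 0 T ×ˢ univ)) :
    ContDiffOn ℝ ∞ (fun z : ℝ × V => lap (f z.1) z.2) (Ico 0 T ×ˢ univ) := by
  unfold lap
  refine ContDiffOn.sum fun j _ => ?_
  exact contDiffOn_pd (f := fun s => pd j (f s)) (contDiffOn_pd hf j) j

theorem dt_lap {f : ℝ → V → ℝ}
    (hf : ContDiffOn ℝ ∞ (fun z : ℝ × V => f z.1 z.2) (Ico 0 T ×ˢ univ)) {t : ℝ}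
    (ht : t ∈ Ioo 0 T) (x : V) : dt (fun s => lap (f s)) t x = lap (dt f t) x := by
  have h1 : ∀ j, HasDerivAt (fun s => pd j (pd j (f s)) x) (pd j (pd j (dt f t)) x) t := by
    intro j
    have c1 := contDiffOn_pd hf j
    have c2 := contDiffOn_pd (f := fun s => pd j (f s)) c1 j
    have a1 := hasDerivAt_slice (F := fun s => pd j (pd j (f s)))
      (mono_Ioo (f := fun s => pd j (pd j (f s))) c2 (by norm_cast)) ht x
    rw [← dt_eq (f := fun s => pd j (pd j (f s))) c2 ht x,
      dt_pd (f := fun s => pd j (f s)) c1 ht j x] at a1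
    have a2 : dt (fun s => pd j (f s)) t = pd j (dt f t) := funext fun y => dt_pd hf ht j y
    rwa [a2] at a1
  unfold dt lap
  exact (HasDerivAt.fun_sum fun j _ => h1 j).deriv

/-- `∫ |∇Δv|²` -/
noncomputable def third (v : V → V) : ℝ :=
  ∑ i, ∑ m, ∫ x in cube, pd m (lap (fun y => v y i)) x ^ 2

theorem third_nonneg (v : V → V) : 0 ≤ third v :=
  Finset.sum_nonneg fun _ _ => Finset.sum_nonneg fun _ _ => integral_nonneg fun _ => sq_nonneg _

theorem IsSol.palin_hasDerivAt (h : IsSol ν T u p) {t : ℝ} (ht : t ∈ Ioo 0 T) :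
    HasDerivAt (fun s => palin (u s))
      (-(2 * ν * third (u t)) - 2 * ∑ i, ∫ x in cube, lap (fun y => u t y i) x
        * lap (conv (fun i y => u t y i) i) x) t := by
  have hI : t ∈ Ico 0 T := ⟨ht.1.le, ht.2⟩
  set v : Fin 3 → V → ℝ := fun i y => u t y i with hv
  have hsp : ∀ i, SP (v i) := fun i => h.sp hI i
  have hdiv : ∀ x, ∑ i, pd i (v i) x = 0 := h.divfree t hI
  have h1 : ∀ i, HasDerivAt (fun s => ∫ x in cube, lap (fun y => u s y i) x ^ 2)
      (2 * ∫ x in cube, lap (v i) x * lap (dt (fun s y => u s y i) t) x) t := by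
    intro i
    have hG := contDiffOn_lap (f := fun s y => u s y i) (h.smooth_c i)
    have hG1 : ContDiffOn ℝ 1 (fun z : ℝ × V => lap (fun y => u z.1 y i) z.2)
        (Ioo 0 T ×ˢ univ) :=
      mono_Ioo (f := fun s x => lap (fun y => u s y i) x) hG (by norm_cast)
    have hF : ContDiffOn ℝ 1 (fun z : ℝ × V => lap (fun y => u z.1 y i) z.2 ^ 2)
        (Ioo 0 T ×ˢ univ) := hG1.pow 2
    have key := hasDerivAt_int (F := fun s x => lap (fun y => u s y i) x ^ 2) hF ht
    refine key.congr_deriv ?_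
    rw [← integral_const_mul]
    congr 1
    funext x
    have h2 : HasDerivAt (fun s => lap (fun y => u s y i) x)
        (lap (dt (fun s y => u s y i) t) x) t := by
      have h3 := hasDerivAt_slice (F := fun s x => lap (fun y => u s y i) x) hG1 ht x
      have h4 := dt_lap (f := fun s y => u s y i) (h.smooth_c i) ht x
      rw [NS.dt_eq (f := fun s => lap (fun y => u s y i)) hG ht x] at h4
      rwa [h4] at h3
    have h3 : HasDerivAt (fun s => lap (fun y => u s y i) x ^ 2) _ t := h2.pow 2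
    rw [h3.deriv]
    simp only [hv]
    push_cast
    ring
  have h2 : HasDerivAt (fun s => palin (u s))
      (∑ i, 2 * ∫ x in cube, lap (v i) x * lap (dt (fun s y => u s y i) t) x) t :=
    HasDerivAt.fun_sum fun i _ => h1 i
  refine h2.congr_deriv ?_
  have e1 : ∀ i, ∫ x in cube, lap (v i) x * lap (dt (fun s y => u s y i) t) x
      = ν * (∫ x in cube, lap (lap (v i)) x * lap (v i) x)
        - (∫ x in cube, lap (v i) x * lap (conv v i) x)
        - ∫ x in cube, lap (lap (v i)) x * pd i (p t) x := by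
    intro i
    rw [← int_lap_symm (hsp i).lap (h.sp_dt ht i), ← int_lap_symm (hsp i).lap (sp_conv hsp i)]
    have e : ∀ x, lap (lap (v i)) x * dt (fun s y => u s y i) t x
        = ν * (lap (lap (v i)) x * lap (v i) x) - lap (lap (v i)) x * conv v i x
          - lap (lap (v i)) x * pd i (p t) x := by
      intro x
      rw [h.dt_eq ht]
      ring
    simp_rw [e]
    have i1 : IntegrableOn (fun x => ν * (lap (lap (v i)) x * lap (v i) x)) cube :=
      ((hsp i).lap.lap.mul (hsp i).lap).int.const_mul ν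
    have i2 : IntegrableOn (fun x => lap (lap (v i)) x * conv v i x) cube :=
      ((hsp i).lap.lap.mul (sp_conv hsp i)).int
    have i3 : IntegrableOn (fun x => lap (lap (v i)) x * pd i (p t) x) cube :=
      ((hsp i).lap.lap.mul ((h.sp_p hI).pd i)).int
    have i12 : IntegrableOn (fun x => ν * (lap (lap (v i)) x * lap (v i) x)
        - lap (lap (v i)) x * conv v i x) cube := i1.sub i2
    rw [integral_sub i12 i3, integral_sub i1 i2, integral_const_mul]
  simp_rw [e1]
  have e2 : ∑ i, ∫ x in cube, lap (lap (v i)) x * pd i (p t) x = 0 :=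
    int_lap_press (v := fun i => lap (v i)) (fun i => (hsp i).lap) (div_lap hsp hdiv) (h.sp_p hI)
  rw [← Finset.mul_sum, Finset.sum_sub_distrib, Finset.sum_sub_distrib, e2, ← Finset.mul_sum]
  have e3 : ∑ i, ∫ x in cube, lap (lap (v i)) x * lap (v i) x = -third (u t) := by
    unfold third
    rw [← Finset.sum_neg_distrib]
    refine Finset.sum_congr rfl fun i _ => ?_
    rw [int_lap_mul (hsp i).lap (hsp i).lap]
    congr 1
    refine Finset.sum_congr rfl fun j _ => ?_
    congr 1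
    funext x
    rw [sq]
  rw [e3]
  ring

theorem IsSol.palin_continuousOn (h : IsSol ν T u p) :
    ContinuousOn (fun s => palin (u s)) (Ico 0 T) := by
  unfold palin
  refine continuousOn_finsetSum _ fun i _ => ?_
  exact continuousOn_int (F := fun s x => lap (fun y => u s y i) x ^ 2)
    ((contDiffOn_lap (f := fun s y => u s y i) (h.smooth_c i)).continuousOn.pow 2)

theorem IsSol.energy_le (h : IsSol ν T u p) (hν : 0 < ν) {t : ℝ} (ht : t ∈ Ico 0 T) :
    energy (u t) ≤ energy (u 0) := by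
  have hc : ContinuousOn (fun s => enstrophy (u s)) (Icc 0 t) :=
    h.enstrophy_continuousOn.mono fun s hs => ⟨hs.1, hs.2.trans_lt ht.2⟩
  have hE : ContinuousOn (fun s => energy (u s)) (Icc 0 t) :=
    h.energy_continuousOn.mono fun s hs => ⟨hs.1, hs.2.trans_lt ht.2⟩
  have h1 := intervalIntegral.integral_eq_sub_of_hasDerivAt_of_le ht.1 hE
    (fun s hs => h.energy_hasDerivAt ⟨hs.1, hs.2.trans ht.2⟩)
    ((hc.const_smul (2 * ν)).neg.intervalIntegrable_of_Icc ht.1)
  rw [intervalIntegral.integral_neg, intervalIntegral.integral_const_mul] at h1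
  have h2 : 0 ≤ ∫ s in (0 : ℝ)..t, enstrophy (u s) :=
    intervalIntegral.integral_nonneg ht.1 fun s _ => enstrophy_nonneg _
  have h3 : 0 ≤ 2 * ν * ∫ s in (0 : ℝ)..t, enstrophy (u s) := by positivity
  linarith

theorem IsSol.abs_le (h : IsSol ν T u p) (hν : 0 < ν) {t : ℝ} (ht : t ∈ Ico 0 T) (i : Fin 3)
    (x : V) :
    |u t x i| ≤ Real.sqrt (energy (u 0)) + Real.sqrt C4 * Real.sqrt (palin (u t)) := by
  have h1 := sup_le (h.sp ht i) x
  refine h1.trans ?_
  have h2 : nrm (fun y => u t y i) ≤ Real.sqrt (energy (u 0)) := by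
    unfold nrm
    refine Real.sqrt_le_sqrt (le_trans ?_ (h.energy_le hν ht))
    exact Finset.single_le_sum (f := fun i => ∫ x in cube, u t x i ^ 2)
      (fun _ _ => integral_nonneg fun _ => sq_nonneg _) (Finset.mem_univ i)
  have h3 : nrm (lap fun y => u t y i) ≤ Real.sqrt (palin (u t)) := by
    unfold nrm
    refine Real.sqrt_le_sqrt ?_
    exact Finset.single_le_sum (f := fun i => ∫ x in cube, lap (fun y => u t y i) x ^ 2)
      (fun _ _ => integral_nonneg fun _ => sq_nonneg _) (Finset.mem_univ i)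
  exact add_le_add h2 (mul_le_mul_of_nonneg_left h3 (Real.sqrt_nonneg _))

/-- The differential inequality for `∫ |Δu|²`. -/
theorem IsSol.palin_deriv_le (h : IsSol ν T u p) (hν : 0 < ν) {t : ℝ} (ht : t ∈ Ioo 0 T) :
    -(2 * ν * third (u t)) - 2 * ∑ i, ∫ x in cube, lap (fun y => u t y i) x
        * lap (conv (fun i y => u t y i) i) x
      ≤ 11664 / ν * (energy (u 0) + C4 * palin (u t)) * palin (u t) := by
  have hI : t ∈ Ico 0 T := ⟨ht.1.le, ht.2⟩
  set v : Fin 3 → V → ℝ := fun i y => u t y i with hv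
  have hsp : ∀ i, SP (v i) := fun i => h.sp hI i
  set b := Real.sqrt (energy (u 0)) + Real.sqrt C4 * Real.sqrt (palin (u t)) with hb
  set P := Real.sqrt (palin (u t)) with hP
  set Z := Real.sqrt (third (u t)) with hZ
  have hP2 : P ^ 2 = palin (u t) := Real.sq_sqrt (palin_nonneg _)
  have hZ2 : Z ^ 2 = third (u t) := Real.sq_sqrt (third_nonneg _)
  have hE2 : Real.sqrt (energy (u 0)) ^ 2 = energy (u 0) := Real.sq_sqrt (energy_nonneg _)
  have hC2 : Real.sqrt C4 ^ 2 = C4 := Real.sq_sqrt C4_nonneg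
  have h1 := int_lap_lap_conv (v := v) hsp (b := b) (P := P) (Z := Z)
    (fun i x => h.abs_le hν hI i x)
    (fun i => by
      unfold nrm
      refine Real.sqrt_le_sqrt ?_
      exact Finset.single_le_sum (f := fun i => ∫ x in cube, lap (v i) x ^ 2)
        (fun _ _ => integral_nonneg fun _ => sq_nonneg _) (Finset.mem_univ i))
    (fun i m => by
      unfold nrm
      refine Real.sqrt_le_sqrt ?_
      have a1 : ∫ x in cube, pd m (lap (v i)) x ^ 2
          ≤ ∑ m, ∫ x in cube, pd m (lap (v i)) x ^ 2 :=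
        Finset.single_le_sum (f := fun m => ∫ x in cube, pd m (lap (v i)) x ^ 2)
          (fun _ _ => integral_nonneg fun _ => sq_nonneg _) (Finset.mem_univ m)
      exact a1.trans (Finset.single_le_sum
        (f := fun i => ∑ m, ∫ x in cube, pd m (lap (v i)) x ^ 2)
        (fun _ _ => Finset.sum_nonneg fun _ _ => integral_nonneg fun _ => sq_nonneg _)
        (Finset.mem_univ i)))
  have h2 := (_root_.abs_le.1 h1).1
  have h3 : 216 * (b * P * Z) ≤ 2 * ν * Z ^ 2 + 5832 / ν * b ^ 2 * P ^ 2 := by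
    have : 0 ≤ (2 * ν * Z - 108 * b * P) ^ 2 / (2 * ν) := by positivity
    have e : (2 * ν * Z - 108 * b * P) ^ 2 / (2 * ν)
        = 2 * ν * Z ^ 2 + 5832 / ν * b ^ 2 * P ^ 2 - 216 * (b * P * Z) := by
      field_simp
      ring
    linarith
  have h4 : b ^ 2 ≤ 2 * (energy (u 0) + C4 * palin (u t)) := by
    rw [← hE2, ← hC2, ← hP2, hb]
    nlinarith [sq_nonneg (Real.sqrt (energy (u 0)) - Real.sqrt C4 * P)]
  have h5 : 5832 / ν * b ^ 2 * P ^ 2
      ≤ 11664 / ν * (energy (u 0) + C4 * palin (u t)) * palin (u t) := by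
    rw [hP2]
    have hp := palin_nonneg (u t)
    calc 5832 / ν * b ^ 2 * palin (u t)
        ≤ 5832 / ν * (2 * (energy (u 0) + C4 * palin (u t))) * palin (u t) := by gcongr
      _ = _ := by ring
  rw [← hZ2]
  linarith

/-- Bounded enstrophy and square integrable Laplacian imply bounded velocity. -/
theorem IsSol.bounded_of_int_palin (h : IsSol ν T u p) (hν : 0 < ν) {K : ℝ}
    (hK : ∀ t ∈ Ico 0 T, ∫ s in (0 : ℝ)..t, palin (u s) ≤ K) :
    ∃ C, ∀ t ∈ Ico 0 T, ∀ x i, |u t x i| ≤ C := by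
  set P : ℝ → ℝ := fun s => palin (u s) with hP
  have hP0 : ∀ s, 0 ≤ P s := fun s => palin_nonneg _
  have hE0 := energy_nonneg (u 0)
  have hC0 := C4_nonneg
  set B : ℝ := 11664 / ν * (energy (u 0) * T + C4 * K) with hB
  have hmain : ∀ t ∈ Ico 0 T, 1 + P t ≤ (1 + P 0) * Real.exp B := by
    intro t ht
    have hpos : ∀ s, 0 < 1 + P s := fun s => by linarith [hP0 s]
    have hPc : ContinuousOn P (Icc 0 t) :=
      h.palin_continuousOn.mono fun s hs => ⟨hs.1, hs.2.trans_lt ht.2⟩
    have hc : ContinuousOn (fun s => Real.log (1 + P s)) (Icc 0 t) :=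
      (continuousOn_const.add hPc).log fun s _ => (hpos s).ne'
    have hd : ∀ s ∈ Ioo 0 t, HasDerivWithinAt (fun s => Real.log (1 + P s))
        ((-(2 * ν * third (u s)) - 2 * ∑ i, ∫ x in cube, lap (fun y => u s y i) x
        * lap (conv (fun i y => u s y i) i) x) / (1 + P s)) (Ioi s) s := by
      intro s hs
      exact (((h.palin_hasDerivAt ⟨hs.1, hs.2.trans ht.2⟩).const_add 1).log
        (hpos s).ne').hasDerivWithinAt
    have hle : ∀ s ∈ Ioo 0 t,
        (-(2 * ν * third (u s)) - 2 * ∑ i, ∫ x in cube, lap (fun y => u s y i) x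
        * lap (conv (fun i y => u s y i) i) x) / (1 + P s)
          ≤ 11664 / ν * (energy (u 0) + C4 * P s) := by
      intro s hs
      rw [div_le_iff₀ (hpos s)]
      refine (h.palin_deriv_le hν ⟨hs.1, hs.2.trans ht.2⟩).trans ?_
      refine mul_le_mul_of_nonneg_left ?_ ?_
      · show P s ≤ 1 + P s
        linarith
      · have := hP0 s
        positivity
    have hPi : IntervalIntegrable P volume 0 t := hPc.intervalIntegrable_of_Icc ht.1
    have hgi : IntegrableOn (fun s => 11664 / ν * (energy (u 0) + C4 * P s)) (Icc 0 t) := by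
      have : ContinuousOn (fun s => 11664 / ν * (energy (u 0) + C4 * P s)) (Icc 0 t) :=
        continuousOn_const.mul (continuousOn_const.add (continuousOn_const.mul hPc))
      exact this.integrableOn_Icc
    have h1 := intervalIntegral.sub_le_integral_of_hasDeriv_right_of_le ht.1 hc hd hgi hle
    have h2 : ∫ s in (0 : ℝ)..t, 11664 / ν * (energy (u 0) + C4 * P s) ≤ B := by
      rw [intervalIntegral.integral_const_mul, intervalIntegral.integral_add
        intervalIntegrable_const (hPi.const_mul _), intervalIntegral.integral_const,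
        intervalIntegral.integral_const_mul, hB]
      have a1 := hK t ht
      have a2 : t * energy (u 0) ≤ energy (u 0) * T := by
        rw [mul_comm]
        exact mul_le_mul_of_nonneg_left ht.2.le hE0
      have a3 : C4 * ∫ s in (0 : ℝ)..t, P s ≤ C4 * K := mul_le_mul_of_nonneg_left a1 hC0
      have : (t - 0) • energy (u 0) = t * energy (u 0) := by simp
      rw [this]
      refine mul_le_mul_of_nonneg_left (by linarith) (by positivity)
    have h3 : Real.log (1 + P t) ≤ Real.log (1 + P 0) + B := by linarith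
    calc 1 + P t = Real.exp (Real.log (1 + P t)) := (Real.exp_log (hpos t)).symm
      _ ≤ Real.exp (Real.log (1 + P 0) + B) := Real.exp_le_exp.2 h3
      _ = (1 + P 0) * Real.exp B := by rw [Real.exp_add, Real.exp_log (hpos 0)]
  refine ⟨Real.sqrt (energy (u 0)) + Real.sqrt C4 * Real.sqrt ((1 + P 0) * Real.exp B),
    fun t ht x i => (h.abs_le hν ht i x).trans ?_⟩
  have := hmain t ht
  gcongr
  linarith [hP0 t]

theorem IsSol.bounded (h : IsSol ν T u p) (hν : 0 < ν) {A : ℝ} {Q R : ℝ → Set K3}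
    (hQ : ∀ t ∈ Ioo 0 T, DimTwo A (Q t))
    (hit : ∀ t ∈ Ioo 0 T, ∀ a b : K3, crossProduct a b ≠ 0 →
      a ∈ Q t ∪ R t ∨ b ∈ Q t ∪ R t ∨ -a - b ∈ Q t ∪ R t) {β : ℝ → ℝ}
    (hβi : IntegrableOn (fun t => β t ^ 2) (Ioo 0 T))
    (hβ : ∀ t ∈ Ioo 0 T, ∀ i x, ‖S ((R t).indicator (fr fun y => u t y i)) x‖ ≤ β t) :
    ∃ C, ∀ t ∈ Ico 0 T, ∀ x i, |u t x i| ≤ C := by
  rcases le_or_gt T 0 with hT | hT
  · exact ⟨0, fun t ht => absurd (ht.1.trans_lt ht.2) (by linarith)⟩
  have hA : 0 ≤ A := (hQ (T / 2) ⟨by linarith, by linarith⟩).nonneg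
  set y : ℝ → ℝ := fun s => enstrophy (u s) with hy
  have hy0 : ∀ s, 0 ≤ y s := fun s => enstrophy_nonneg _
  set Y : ℝ := y 0 * Real.exp (26244 / ν * (∫ s in Ioo 0 T, β s ^ 2)
    + A / ν ^ 2 * energy (u 0)) with hY
  have hyY : ∀ t ∈ Ico 0 T, y t ≤ Y := fun t ht => h.bound hν hQ hit hβi hβ ht
  have hY0 : 0 ≤ Y := mul_nonneg (hy0 0) (Real.exp_pos _).le
  have hdiff : ∀ s ∈ Ioo 0 T,
      -(2 * ν * palin (u s)) - 2 * cub (fun i y => u s y i)
        ≤ -(ν * palin (u s)) + (52488 / ν * Y * β s ^ 2 + 4 * A / ν * Y ^ 2) := by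
    intro s hs
    have hI : s ∈ Ico 0 T := ⟨hs.1.le, hs.2⟩
    set G := Real.sqrt (y s) with hG
    set H := Real.sqrt (palin (u s)) with hH
    have hG2 : G ^ 2 = y s := Real.sq_sqrt (hy0 s)
    have hH2 : H ^ 2 = palin (u s) := Real.sq_sqrt (palin_nonneg _)
    have hG0 : 0 ≤ G := Real.sqrt_nonneg _
    have hH0 : 0 ≤ H := Real.sqrt_nonneg _
    have h1 := abs_cub_le (v := fun i y => u s y i) (fun i => h.sp hI i) (h.divfree s hI)
      (hQ s hs) (hit s hs) (hβ s hs) hG0 hH0 hG2.symm hH2.symm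
    have h2 := (_root_.abs_le.1 h1).1
    set q := Real.sqrt (2 * A) with hq
    have hq2 : q ^ 2 = 2 * A := Real.sq_sqrt (by positivity)
    have h3 : 2 * (162 * (β s * (G * H))) ≤ ν / 2 * H ^ 2 + 52488 / ν * β s ^ 2 * G ^ 2 := by
      have : 0 ≤ 2 / ν * (ν / 2 * H - 162 * β s * G) ^ 2 := by positivity
      have e : 2 / ν * (ν / 2 * H - 162 * β s * G) ^ 2
          = ν / 2 * H ^ 2 + 52488 / ν * β s ^ 2 * G ^ 2 - 2 * (162 * (β s * (G * H))) := by
        field_simp
        ring
      linarith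
    have h4 : 2 * (q * (G ^ 2 * H)) ≤ ν / 2 * H ^ 2 + 4 * A / ν * (G ^ 2) ^ 2 := by
      have : 0 ≤ 2 / ν * (ν / 2 * H - q * G ^ 2) ^ 2 := by positivity
      have e : 2 / ν * (ν / 2 * H - q * G ^ 2) ^ 2
          = ν / 2 * H ^ 2 + 2 * q ^ 2 / ν * (G ^ 2) ^ 2 - 2 * (q * (G ^ 2 * H)) := by
        field_simp
        ring
      rw [hq2] at e
      have e' : 2 * (2 * A) / ν * (G ^ 2) ^ 2 = 4 * A / ν * (G ^ 2) ^ 2 := by ring
      linarith
    have h5 : 52488 / ν * β s ^ 2 * G ^ 2 ≤ 52488 / ν * Y * β s ^ 2 := by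
      rw [hG2]
      have := hyY s hI
      calc 52488 / ν * β s ^ 2 * y s ≤ 52488 / ν * β s ^ 2 * Y := by gcongr
        _ = _ := by ring
    have h6 : 4 * A / ν * (G ^ 2) ^ 2 ≤ 4 * A / ν * Y ^ 2 := by
      rw [hG2]
      have := hyY s hI
      have := hy0 s
      gcongr
    rw [← hH2]
    linarith
  set K : ℝ := (y 0 + (52488 / ν * Y * (∫ s in Ioo 0 T, β s ^ 2) + 4 * A / ν * Y ^ 2 * T)) / ν
    with hK
  refine h.bounded_of_int_palin hν (K := K) fun t ht => ?_
  have hyc : ContinuousOn y (Icc 0 t) :=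
    h.enstrophy_continuousOn.mono fun s hs => ⟨hs.1, hs.2.trans_lt ht.2⟩
  have hPc : ContinuousOn (fun s => palin (u s)) (Icc 0 t) :=
    h.palin_continuousOn.mono fun s hs => ⟨hs.1, hs.2.trans_lt ht.2⟩
  have hβ1 : IntegrableOn (fun s => β s ^ 2) (Icc 0 t) := by
    rw [integrableOn_Icc_iff_integrableOn_Ioc, integrableOn_Ioc_iff_integrableOn_Ioo]
    exact hβi.mono_set (Ioo_subset_Ioo_right ht.2.le)
  have hP1 : IntegrableOn (fun s => palin (u s)) (Icc 0 t) := hPc.integrableOn_Icc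
  have i1 : IntervalIntegrable (fun s => β s ^ 2) volume 0 t :=
    (intervalIntegrable_iff_integrableOn_Icc_of_le ht.1).2 hβ1
  have i2 : IntervalIntegrable (fun s => palin (u s)) volume 0 t :=
    (intervalIntegrable_iff_integrableOn_Icc_of_le ht.1).2 hP1
  have hg1 : IntegrableOn (fun s => -(ν * palin (u s))
      + (52488 / ν * Y * β s ^ 2 + 4 * A / ν * Y ^ 2)) (Icc 0 t) :=
    ((hP1.const_mul ν).neg).add ((hβ1.const_mul _).add
      (integrableOn_const (by rw [Real.volume_Icc]; exact ENNReal.ofReal_ne_top)))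
  have h1 := intervalIntegral.sub_le_integral_of_hasDeriv_right_of_le ht.1 hyc
    (fun s hs => (h.enstrophy_hasDerivAt ⟨hs.1, hs.2.trans ht.2⟩).hasDerivWithinAt) hg1
    (fun s hs => hdiff s ⟨hs.1, hs.2.trans ht.2⟩)
  have h2 : ∫ s in (0 : ℝ)..t, (-(ν * palin (u s))
      + (52488 / ν * Y * β s ^ 2 + 4 * A / ν * Y ^ 2))
      = -(ν * ∫ s in (0 : ℝ)..t, palin (u s))
        + (52488 / ν * Y * (∫ s in (0 : ℝ)..t, β s ^ 2) + t * (4 * A / ν * Y ^ 2)) := by
    have j1 : IntervalIntegrable (fun s => -(ν * palin (u s))) volume 0 t := (i2.const_mul ν).neg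
    have j2 : IntervalIntegrable (fun s => 52488 / ν * Y * β s ^ 2) volume 0 t := i1.const_mul _
    have j3 : IntervalIntegrable (fun _ : ℝ => 4 * A / ν * Y ^ 2) volume 0 t :=
      intervalIntegrable_const
    have j4 : IntervalIntegrable (fun s => 52488 / ν * Y * β s ^ 2 + 4 * A / ν * Y ^ 2)
      volume 0 t := j2.add j3
    rw [intervalIntegral.integral_add j1 j4, intervalIntegral.integral_neg,
      intervalIntegral.integral_const_mul, intervalIntegral.integral_add j2 j3,
      intervalIntegral.integral_const_mul, intervalIntegral.integral_const]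
    simp
  rw [h2] at h1
  have a1 : ∫ s in (0 : ℝ)..t, β s ^ 2 ≤ ∫ s in Ioo 0 T, β s ^ 2 := by
    rw [intervalIntegral.integral_of_le ht.1, integral_Ioc_eq_integral_Ioo]
    exact setIntegral_mono_set hβi (Eventually.of_forall fun s => sq_nonneg _)
      (Ioo_subset_Ioo_right ht.2.le).eventuallyLE
  have a2 : 52488 / ν * Y * (∫ s in (0 : ℝ)..t, β s ^ 2)
      ≤ 52488 / ν * Y * (∫ s in Ioo 0 T, β s ^ 2) := by gcongr
  have a3 : t * (4 * A / ν * Y ^ 2) ≤ 4 * A / ν * Y ^ 2 * T := by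
    rw [mul_comm]
    exact mul_le_mul_of_nonneg_left ht.2.le (by positivity)
  have a4 := hy0 t
  rw [hK, le_div_iff₀ hν]
  linarith

end

end H459R3.NS
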