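import Pool.Agent.H459R3.NS.Phys2

/-!
Integration by parts identities for a divergence-free field at a fixed time.
-/

open MeasureTheory Set Filter Topology
open scoped ContDiff

namespace H459R3.NS

theorem SP.cont {f : V → ℝ} (hf : SP f) : Continuous f := hf.smooth.continuous

theorem SP.diff {f : V → ℝ} (hf : SP f) (x : V) : DifferentiableAt ℝ f x :=
  (hf.smooth.differentiable (by norm_cast)) x

theorem SP.int {f : V → ℝ} (hf : SP f) : IntegrableOn f cube := integrableOn_cube hf.cont

theorem pd_mul {f g : V → ℝ} (hf : SP f) (hg : SP g) (j : Fin 3) (x : V) :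
    pd j (fun y => f y * g y) x = f x * pd j g x + pd j f x * g x := by
  unfold pd
  have h : HasFDerivAt (fun y => f y * g y) _ x := (hf.diff x).hasFDerivAt.mul (hg.diff x).hasFDerivAt
  rw [h.fderiv]
  simp only [ContinuousLinearMap.add_apply, smul_apply, smul_eq_mul]
  ring

theorem pd_sum {ι : Type*} {s : Finset ι} {f : ι → V → ℝ} (hf : ∀ i ∈ s, SP (f i)) (j : Fin 3)
    (x : V) : pd j (fun y => ∑ i ∈ s, f i y) x = ∑ i ∈ s, pd j (f i) x := by
  unfold pd
  have h : HasFDerivAt (fun y => ∑ i ∈ s, f i y) _ x :=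
    HasFDerivAt.fun_sum fun i hi => ((hf i hi).diff x).hasFDerivAt
  rw [h.fderiv]
  simp

theorem pd_comm {f : V → ℝ} (hf : SP f) (i j : Fin 3) : pd i (pd j f) = pd j (pd i f) := by
  funext x
  have h2 : ContDiff ℝ 2 f := hf.smooth.of_le (by norm_cast)
  have hs : IsSymmSndFDerivAt ℝ f x := h2.contDiffAt.isSymmSndFDerivAt (by simp)
  have hd : DifferentiableAt ℝ (fderiv ℝ f) x :=
    ((h2.fderiv_right (m := 1) (by norm_num)).differentiable one_ne_zero) x
  have e : ∀ a b : Fin 3, pd a (pd b f) x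
      = fderiv ℝ (fderiv ℝ f) x (Pi.single a 1) (Pi.single b 1) := by
    intro a b
    unfold pd
    have h3 : HasFDerivAt (fun y => fderiv ℝ f y (Pi.single b 1)) _ x :=
      hd.hasFDerivAt.clm_apply (hasFDerivAt_const (Pi.single b (1 : ℝ) : V) x)
    rw [h3.fderiv]
    simp
  rw [e, e]
  exact hs _ _

/-- integration by parts -/
theorem ibp {f g : V → ℝ} (hf : SP f) (hg : SP g) (j : Fin 3) :
    ∫ x in cube, pd j f x * g x = -∫ x in cube, f x * pd j g x := by
  have h := integral_pd ((hf.mul hg).smooth.of_le (by norm_cast)) (hf.mul hg).per j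
  simp_rw [pd_mul hf hg] at h
  rw [integral_add (hf.mul (hg.pd j)).int ((hf.pd j).mul hg).int] at h
  linarith

section field

variable {v : Fin 3 → V → ℝ} (hv : ∀ i, SP (v i)) (hdiv : ∀ x, ∑ i, NS.pd i (v i) x = 0)

include hv hdiv in
theorem transport_zero {g : V → ℝ} (hg : SP g) :
    ∑ j, ∫ x in cube, v j x * (g x * pd j g x) = 0 := by
  have h1 : ∀ j, ∫ x in cube, v j x * (g x * pd j g x)
      = -(1 / 2) * ∫ x in cube, pd j (v j) x * (g x * g x) := by
    intro j
    rw [ibp (hv j) (hg.mul hg) j]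
    have : (∫ x in cube, v j x * pd j (fun y => g y * g y) x)
        = 2 * ∫ x in cube, v j x * (g x * pd j g x) := by
      rw [← integral_const_mul]
      congr 1
      funext x
      rw [pd_mul hg hg]
      ring
    rw [this]
    ring
  simp_rw [h1]
  rw [← Finset.mul_sum, ← integral_finsetSum _ fun j _ => (((hv j).pd j).mul (hg.mul hg)).int]
  have : ∀ x, ∑ j, pd j (v j) x * (g x * g x) = 0 := by
    intro x
    rw [← Finset.sum_mul, hdiv, zero_mul]
  simp_rw [this]
  simp

theorem SP.lap {f : V → ℝ} (hf : SP f) : SP (NS.lap f) := SP.sum fun j _ => (hf.pd j).pd j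

theorem int_lap_mul {f g : V → ℝ} (hf : SP f) (hg : SP g) :
    ∫ x in cube, lap f x * g x = -∑ j, ∫ x in cube, pd j f x * pd j g x := by
  unfold lap
  simp_rw [Finset.sum_mul]
  rw [integral_finsetSum _ fun j _ => (((hf.pd j).pd j).mul hg).int, ← Finset.sum_neg_distrib]
  exact Finset.sum_congr rfl fun j _ => ibp (hf.pd j) hg j

include hv hdiv in
theorem int_press {q : V → ℝ} (hq : SP q) : ∑ i, ∫ x in cube, v i x * pd i q x = 0 := by
  have h1 : ∀ i, ∫ x in cube, v i x * pd i q x = -∫ x in cube, pd i (v i) x * q x := by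
    intro i
    rw [ibp (hv i) hq i]; ring
  simp_rw [h1]
  rw [Finset.sum_neg_distrib, ← integral_finsetSum _ fun i _ => (((hv i).pd i).mul hq).int]
  simp_rw [← Finset.sum_mul, hdiv]
  simp

include hv hdiv in
theorem div_lap (x : V) : ∑ i, pd i (lap (v i)) x = 0 := by
  have h1 : ∀ i, pd i (lap (v i)) x = ∑ j, pd j (pd j (pd i (v i))) x := by
    intro i
    unfold lap
    rw [pd_sum (fun j _ => ((hv i).pd j).pd j) i x]
    refine Finset.sum_congr rfl fun j _ => ?_
    rw [pd_comm ((hv i).pd j) i j, pd_comm (hv i) i j]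
  simp_rw [h1]
  rw [Finset.sum_comm]
  have h2 : ∀ j, ∑ i, pd j (pd j (pd i (v i))) x = 0 := by
    intro j
    have e1 : (fun y => ∑ i, pd i (v i) y) = fun _ => 0 := funext hdiv
    have e2 : (fun y => ∑ i, pd j (pd i (v i)) y) = fun _ => 0 := by
      funext y
      rw [← pd_sum (fun i _ => (hv i).pd i) j y, e1]
      unfold pd; simp
    rw [← pd_sum (fun i _ => ((hv i).pd i).pd j) j x, e2]
    unfold pd; simp
  simp_rw [h2]
  simp

include hv hdiv in
theorem int_lap_press {q : V → ℝ} (hq : SP q) :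
    ∑ i, ∫ x in cube, lap (v i) x * pd i q x = 0 :=
  int_press (v := fun i => lap (v i)) (fun i => (hv i).lap) (div_lap hv hdiv) hq

/-- The convection term. -/
noncomputable def conv (v : Fin 3 → V → ℝ) (i : Fin 3) (x : V) : ℝ := ∑ j, v j x * pd j (v i) x

include hv in
theorem sp_conv (i : Fin 3) : SP (conv v i) := SP.sum fun j _ => (hv j).mul ((hv i).pd j)

include hv hdiv in
theorem int_conv : ∑ i, ∫ x in cube, v i x * conv v i x = 0 := by
  refine Finset.sum_eq_zero fun i _ => ?_
  have h := transport_zero hv hdiv (hv i)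
  rw [← h, ← integral_finsetSum _ fun j _ => ((hv j).mul ((hv i).mul ((hv i).pd j))).int]
  congr 1
  funext x
  unfold conv
  rw [Finset.mul_sum]
  exact Finset.sum_congr rfl fun j _ => by ring

/-- The cubic form. -/
noncomputable def cub (v : Fin 3 → V → ℝ) : ℝ :=
  ∑ i, ∑ j, ∑ m, ∫ x in cube, pd m (v i) x * (pd i (v j) x * pd m (v j) x)

include hv hdiv in
theorem int_lap_conv : ∑ i, ∫ x in cube, lap (v i) x * conv v i x = -cub v := by
  have h1 : ∀ i, ∫ x in cube, lap (v i) x * conv v i x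
      = -∑ m, ∑ j, ((∫ x in cube, pd m (v j) x * (pd j (v i) x * pd m (v i) x))
        + ∫ x in cube, v j x * (pd m (v i) x * pd j (pd m (v i)) x)) := by
    intro i
    rw [int_lap_mul (hv i) (sp_conv hv i)]
    congr 1
    refine Finset.sum_congr rfl fun m _ => ?_
    have e : ∀ x, pd m (v i) x * pd m (conv v i) x
        = ∑ j, (pd m (v j) x * (pd j (v i) x * pd m (v i) x)
          + v j x * (pd m (v i) x * pd j (pd m (v i)) x)) := by
      intro x
      unfold conv
      rw [pd_sum (fun j _ => (hv j).mul ((hv i).pd j)) m x, Finset.mul_sum]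
      refine Finset.sum_congr rfl fun j _ => ?_
      rw [pd_mul (hv j) ((hv i).pd j), pd_comm (hv i) m j]
      ring
    simp_rw [e]
    rw [integral_finsetSum _ fun j _ => (SP.add
      (((hv j).pd m).mul (((hv i).pd j).mul ((hv i).pd m)))
      ((hv j).mul (((hv i).pd m).mul (((hv i).pd m).pd j)))).int]
    refine Finset.sum_congr rfl fun j _ => ?_
    exact integral_add (((hv j).pd m).mul (((hv i).pd j).mul ((hv i).pd m))).int
      ((hv j).mul (((hv i).pd m).mul (((hv i).pd m).pd j))).int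
  simp_rw [h1]
  rw [Finset.sum_neg_distrib]
  congr 1
  simp_rw [Finset.sum_add_distrib]
  have h2 : ∀ i m, ∑ j, ∫ x in cube, v j x * (pd m (v i) x * pd j (pd m (v i)) x) = 0 :=
    fun i m => transport_zero hv hdiv ((hv i).pd m)
  simp_rw [h2]
  simp only [Finset.sum_const_zero, add_zero]
  unfold cub
  -- sum over i, m, j of I(m, j, i) = sum over i j m of I(m, i, j)
  have h3 : ∀ F : Fin 3 → Fin 3 → Fin 3 → ℝ, ∑ i, ∑ m, ∑ j, F m j i = ∑ i, ∑ j, ∑ m, F m i j := by
    intro F
    have : ∀ i, ∑ m, ∑ j, F m j i = ∑ j, ∑ m, F m j i := fun i => Finset.sum_comm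
    simp_rw [this]
    exact Finset.sum_comm
  exact h3 fun m j i => ∫ x in cube, pd m (v j) x * (pd j (v i) x * pd m (v i) x)

end field

end H459R3.NS
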