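import Pool.Agent.H459R3.NS.Final

/-!
The isometries of the torus preserve the enstrophy production.
-/

open MeasureTheory Set Filter Topology
open scoped ENNReal NNReal

namespace H459R3.NS

/-- Data of an isometry of the torus: a permutation of the coordinates, signs, and a shift. -/
structure Iso where
  perm : Equiv.Perm (Fin 3)
  sign : Fin 3 → ℤ
  sign_eq : ∀ i, sign i = 1 ∨ sign i = -1
  shift : V

namespace Iso

variable (g : Iso)

theorem sign_mul (i : Fin 3) : (g.sign i : ℝ) * g.sign i = 1 := by
  rcases g.sign_eq i with h | h <;> rw [h] <;> norm_num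

/-- The inverse of the isometry `y ↦ (signᵢ y_{perm i} + shiftᵢ)ᵢ`. -/
noncomputable def inv (x : V) : V := fun k =>
  (g.sign (g.perm.symm k) : ℝ) * (x (g.perm.symm k) - g.shift (g.perm.symm k))

/-- The image of a vector field under the isometry. -/
noncomputable def push (u : V → V) (x : V) : V := fun i => (g.sign i : ℝ) * u (g.inv x) (g.perm i)

/-- the linear part of `inv` -/
noncomputable def lin : V →L[ℝ] V :=
  ContinuousLinearMap.pi fun k => (g.sign (g.perm.symm k) : ℝ) •
    ContinuousLinearMap.proj (R := ℝ) (φ := fun _ : Fin 3 => ℝ) (g.perm.symm k)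

theorem inv_eq (x : V) : g.inv x = g.lin x + g.inv 0 := by
  funext k
  simp only [inv, lin, Pi.add_apply, ContinuousLinearMap.coe_pi', smul_apply,
    ContinuousLinearMap.proj_apply, smul_eq_mul, Pi.zero_apply]
  ring

theorem lin_single (m : Fin 3) : g.lin (Pi.single m 1) = (g.sign m : ℝ) • Pi.single (g.perm m) 1 := by
  funext k
  simp only [lin, ContinuousLinearMap.coe_pi', smul_apply,
    ContinuousLinearMap.proj_apply, smul_eq_mul, Pi.smul_apply]
  by_cases h : g.perm.symm k = m
  · have : k = g.perm m := by rw [← h]; simp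
    subst this
    simp
  · have h2 : k ≠ g.perm m := by
      intro hk
      apply h
      rw [hk]; simp
    rw [Pi.single_eq_of_ne h, Pi.single_eq_of_ne h2, mul_zero, mul_zero]

theorem hasFDerivAt_inv (x : V) : HasFDerivAt g.inv g.lin x := by
  have : g.inv = fun x => g.lin x + g.inv 0 := funext g.inv_eq
  rw [this]
  exact g.lin.hasFDerivAt.add_const _

theorem contDiff_inv {n : WithTop ℕ∞} : ContDiff ℝ n g.inv := by
  have : g.inv = fun x => g.lin x + g.inv 0 := funext g.inv_eq
  rw [this]
  exact g.lin.contDiff.add contDiff_const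

theorem comp_sp {f : V → ℝ} (hf : SP f) : SP (fun x => f (g.inv x)) where
  smooth := hf.smooth.comp g.contDiff_inv
  per := by
    intro i x
    have e : g.inv (x + Pi.single i 1)
        = g.inv x + fun k => (((Pi.single (g.perm i) (g.sign i) : K3) k : ℤ) : ℝ) := by
      rw [inv_eq, inv_eq g x, map_add, lin_single]
      funext k
      simp only [Pi.add_apply, Pi.smul_apply, smul_eq_mul]
      by_cases hk : k = g.perm i
      · subst hk
        simp
        ring
      · simp [Pi.single_eq_of_ne hk]
    show f (g.inv (x + Pi.single i 1)) = f (g.inv x)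
    rw [e, hf.per.int]

theorem pd_comp {f : V → ℝ} (hf : SP f) (m : Fin 3) (x : V) :
    pd m (fun x => f (g.inv x)) x = (g.sign m : ℝ) * pd (g.perm m) f (g.inv x) := by
  unfold pd
  have h : HasFDerivAt (fun x => f (g.inv x)) _ x :=
    (hf.diff (g.inv x)).hasFDerivAt.comp x (g.hasFDerivAt_inv x)
  rw [h.fderiv, ContinuousLinearMap.comp_apply, lin_single, map_smul, smul_eq_mul]

theorem ee_inv (k : K3) (x : V) :
    ee k (g.inv x) = ee k (g.inv 0) * ee (fun m => g.sign m * k (g.perm m)) x := by
  rw [inv_eq, ee_add, mul_comm]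
  congr 1
  unfold ee ph
  congr 3
  rw [← Equiv.sum_comp g.perm]
  refine Finset.sum_congr rfl fun m _ => ?_
  simp only [lin, ContinuousLinearMap.coe_pi', smul_apply,
    ContinuousLinearMap.proj_apply, smul_eq_mul, Equiv.symm_apply_apply]
  push_cast
  ring

theorem integral_comp {f : V → ℝ} (hf : SP f) :
    ∫ x in cube, f (g.inv x) = ∫ x in cube, f x := by
  have hs := (rap_fr hf).summable
  have h1 : ∀ x, ((f (g.inv x) : ℝ) : ℂ) = S (fr f) (g.inv x) := fun x => (S_fr hf _).symm
  set b : K3 → ℂ := fun k => fr f k * ee k (g.inv 0) with hb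
  have hbs : Summable b := by
    refine Summable.of_norm ?_
    simp only [hb, norm_mul, norm_ee, mul_one]
    exact hs.norm
  have key : HasSum (fun k => b k * ∫ x in cube, ee (fun m => g.sign m * k (g.perm m)) x)
      (∫ x in cube, ((f (g.inv x) : ℝ) : ℂ)) := by
    have hi : ∀ k, Integrable (fun x => b k * ee (fun m => g.sign m * k (g.perm m)) x)
        (volume.restrict cube) := fun k =>
      (integrableOn_cube (ee_continuous _)).const_mul _
    have hs2 : Summable fun k => ∫ x in cube, ‖b k * ee (fun m => g.sign m * k (g.perm m)) x‖ := by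
      have e : ∀ k, ∫ x in cube, ‖b k * ee (fun m => g.sign m * k (g.perm m)) x‖ = ‖b k‖ := by
        intro k
        simp_rw [norm_mul, norm_ee, mul_one]
        simp [Measure.real, volume_cube]
      simp_rw [e]
      exact hbs.norm
    have h := hasSum_integral_of_summable_integral_norm hi hs2
    have e2 : (∫ x in cube, ∑' k, b k * ee (fun m => g.sign m * k (g.perm m)) x)
        = ∫ x in cube, ((f (g.inv x) : ℝ) : ℂ) := by
      congr 1
      funext x
      rw [h1]
      unfold S
      refine tsum_congr fun k => ?_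
      rw [ee_inv, hb]
      ring
    rw [e2] at h
    simpa only [integral_const_mul] using h
  have e3 : ∀ k, b k * ∫ x in cube, ee (fun m => g.sign m * k (g.perm m)) x
      = if k = 0 then fr f 0 else 0 := by
    intro k
    rw [integral_ee]
    by_cases hk : k = 0
    · subst hk
      simp [hb]
      rw [if_pos (by funext m; simp), ee_zero]
      simp
    · rw [if_neg hk, if_neg, mul_zero]
      intro h0
      apply hk
      funext m
      have := congrFun h0 (g.perm.symm m)
      simp only [Equiv.apply_symm_apply, Pi.zero_apply, mul_eq_zero] at this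
      rcases this with h | h
      · rcases g.sign_eq (g.perm.symm m) with h' | h' <;> rw [h'] at h <;> norm_num at h
      · exact h
  simp_rw [e3] at key
  have h4 := key.unique (hasSum_ite_eq 0 (fr f 0))
  have h5 : fr f 0 = ((∫ x in cube, f x : ℝ) : ℂ) := by
    unfold fr fc
    simp_rw [neg_zero, ee_zero, one_mul]
    exact integral_complex_ofReal
  rw [h5, integral_complex_ofReal] at h4
  exact_mod_cast h4

variable {u : V → V}

theorem pd_push (hu : ∀ i, SP (fun y => u y i)) (m i : Fin 3) (x : V) :
    pd m (fun y => -g.push u y i) x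
      = -((g.sign i : ℝ) * g.sign m * pd (g.perm m) (fun y => u y (g.perm i)) (g.inv x)) := by
  have h := g.pd_comp (hu (g.perm i)) m x
  have e : (fun y => -g.push u y i) = fun y => (-(g.sign i : ℝ)) • u (g.inv y) (g.perm i) := by
    funext y
    simp only [push, smul_eq_mul]
    ring
  have hd : HasFDerivAt (fun y => (-(g.sign i : ℝ)) • u (g.inv y) (g.perm i)) _ x :=
    ((g.comp_sp (hu (g.perm i))).diff x).hasFDerivAt.const_smul (-(g.sign i : ℝ))
  have h' : pd m (fun x => (fun y => u y (g.perm i)) (g.inv x)) x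
      = fderiv ℝ (fun x => u (g.inv x) (g.perm i)) x (Pi.single m 1) := rfl
  rw [h'] at h
  rw [e]
  show fderiv ℝ (fun y => (-(g.sign i : ℝ)) • u (g.inv y) (g.perm i)) x (Pi.single m 1) = _
  rw [hd.fderiv, smul_apply, h, smul_eq_mul]
  ring

theorem spv_push (hu : SPV u) : SPV (fun x => -g.push u x) := by
  have h : ∀ i, SP (fun y => -g.push u y i) := by
    intro i
    have h1 := g.comp_sp (hu.sp (g.perm i))
    refine ⟨?_, ?_⟩
    · exact (contDiff_const.mul h1.smooth).neg
    · intro j x
      have := h1.per j x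
      simp only [push, this]
  constructor
  · rw [contDiff_pi]
    exact fun i => (h i).smooth
  · intro j x
    funext i
    exact (h i).per j x

theorem enstrophy_push (hu : SPV u) : enstrophy (fun x => -g.push u x) = enstrophy u := by
  unfold enstrophy
  have e : ∀ i j, ∫ x in cube, pd j (fun y => (-g.push u y) i) x ^ 2
      = ∫ x in cube, pd (g.perm j) (fun y => u y (g.perm i)) x ^ 2 := by
    intro i j
    have h1 : SP (fun x => pd (g.perm j) (fun y => u y (g.perm i)) x
        * pd (g.perm j) (fun y => u y (g.perm i)) x) :=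
      ((hu.sp (g.perm i)).pd _).mul ((hu.sp (g.perm i)).pd _)
    have h2 := g.integral_comp h1
    simp_rw [sq]
    rw [← h2]
    congr 1
    funext x
    have h3 := g.pd_push hu.sp j i x
    have h4 : pd j (fun y => (-g.push u y) i) x = pd j (fun y => -g.push u y i) x := rfl
    rw [h4, h3]
    have s1 := g.sign_mul i
    have s2 := g.sign_mul j
    calc _ = ((g.sign i : ℝ) * g.sign i) * ((g.sign j : ℝ) * g.sign j)
          * (pd (g.perm j) (fun y => u y (g.perm i)) (g.inv x)
            * pd (g.perm j) (fun y => u y (g.perm i)) (g.inv x)) := by ring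
      _ = _ := by rw [s1, s2]; ring
  simp_rw [e]
  rw [← Equiv.sum_comp g.perm (fun i => ∑ j, ∫ x in cube, pd j (fun y => u y i) x ^ 2)]
  refine Finset.sum_congr rfl fun i _ => ?_
  exact Equiv.sum_comp g.perm (fun j => ∫ x in cube, pd j (fun y => u y (g.perm i)) x ^ 2)

theorem lap_push (hu : ∀ i, SP (fun y => u y i)) (i : Fin 3) (x : V) :
    lap (fun y => -g.push u y i) x
      = -((g.sign i : ℝ) * lap (fun y => u y (g.perm i)) (g.inv x)) := by
  unfold lap
  have e : ∀ m, pd m (pd m (fun y => -g.push u y i)) x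
      = -((g.sign i : ℝ) * pd (g.perm m) (pd (g.perm m) (fun y => u y (g.perm i))) (g.inv x)) := by
    intro m
    have h1 : pd m (fun y => -g.push u y i) = fun x => (-((g.sign i : ℝ) * g.sign m))
        • pd (g.perm m) (fun y => u y (g.perm i)) (g.inv x) := by
      funext x
      rw [g.pd_push hu m i x, smul_eq_mul]
      ring
    have hs := (hu (g.perm i)).pd (g.perm m)
    have h2 := g.pd_comp hs m x
    have hd : HasFDerivAt (fun x => (-((g.sign i : ℝ) * g.sign m))
        • pd (g.perm m) (fun y => u y (g.perm i)) (g.inv x)) _ x :=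
      ((g.comp_sp hs).diff x).hasFDerivAt.const_smul (-((g.sign i : ℝ) * g.sign m))
    have h3 : pd m (fun x => pd (g.perm m) (fun y => u y (g.perm i)) (g.inv x)) x
        = fderiv ℝ (fun x => pd (g.perm m) (fun y => u y (g.perm i)) (g.inv x)) x
          (Pi.single m 1) := rfl
    rw [h3] at h2
    rw [h1]
    show fderiv ℝ (fun x => (-((g.sign i : ℝ) * g.sign m))
        • pd (g.perm m) (fun y => u y (g.perm i)) (g.inv x)) x (Pi.single m 1) = _
    rw [hd.fderiv, smul_apply, h2, smul_eq_mul]
    have s3 := g.sign_mul m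
    calc _ = -((g.sign i : ℝ) * ((g.sign m : ℝ) * g.sign m)
          * pd (g.perm m) (pd (g.perm m) (fun y => u y (g.perm i))) (g.inv x)) := by ring
      _ = _ := by rw [s3]; ring
  simp_rw [e]
  rw [Finset.sum_neg_distrib, ← Finset.mul_sum,
    Equiv.sum_comp g.perm (fun m => pd m (pd m (fun y => u y (g.perm i))) (g.inv x))]

theorem palin_push (hu : SPV u) : palin (fun x => -g.push u x) = palin u := by
  unfold palin
  have e : ∀ i, ∫ x in cube, lap (fun y => (-g.push u y) i) x ^ 2
      = ∫ x in cube, lap (fun y => u y (g.perm i)) x ^ 2 := by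
    intro i
    have h1 := (hu.sp (g.perm i)).lap.mul (hu.sp (g.perm i)).lap
    have h2 := g.integral_comp h1
    simp_rw [sq]
    rw [← h2]
    congr 1
    funext x
    have h3 : lap (fun y => (-g.push u y) i) x = _ := g.lap_push hu.sp i x
    rw [h3]
    have s1 := g.sign_mul i
    calc _ = ((g.sign i : ℝ) * g.sign i)
          * (lap (fun y => u y (g.perm i)) (g.inv x)
            * lap (fun y => u y (g.perm i)) (g.inv x)) := by ring
      _ = _ := by rw [s1]; ring
  simp_rw [e]
  exact Equiv.sum_comp g.perm (fun i => ∫ x in cube, lap (fun y => u y i) x ^ 2)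

theorem stretch_push (hu : SPV u) : stretch (fun x => -g.push u x) = -stretch u := by
  unfold stretch
  have e : ∀ i j m, ∫ x in cube, pd m (fun y => (-g.push u y) i) x
      * (pd i (fun y => (-g.push u y) j) x * pd m (fun y => (-g.push u y) j) x)
      = -∫ x in cube, pd (g.perm m) (fun y => u y (g.perm i)) x
      * (pd (g.perm i) (fun y => u y (g.perm j)) x * pd (g.perm m) (fun y => u y (g.perm j)) x) := by
    intro i j m
    have h1 := ((hu.sp (g.perm i)).pd (g.perm m)).mul
      (((hu.sp (g.perm j)).pd (g.perm i)).mul ((hu.sp (g.perm j)).pd (g.perm m)))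
    have h2 := g.integral_comp h1
    rw [← h2, ← integral_neg]
    congr 1
    funext x
    have h3 : pd m (fun y => (-g.push u y) i) x = _ := g.pd_push hu.sp m i x
    have h4 : pd i (fun y => (-g.push u y) j) x = _ := g.pd_push hu.sp i j x
    have h5 : pd m (fun y => (-g.push u y) j) x = _ := g.pd_push hu.sp m j x
    rw [h3, h4, h5]
    have s1 := g.sign_mul i
    have s2 := g.sign_mul j
    have s3 := g.sign_mul m
    calc _ = -(((g.sign i : ℝ) * g.sign i) * ((g.sign j : ℝ) * g.sign j)
          * ((g.sign m : ℝ) * g.sign m)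
          * (pd (g.perm m) (fun y => u y (g.perm i)) (g.inv x)
            * (pd (g.perm i) (fun y => u y (g.perm j)) (g.inv x)
              * pd (g.perm m) (fun y => u y (g.perm j)) (g.inv x)))) := by ring
      _ = _ := by rw [s1, s2, s3]; ring
  simp_rw [e]
  simp only [Finset.sum_neg_distrib]
  congr 2
  rw [← Equiv.sum_comp g.perm (fun i => ∑ j, ∑ m, ∫ x in cube, pd m (fun y => u y i) x *
    (pd i (fun y => u y j) x * pd m (fun y => u y j) x))]
  refine Finset.sum_congr rfl fun i _ => ?_
  rw [← Equiv.sum_comp g.perm (fun j => ∑ m, ∫ x in cube, pd m (fun y => u y (g.perm i)) x *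
    (pd (g.perm i) (fun y => u y j) x * pd m (fun y => u y j) x))]
  refine Finset.sum_congr rfl fun j _ => ?_
  exact Equiv.sum_comp g.perm (fun m => ∫ x in cube, pd m (fun y => u y (g.perm i)) x *
    (pd (g.perm i) (fun y => u y (g.perm j)) x * pd m (fun y => u y (g.perm j)) x))

end Iso

/-- A divergence-free field whose frequencies contain no non-collinear triad has no enstrophy
production. -/
theorem stretch_triadfree {v : V → V} (hv : SPV v) (hdiv : ∀ x, ∑ i, pd i (fun y => v y i) x = 0)
    {X : Set K3} (hX : MeetsTriads X) (h : ∀ i, ∀ k ∈ X, fr (fun y => v y i) k = 0) :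
    stretch v = 0 := by
  have h1 := T3_fr (v := fun i y => v y i) hv.sp
  have h2 := T3_eq (U := fun i => fr (fun y => v y i)) fun i => rap_fr (hv.sp i)
  have h3 : ∀ p : K3 × K3, tt (fun i => fr (fun y => v y i)) p = 0 := by
    rintro ⟨a, b⟩
    by_cases hc : crossProduct a b = 0
    · exact tt_collinear (fr_div (v := fun i y => v y i) hv.sp hdiv) hc
    · have z : ∀ (m i : Fin 3) (k : K3), k ∈ X → D m (fr (fun y => v y i)) k = 0 := by
        intro m i k hk
        rw [D, h i k hk, mul_zero]
      unfold tt
      refine Finset.sum_eq_zero fun i _ => Finset.sum_eq_zero fun j _ =>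
        Finset.sum_eq_zero fun m _ => ?_
      rcases hX.hit a b hc with h | h | h
      · rw [z m i _ h]; ring
      · rw [z i j _ h]; ring
      · rw [z m j _ h]; ring
  have h4 : T3 (fun i => fr (fun y => v y i)) = 0 := by
    rw [← h2.tsum_eq]
    simp_rw [h3]
    exact tsum_zero
  rw [h4] at h1
  have h5 : cub (fun i y => v y i) = 0 := by exact_mod_cast h1.symm
  show -cub (fun i y => v y i) = 0
  rw [h5, neg_zero]

/-- A divergence-free eigenfield of the Laplacian has no enstrophy production. -/
theorem stretch_eigen {v : V → V} (hv : SPV v) (hdiv : ∀ x, ∑ i, pd i (fun y => v y i) x = 0)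
    {μ : ℝ} (h : ∀ i x, lap (fun y => v y i) x = μ * v x i) : stretch v = 0 := by
  have h1 := int_lap_conv (v := fun i y => v y i) hv.sp hdiv
  have h2 := int_conv (v := fun i y => v y i) hv.sp hdiv
  have h3 : ∑ i, ∫ x in cube, lap (fun y => v y i) x * conv (fun i y => v y i) i x
      = μ * ∑ i, ∫ x in cube, v x i * conv (fun i y => v y i) i x := by
    rw [Finset.mul_sum]
    refine Finset.sum_congr rfl fun i _ => ?_
    rw [← integral_const_mul]
    congr 1
    funext x
    rw [h i x]
    ring
  rw [h3, h2, mul_zero] at h1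
  show -cub (fun i y => v y i) = 0
  exact h1.symm

theorem SPV.zero : SPV (fun _ => 0) := ⟨contDiff_const, fun _ _ => rfl⟩

theorem enstrophy_zero : enstrophy (fun _ => 0) = 0 := by
  unfold enstrophy pd
  simp

theorem fr_zero (k : K3) : fr (fun _ => (0 : ℝ)) k = 0 := by
  simp [fr, fc]

/-- The Serrin criterion for the part of the velocity which is symmetric under an isometry of the
torus, where the isometry may depend on the time in an arbitrary way. -/
theorem serrin_iso {p : ℝ≥0∞} (hp : 3 < p) {q : ℝ} (hpq : 3 * (p⁻¹).toReal + 2 / q = 1)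
    {ν T : ℝ} (hν : 0 < ν) {u : ℝ → V → V} {P : ℝ → V → ℝ} (h : IsSol ν T u P)
    {β : ℝ → ℝ} (hβ0 : ∀ t ∈ Ioo 0 T, 0 ≤ β t) (hβ : IntegrableOn (fun t => β t ^ q) (Ioo 0 T))
    (hu : ∀ t ∈ Ioo 0 T, ∃ g : Iso, ∀ i,
      eLpNorm (fun x => u t x i + g.push (u t) x i) p (volume.restrict cube)
        ≤ ENNReal.ofReal (β t)) :
    ∃ M, ∀ t ∈ Ico 0 T, ∀ x i, |u t x i| ≤ M := by
  obtain ⟨C, -, hC⟩ := serrin hp hpq hν (K := 1) zero_le_one (lam := -1) (κ := 0) le_rfl
    (by norm_num)
  refine (hC T 0 u P β (fun _ => 0) h le_rfl (fun t ht => ⟨hβ0 t ht, le_rfl⟩) hβ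
    (integrableOn_zero) fun t ht => ?_).2
  obtain ⟨g, hg⟩ := hu t ht
  have hI : t ∈ Ico 0 T := ⟨ht.1.le, ht.2⟩
  have hs : SPV (u t) := ⟨contDiff_pi.2 fun i => (h.sp hI i).smooth, h.per_u t hI⟩
  refine ⟨fun x => -g.push (u t) x, fun _ => 0, ∅, g.spv_push hs, SPV.zero, dimTwo_empty,
    fun i k _ => fr_zero k, ?_, ?_, ?_, ?_, fun i => ?_⟩
  · rw [g.enstrophy_push hs]; linarith
  · rw [g.palin_push hs]; linarith
  · rw [enstrophy_zero, one_pow, one_mul]
    exact enstrophy_nonneg _
  · rw [g.stretch_push hs]; linarith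
  · have e : (fun x => u t x i - (-g.push (u t) x) i - (0 : V) i)
        = fun x => u t x i + g.push (u t) x i := by
      funext x
      simp only [Pi.neg_apply, Pi.zero_apply]
      ring
    show eLpNorm (fun x => u t x i - (-g.push (u t) x) i - (0 : V) i) p _ ≤ _
    rw [e]
    exact hg i

end H459R3.NS
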