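import Pool.Agent.H459R3.NS.Sol

/-!
The enstrophy bound.
-/

open MeasureTheory Set Filter Topology
open scoped ContDiff

namespace H459R3.NS

section fixed

variable {v : Fin 3 → V → ℝ} (hv : ∀ i, SP (v i)) (hdiv : ∀ x, ∑ i, pd i (v i) x = 0)

include hv in
theorem T3_fr : T3 (fun i => fr (v i)) = ((cub v : ℝ) : ℂ) := by
  unfold T3 cub
  push_cast
  refine Finset.sum_congr rfl fun i _ => Finset.sum_congr rfl fun j _ =>
    Finset.sum_congr rfl fun m _ => ?_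
  rw [← fr_pd (hv i), ← fr_pd (hv j), ← fr_pd (hv j), tri_fr ((hv i).pd m) ((hv j).pd i)
    ((hv j).pd m)]

theorem fr_sum {ι : Type*} {s : Finset ι} {f : ι → V → ℝ} (hf : ∀ i ∈ s, SP (f i)) (k : K3) :
    fr (fun x => ∑ i ∈ s, f i x) k = ∑ i ∈ s, fr (f i) k := by
  unfold fr fc
  have hint : ∀ i ∈ s, IntegrableOn (fun x => ee (-k) x * (f i x : ℂ)) cube := fun i hi =>
    integrableOn_cube ((ee_continuous _).mul (contDiff_ofReal (hf i hi).smooth).continuous)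
  have h := integral_finsetSum s hint
  rw [← h]
  congr 1
  funext x
  push_cast
  rw [Finset.mul_sum]

include hv hdiv in
theorem fr_div (k : K3) : ∑ i, (k i : ℂ) * fr (v i) k = 0 := by
  have h1 : fr (fun x => ∑ i, pd i (v i) x) k = 0 := by
    have : (fun x => ∑ i, pd i (v i) x) = fun _ => (0 : ℝ) := funext hdiv
    rw [this]
    simp [fr, fc]
  rw [fr_sum (fun i _ => (hv i).pd i)] at h1
  simp_rw [fr_pd (hv _), D] at h1
  have h2 : (2 * Real.pi * Complex.I) * ∑ i, (k i : ℂ) * fr (v i) k = 0 := by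
    rw [← h1, Finset.mul_sum]
    exact Finset.sum_congr rfl fun i _ => by ring
  have h3 : (2 * (Real.pi : ℂ) * Complex.I) ≠ 0 := by
    have : (Real.pi : ℂ) ≠ 0 := by exact_mod_cast Real.pi_ne_zero
    simp [this, Complex.I_ne_zero]
  exact (mul_eq_zero.1 h2).resolve_left h3

include hv in
theorem sum_grad : ∑ i, ∑ m, n2 (D m (fr (v i))) ^ 2
    = ∑ i, ∑ j, ∫ x in cube, pd j (v i) x ^ 2 := by
  refine Finset.sum_congr rfl fun i _ => Finset.sum_congr rfl fun j _ => ?_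
  rw [← fr_pd (hv i), n2_fr ((hv i).pd j)]

include hv in
theorem sum_hess : ∑ i, ∑ m, ∑ l, n2 (D l (D m (fr (v i)))) ^ 2
    = ∑ i, ∫ x in cube, lap (v i) x ^ 2 := by
  refine Finset.sum_congr rfl fun i _ => ?_
  rw [← n2_fr (hv i).lap]
  have hr := rap_fr (hv i)
  have hs : ∀ m l, Summable fun k => ‖D l (D m (fr (v i))) k‖ ^ 2 := fun m l =>
    summable_sq ((hr.D m).D l).summable
  simp_rw [n2_sq]
  have e1 : ∀ m, ∑ l, ∑' k, ‖D l (D m (fr (v i))) k‖ ^ 2
      = ∑' k, ∑ l, ‖D l (D m (fr (v i))) k‖ ^ 2 := fun m =>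
    (Summable.tsum_finsetSum fun l _ => hs m l).symm
  simp_rw [e1]
  rw [← Summable.tsum_finsetSum fun m _ => summable_sum fun l _ => hs m l]
  refine tsum_congr fun k => ?_
  have e2 : fr (lap (v i)) k = ∑ j, D j (D j (fr (v i))) k := by
    unfold lap
    rw [fr_sum fun j _ => ((hv i).pd j).pd j]
    refine Finset.sum_congr rfl fun j _ => ?_
    rw [fr_pd ((hv i).pd j), fr_pd (hv i)]
  rw [e2]
  have e3 : ∑ j, D j (D j (fr (v i))) k
      = -(((2 * Real.pi) ^ 2 * ∑ j, (k j : ℝ) ^ 2 : ℝ) : ℂ) * fr (v i) k := by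
    unfold D
    push_cast
    rw [Finset.mul_sum, ← Finset.sum_neg_distrib, Finset.sum_mul]
    refine Finset.sum_congr rfl fun j _ => ?_
    have := Complex.I_sq
    linear_combination ((2 * Real.pi : ℂ) ^ 2 * (k j : ℂ) ^ 2 * fr (v i) k) * this
  have e4 : ∀ m l, ‖D l (D m (fr (v i))) k‖ ^ 2
      = (2 * Real.pi) ^ 4 * ((k l : ℝ) ^ 2 * (k m : ℝ) ^ 2) * ‖fr (v i) k‖ ^ 2 := by
    intro m l
    have hn : ∀ j : Fin 3, ‖(2 * Real.pi * Complex.I * (k j : ℂ))‖ ^ 2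
        = (2 * Real.pi) ^ 2 * (k j : ℝ) ^ 2 := by
      intro j
      rw [norm_mul, norm_mul, norm_mul, Complex.norm_I, mul_one, Complex.norm_real,
        Real.norm_eq_abs, abs_of_pos Real.pi_pos, Complex.norm_ofNat, Complex.norm_intCast,
        mul_pow, sq_abs]
    have hD : ∀ (j : Fin 3) (a : K3 → ℂ), ‖D j a k‖ ^ 2
        = (2 * Real.pi) ^ 2 * (k j : ℝ) ^ 2 * ‖a k‖ ^ 2 := by
      intro j a
      rw [D, norm_mul, mul_pow, hn]
    rw [hD, hD]
    ring
  simp_rw [e4]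
  rw [e3, norm_mul, norm_neg, Complex.norm_real, Real.norm_eq_abs]
  rw [show (|(2 * Real.pi) ^ 2 * ∑ j, (k j : ℝ) ^ 2| * ‖fr (v i) k‖) ^ 2
    = ((2 * Real.pi) ^ 2 * ∑ j, (k j : ℝ) ^ 2) ^ 2 * ‖fr (v i) k‖ ^ 2 by
      rw [mul_pow, sq_abs]]
  have e5 : (∑ j, (k j : ℝ) ^ 2) ^ 2 = ∑ m, ∑ l, (k l : ℝ) ^ 2 * (k m : ℝ) ^ 2 := by
    rw [sq, Finset.sum_mul_sum]
    rw [Finset.sum_comm]
  rw [mul_pow ((2 * Real.pi) ^ 2), e5]
  have e6 : ∑ m, ∑ l, (2 * Real.pi) ^ 4 * ((k l : ℝ) ^ 2 * (k m : ℝ) ^ 2) * ‖fr (v i) k‖ ^ 2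
      = (2 * Real.pi) ^ 4 * (∑ m, ∑ l, (k l : ℝ) ^ 2 * (k m : ℝ) ^ 2) * ‖fr (v i) k‖ ^ 2 := by
    simp_rw [Finset.mul_sum, Finset.sum_mul]
  rw [e6]
  ring

include hv hdiv in
theorem abs_cub_le {A β G H : ℝ} {Q R : Set K3} (hQ : DimTwo A Q)
    (hit : ∀ p q : K3, crossProduct p q ≠ 0 → p ∈ Q ∪ R ∨ q ∈ Q ∪ R ∨ -p - q ∈ Q ∪ R)
    (hβ : ∀ i x, ‖S (R.indicator (fr (v i))) x‖ ≤ β) (hG0 : 0 ≤ G) (hH0 : 0 ≤ H)
    (hG : ∑ i, ∑ j, ∫ x in cube, pd j (v i) x ^ 2 = G ^ 2)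
    (hH : ∑ i, ∫ x in cube, lap (v i) x ^ 2 = H ^ 2) :
    |cub v| ≤ 162 * (β * (G * H)) + Real.sqrt (2 * A) * (G ^ 2 * H) := by
  set U : Fin 3 → K3 → ℂ := fun i => fr (v i) with hU
  have hrap : ∀ i, Rap (U i) := fun i => rap_fr (hv i)
  have hG' : ∑ i, ∑ m, n2 (D m (U i)) ^ 2 = G ^ 2 := (sum_grad hv).trans hG
  have hH' : ∑ i, ∑ m, ∑ l, n2 (D l (D m (U i))) ^ 2 = H ^ 2 := (sum_hess hv).trans hH
  have g1 : ∀ i j, n2 (D i (U j)) ≤ G := by
    intro i j
    have h1 : n2 (D i (U j)) ^ 2 ≤ G ^ 2 := by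
      rw [← hG']
      have a1 : n2 (D i (U j)) ^ 2 ≤ ∑ m, n2 (D m (U j)) ^ 2 :=
        Finset.single_le_sum (f := fun m => n2 (D m (U j)) ^ 2) (fun _ _ => sq_nonneg _)
          (Finset.mem_univ i)
      exact a1.trans (Finset.single_le_sum (f := fun j => ∑ m, n2 (D m (U j)) ^ 2)
        (fun _ _ => Finset.sum_nonneg fun _ _ => sq_nonneg _) (Finset.mem_univ j))
    exact (pow_le_pow_iff_left₀ (n2_nonneg _) hG0 (by norm_num)).1 h1
  have h1 : ∀ i j m, n2 (D m (D i (U j))) ≤ H := by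
    intro i j m
    have h1 : n2 (D m (D i (U j))) ^ 2 ≤ H ^ 2 := by
      rw [← hH']
      have a1 : n2 (D m (D i (U j))) ^ 2 ≤ ∑ l, n2 (D l (D i (U j))) ^ 2 :=
        Finset.single_le_sum (f := fun l => n2 (D l (D i (U j))) ^ 2) (fun _ _ => sq_nonneg _)
          (Finset.mem_univ m)
      have a2 : ∑ l, n2 (D l (D i (U j))) ^ 2 ≤ ∑ m, ∑ l, n2 (D l (D m (U j))) ^ 2 :=
        Finset.single_le_sum (f := fun m => ∑ l, n2 (D l (D m (U j))) ^ 2)
          (fun _ _ => Finset.sum_nonneg fun _ _ => sq_nonneg _) (Finset.mem_univ i)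
      exact a1.trans (a2.trans (Finset.single_le_sum
        (f := fun j => ∑ m, ∑ l, n2 (D l (D m (U j))) ^ 2)
        (fun _ _ => Finset.sum_nonneg fun _ _ => Finset.sum_nonneg fun _ _ => sq_nonneg _)
        (Finset.mem_univ j)))
    exact (pow_le_pow_iff_left₀ (n2_nonneg _) hH0 (by norm_num)).1 h1
  have b1 := norm_T3_sub_le hrap R hβ g1 h1
  -- the remaining part
  set U' : Fin 3 → K3 → ℂ := fun i => Rᶜ.indicator (U i) with hU'
  have hrap' : ∀ i, Rap (U' i) := fun i => (hrap i).ind _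
  have hdiv' : ∀ k, ∑ i, (k i : ℂ) * U' i k = 0 := by
    intro k
    by_cases hk : k ∈ Rᶜ
    · simp only [hU', indicator_of_mem hk]
      exact fr_div hv hdiv k
    · simp only [hU', indicator_of_notMem hk, mul_zero, Finset.sum_const_zero]
  have hzero : ∀ (i m : Fin 3) (k : K3), k ∈ R → D m (U' i) k = 0 := by
    intro i m k hk
    have : k ∉ Rᶜ := fun h => h hk
    simp only [hU', D, indicator_of_notMem this, mul_zero]
  have hhit : ∀ p q : K3, crossProduct p q ≠ 0 → tt U' (p, q) ≠ 0 →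
      p ∈ Q ∨ q ∈ Q ∨ -p - q ∈ Q := by
    intro p q hpq ht
    have z : ∀ k : K3, k ∈ R → (k = p ∨ k = q ∨ k = -p - q) → False := by
      intro k hk hh
      apply ht
      unfold tt
      refine Finset.sum_eq_zero fun i _ => Finset.sum_eq_zero fun j _ =>
        Finset.sum_eq_zero fun m _ => ?_
      rcases hh with rfl | rfl | rfl
      · rw [hzero i m _ hk]; ring
      · rw [hzero j i _ hk]; ring
      · rw [hzero j m _ hk]; ring
    rcases hit p q hpq with h | h | h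
    · rcases h with h | h
      · exact Or.inl h
      · exact absurd (z p h (Or.inl rfl)) not_false
    · rcases h with h | h
      · exact Or.inr (Or.inl h)
      · exact absurd (z q h (Or.inr (Or.inl rfl))) not_false
    · rcases h with h | h
      · exact Or.inr (Or.inr h)
      · exact absurd (z _ h (Or.inr (Or.inr rfl))) not_false
  have hG2 : ∑ i, ∑ m, n2 (D m (U' i)) ^ 2 ≤ G ^ 2 := by
    rw [← hG']
    refine Finset.sum_le_sum fun i _ => Finset.sum_le_sum fun m _ => ?_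
    have : n2 (D m (U' i)) ≤ n2 (D m (U i)) := by
      simp only [hU', D_ind]
      exact n2_ind_le ((hrap i).D m) _
    exact pow_le_pow_left₀ (n2_nonneg _) this 2
  have hH2 : ∑ i, ∑ m, ∑ l, n2 (D l (D m (U' i))) ^ 2 ≤ H ^ 2 := by
    rw [← hH']
    refine Finset.sum_le_sum fun i _ => Finset.sum_le_sum fun m _ =>
      Finset.sum_le_sum fun l _ => ?_
    have : n2 (D l (D m (U' i))) ≤ n2 (D l (D m (U i))) := by
      simp only [hU', D_ind]
      exact n2_ind_le (((hrap i).D m).D l) _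
    exact pow_le_pow_left₀ (n2_nonneg _) this 2
  have b2 := norm_T3_le hrap' hdiv' hQ hhit hG0 hH0 hG2 hH2
  have b3 : ‖T3 U‖ = |cub v| := by
    rw [hU, T3_fr hv, Complex.norm_real, Real.norm_eq_abs]
  rw [← b3]
  calc ‖T3 U‖ = ‖(T3 U - T3 U') + T3 U'‖ := by rw [sub_add_cancel]
    _ ≤ ‖T3 U - T3 U'‖ + ‖T3 U'‖ := norm_add_le _ _
    _ ≤ _ := add_le_add b1 b2

end fixed

section evolution

variable {ν T : ℝ} {u : ℝ → V → V} {p : ℝ → V → ℝ}

theorem energy_nonneg (v : V → V) : 0 ≤ energy v :=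
  Finset.sum_nonneg fun _ _ => integral_nonneg fun _ => sq_nonneg _

theorem enstrophy_nonneg (v : V → V) : 0 ≤ enstrophy v :=
  Finset.sum_nonneg fun _ _ => Finset.sum_nonneg fun _ _ => integral_nonneg fun _ => sq_nonneg _

theorem palin_nonneg (v : V → V) : 0 ≤ palin v :=
  Finset.sum_nonneg fun _ _ => integral_nonneg fun _ => sq_nonneg _

theorem IsSol.int_enstrophy (h : IsSol ν T u p) (hν : 0 < ν) {t : ℝ} (ht : t ∈ Ico 0 T) :
    ∫ s in (0 : ℝ)..t, enstrophy (u s) ≤ energy (u 0) / (2 * ν) := by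
  have hc : ContinuousOn (fun s => enstrophy (u s)) (Icc 0 t) :=
    h.enstrophy_continuousOn.mono fun s hs => ⟨hs.1, hs.2.trans_lt ht.2⟩
  have hE : ContinuousOn (fun s => energy (u s)) (Icc 0 t) :=
    h.energy_continuousOn.mono fun s hs => ⟨hs.1, hs.2.trans_lt ht.2⟩
  have h1 := intervalIntegral.integral_eq_sub_of_hasDerivAt_of_le ht.1 hE
    (fun s hs => h.energy_hasDerivAt ⟨hs.1, hs.2.trans ht.2⟩)
    ((hc.const_smul (2 * ν)).neg.intervalIntegrable_of_Icc ht.1)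
  rw [intervalIntegral.integral_neg, intervalIntegral.integral_const_mul] at h1
  have h2 := energy_nonneg (u t)
  rw [le_div_iff₀ (by positivity)]
  linarith

theorem IsSol.bound (h : IsSol ν T u p) (hν : 0 < ν) {A : ℝ} {Q R : ℝ → Set K3}
    (hQ : ∀ t ∈ Ioo 0 T, DimTwo A (Q t))
    (hit : ∀ t ∈ Ioo 0 T, ∀ a b : K3, crossProduct a b ≠ 0 →
      a ∈ Q t ∪ R t ∨ b ∈ Q t ∪ R t ∨ -a - b ∈ Q t ∪ R t) {β : ℝ → ℝ}
    (hβi : IntegrableOn (fun t => β t ^ 2) (Ioo 0 T))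
    (hβ : ∀ t ∈ Ioo 0 T, ∀ i x, ‖S ((R t).indicator (fr fun y => u t y i)) x‖ ≤ β t)
    {t : ℝ} (ht : t ∈ Ico 0 T) :
    enstrophy (u t) ≤ enstrophy (u 0)
      * Real.exp (26244 / ν * (∫ s in Ioo 0 T, β s ^ 2) + A / ν ^ 2 * energy (u 0)) := by
  have hT : 0 < T := ht.1.trans_lt ht.2
  have hA : 0 ≤ A := (hQ (T / 2) ⟨by linarith, by linarith⟩).nonneg
  set y : ℝ → ℝ := fun s => enstrophy (u s) with hy
  have hy0 : ∀ s, 0 ≤ y s := fun s => enstrophy_nonneg _
  set g : ℝ → ℝ := fun s => 26244 / ν * β s ^ 2 + 2 * A / ν * y s with hg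
  -- the differential inequality
  have hdiff : ∀ s ∈ Ioo 0 T,
      -(2 * ν * palin (u s)) - 2 * cub (fun i y => u s y i) ≤ g s * y s := by
    intro s hs
    have hI : s ∈ Ico 0 T := ⟨hs.1.le, hs.2⟩
    set G := Real.sqrt (y s) with hG
    set H := Real.sqrt (palin (u s)) with hH
    have hG2 : G ^ 2 = y s := Real.sq_sqrt (hy0 s)
    have hH2 : H ^ 2 = palin (u s) := Real.sq_sqrt (palin_nonneg _)
    have hG0 : 0 ≤ G := Real.sqrt_nonneg _
    have hH0 : 0 ≤ H := Real.sqrt_nonneg _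
    have h1 := abs_cub_le (v := fun i y => u s y i) (fun i => h.sp hI i) (h.divfree s hI)
      (hQ s hs) (hit s hs) (hβ s hs) hG0 hH0 hG2.symm hH2.symm
    have h2 := (abs_le.1 h1).1
    set q := Real.sqrt (2 * A) with hq
    have hq2 : q ^ 2 = 2 * A := Real.sq_sqrt (by positivity)
    have h3 : 2 * (162 * (β s * (G * H))) ≤ ν * H ^ 2 + 26244 / ν * β s ^ 2 * G ^ 2 := by
      have : 0 ≤ (ν * H - 162 * β s * G) ^ 2 / ν := by positivity
      have e : (ν * H - 162 * β s * G) ^ 2 / ν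
          = ν * H ^ 2 + 26244 / ν * β s ^ 2 * G ^ 2 - 2 * (162 * (β s * (G * H))) := by
        field_simp
        ring
      linarith
    have h4 : 2 * (q * (G ^ 2 * H)) ≤ ν * H ^ 2 + 2 * A / ν * G ^ 2 * G ^ 2 := by
      have : 0 ≤ (ν * H - q * G ^ 2) ^ 2 / ν := by positivity
      have e : (ν * H - q * G ^ 2) ^ 2 / ν
          = ν * H ^ 2 + 2 * A / ν * G ^ 2 * G ^ 2 - 2 * (q * (G ^ 2 * H)) := by
        rw [← hq2]
        field_simp
        ring
      linarith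
    rw [← hH2, hg]
    simp only
    rw [← hG2]
    nlinarith
  -- integrability
  have hyc : ContinuousOn y (Icc 0 t) :=
    h.enstrophy_continuousOn.mono fun s hs => ⟨hs.1, hs.2.trans_lt ht.2⟩
  have hβ1 : IntegrableOn (fun s => β s ^ 2) (Icc 0 t) := by
    rw [integrableOn_Icc_iff_integrableOn_Ioc, integrableOn_Ioc_iff_integrableOn_Ioo]
    exact hβi.mono_set (Ioo_subset_Ioo_right ht.2.le)
  have hy1 : IntegrableOn y (Icc 0 t) := hyc.integrableOn_Icc
  have hg1 : IntegrableOn g (Icc 0 t) := (hβ1.const_mul _).add (hy1.const_mul _)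
  have hgint : ∫ s in (0 : ℝ)..t, g s ≤ 26244 / ν * (∫ s in Ioo 0 T, β s ^ 2)
      + A / ν ^ 2 * energy (u 0) := by
    rw [hg]
    have i1 : IntervalIntegrable (fun s => 26244 / ν * β s ^ 2) volume 0 t :=
      ((intervalIntegrable_iff_integrableOn_Icc_of_le ht.1).2 hβ1).const_mul _
    have i2 : IntervalIntegrable (fun s => 2 * A / ν * y s) volume 0 t :=
      ((intervalIntegrable_iff_integrableOn_Icc_of_le ht.1).2 hy1).const_mul _
    rw [intervalIntegral.integral_add i1 i2, intervalIntegral.integral_const_mul,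
      intervalIntegral.integral_const_mul]
    have a1 : ∫ s in (0 : ℝ)..t, β s ^ 2 ≤ ∫ s in Ioo 0 T, β s ^ 2 := by
      rw [intervalIntegral.integral_of_le ht.1, integral_Ioc_eq_integral_Ioo]
      exact setIntegral_mono_set hβi (Eventually.of_forall fun s => sq_nonneg _)
        (Ioo_subset_Ioo_right ht.2.le).eventuallyLE
    have a2 := h.int_enstrophy hν ht
    have a3 : 2 * A / ν * ∫ s in (0 : ℝ)..t, y s ≤ 2 * A / ν * (energy (u 0) / (2 * ν)) := by
      gcongr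
    have a4 : 2 * A / ν * (energy (u 0) / (2 * ν)) = A / ν ^ 2 * energy (u 0) := by
      field_simp
    have a5 : 26244 / ν * ∫ s in (0 : ℝ)..t, β s ^ 2
        ≤ 26244 / ν * ∫ s in Ioo 0 T, β s ^ 2 := by gcongr
    linarith
  set B := 26244 / ν * (∫ s in Ioo 0 T, β s ^ 2) + A / ν ^ 2 * energy (u 0) with hB
  have hlog : ∀ ε : ℝ, 0 < ε → y t + ε ≤ (y 0 + ε) * Real.exp B := by
    intro ε hε
    have hpos : ∀ s, 0 < y s + ε := fun s => by linarith [hy0 s]
    have hc : ContinuousOn (fun s => Real.log (y s + ε)) (Icc 0 t) :=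
      (hyc.add continuousOn_const).log fun s _ => (hpos s).ne'
    have hd : ∀ s ∈ Ioo 0 t, HasDerivWithinAt (fun s => Real.log (y s + ε))
        ((-(2 * ν * palin (u s)) - 2 * cub (fun i y => u s y i)) / (y s + ε)) (Ioi s) s := by
      intro s hs
      exact (((h.enstrophy_hasDerivAt ⟨hs.1, hs.2.trans ht.2⟩).add_const ε).log
        (hpos s).ne').hasDerivWithinAt
    have hle : ∀ s ∈ Ioo 0 t,
        (-(2 * ν * palin (u s)) - 2 * cub (fun i y => u s y i)) / (y s + ε) ≤ g s := by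
      intro s hs
      rw [div_le_iff₀ (hpos s)]
      refine (hdiff s ⟨hs.1, hs.2.trans ht.2⟩).trans ?_
      have hgs : 0 ≤ g s := by
        have := hy0 s
        rw [hg]
        positivity
      exact mul_le_mul_of_nonneg_left (by linarith) hgs
    have h1 := intervalIntegral.sub_le_integral_of_hasDeriv_right_of_le ht.1 hc hd hg1 hle
    have h2 : Real.log (y t + ε) ≤ Real.log (y 0 + ε) + B := by linarith
    calc y t + ε = Real.exp (Real.log (y t + ε)) := (Real.exp_log (hpos t)).symm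
      _ ≤ Real.exp (Real.log (y 0 + ε) + B) := Real.exp_le_exp.2 h2
      _ = (y 0 + ε) * Real.exp B := by rw [Real.exp_add, Real.exp_log (hpos 0)]
  -- let `ε → 0`
  have hlim1 : Tendsto (fun ε : ℝ => y t + ε) (𝓝[>] 0) (𝓝 (y t + 0)) :=
    (tendsto_const_nhds.add tendsto_id).mono_left nhdsWithin_le_nhds
  have hlim2 : Tendsto (fun ε : ℝ => (y 0 + ε) * Real.exp B) (𝓝[>] 0)
      (𝓝 ((y 0 + 0) * Real.exp B)) :=
    ((tendsto_const_nhds.add tendsto_id).mul_const _).mono_left nhdsWithin_le_nhds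
  have := le_of_tendsto_of_tendsto hlim1 hlim2 (by
    filter_upwards [self_mem_nhdsWithin] with ε hε
    exact hlog ε hε)
  simpa using this

end evolution

end H459R3.NS
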