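import Pool.Agent.H459R3.NS.Gron

/-!
Comparison with a field with smaller enstrophy production, modulo a multiplier.
-/

open MeasureTheory Set Filter Topology
open scoped ContDiff

namespace H459R3.NS

/-- `L²` norm of the gradient -/
noncomputable def grd (g : V → ℝ) : ℝ := Real.sqrt (∑ j, ∫ x in cube, pd j g x ^ 2)

theorem grd_nonneg (g : V → ℝ) : 0 ≤ grd g := Real.sqrt_nonneg _

theorem grd_sq (g : V → ℝ) : grd g ^ 2 = ∑ j, ∫ x in cube, pd j g x ^ 2 :=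
  Real.sq_sqrt (Finset.sum_nonneg fun _ _ => integral_nonneg fun _ => sq_nonneg _)

/-- `s` is a multiplier of order `θ` with constant `β`. -/
def Mul (θ β : ℝ) (s : V → ℝ) : Prop :=
  ∀ f g : V → ℝ, SP f → SP g → ∫ x in cube, g x = 0 →
    |∫ x in cube, s x * (f x * g x)| ≤ β * (nrm f * (nrm g ^ (1 - θ) * grd g ^ θ))

theorem int_pd_zero {f : V → ℝ} (hf : SP f) (j : Fin 3) : ∫ x in cube, pd j f x = 0 :=
  integral_pd (hf.smooth.of_le (by norm_cast)) hf.per j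

theorem abs_int_pd_mul_le {s f g : V → ℝ} {θ β : ℝ} (hs : SP s) (hf : SP f) (hg : SP g)
    (hf0 : ∫ x in cube, f x = 0) (hg0 : ∫ x in cube, g x = 0) (hM : Mul θ β s) (m : Fin 3) :
    |∫ x in cube, pd m s x * (f x * g x)|
      ≤ β * (nrm (pd m f) * (nrm g ^ (1 - θ) * grd g ^ θ))
        + β * (nrm (pd m g) * (nrm f ^ (1 - θ) * grd f ^ θ)) := by
  have e : ∫ x in cube, pd m s x * (f x * g x)
      = -((∫ x in cube, s x * (pd m f x * g x)) + ∫ x in cube, s x * (pd m g x * f x)) := by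
    rw [ibp hs (hf.mul hg) m, ← integral_add (hs.mul ((hf.pd m).mul hg)).int
      (hs.mul ((hg.pd m).mul hf)).int]
    congr 2
    funext x
    rw [pd_mul hf hg]
    ring
  rw [e, abs_neg]
  exact (abs_add_le _ _).trans (add_le_add (hM _ _ (hf.pd m) hg hg0) (hM _ _ (hg.pd m) hf hf0))

theorem nrm_lap_le {a : Fin 3 → V → ℝ} {G H : ℝ} (h : GH2 a G H) (i : Fin 3) :
    nrm (lap (a i)) ≤ H := by
  have h1 : nrm (lap (a i)) ^ 2 ≤ H ^ 2 := by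
    rw [nrm_sq]
    refine le_trans ?_ h.h
    exact Finset.single_le_sum (f := fun i => ∫ x in cube, lap (a i) x ^ 2)
      (fun _ _ => integral_nonneg fun _ => sq_nonneg _) (Finset.mem_univ i)
  exact (pow_le_pow_iff_left₀ (nrm_nonneg _) h.h0 (by norm_num)).1 h1

theorem grd_pd_le_lap {f : V → ℝ} (hf : SP f) (j : Fin 3) : grd (pd j f) ≤ nrm (lap f) := by
  have h1 : grd (pd j f) ^ 2 ≤ nrm (lap f) ^ 2 := by
    have h2 := sum_hess (v := fun _ => f) (fun _ => hf)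
    simp only [Finset.sum_const, Finset.card_univ, Fintype.card_fin, nsmul_eq_mul] at h2
    have h3 : ∑ m, ∑ l, n2 (D l (D m (fr f))) ^ 2 = ∫ x in cube, lap f x ^ 2 := by
      push_cast at h2
      linarith
    rw [grd_sq, nrm_sq, ← h3]
    have e : ∀ l, ∫ x in cube, pd l (pd j f) x ^ 2 = n2 (D l (D j (fr f))) ^ 2 := by
      intro l
      rw [← n2_fr ((hf.pd j).pd l), fr_pd (hf.pd j), fr_pd hf]
    simp_rw [e]
    exact Finset.single_le_sum (f := fun m => ∑ l, n2 (D l (D m (fr f))) ^ 2)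
      (fun _ _ => Finset.sum_nonneg fun _ _ => sq_nonneg _) (Finset.mem_univ j)
  exact (pow_le_pow_iff_left₀ (grd_nonneg _) (nrm_nonneg _) (by norm_num)).1 h1

section

variable {s b c : Fin 3 → V → ℝ} {θ β G H kb kc : ℝ}

theorem aux_mul_le (hθ0 : 0 ≤ θ) (hθ1 : θ < 1) (hG : 0 ≤ G) (hH : 0 ≤ H) (hkb : 0 ≤ kb)
    (hkc : 0 ≤ kc) {x y z : ℝ} (hx : 0 ≤ x) (hy : 0 ≤ y) (hz : 0 ≤ z)
    (h1 : x ≤ kb * H) (h2 : y ≤ kc * G) (h3 : z ≤ kc * H) :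
    x * (y ^ (1 - θ) * z ^ θ) ≤ kb * kc * (G ^ (1 - θ) * H ^ θ * H) := by
  have e1 : y ^ (1 - θ) ≤ kc ^ (1 - θ) * G ^ (1 - θ) := by
    rw [← Real.mul_rpow hkc hG]
    exact Real.rpow_le_rpow hy h2 (by linarith)
  have e2 : z ^ θ ≤ kc ^ θ * H ^ θ := by
    rw [← Real.mul_rpow hkc hH]
    exact Real.rpow_le_rpow hz h3 hθ0
  have e3 : kc ^ (1 - θ) * kc ^ θ = kc := by
    rcases hkc.eq_or_lt with h | h
    · rw [← h, Real.zero_rpow (by linarith), zero_mul]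
    · rw [← Real.rpow_add h]
      simp
  calc x * (y ^ (1 - θ) * z ^ θ)
      ≤ (kb * H) * ((kc ^ (1 - θ) * G ^ (1 - θ)) * (kc ^ θ * H ^ θ)) := by
        refine mul_le_mul h1 (mul_le_mul e1 e2 (Real.rpow_nonneg hz _) (by positivity))
          (by positivity) (by positivity)
    _ = kb * (kc ^ (1 - θ) * kc ^ θ) * (G ^ (1 - θ) * H ^ θ * H) := by ring
    _ = _ := by rw [e3]

theorem abs_int_C3_le {s f g : V → ℝ} (hs : SP s) (hf : SP f) (hg : SP g)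
    (hf0 : ∫ x in cube, f x = 0) (hg0 : ∫ x in cube, g x = 0) (hM : Mul θ β s) (m : Fin 3)
    (hβ : 0 ≤ β) (hθ0 : 0 ≤ θ) (hθ1 : θ < 1) (hG : 0 ≤ G) (hH : 0 ≤ H) (hkb : 0 ≤ kb)
    (hkc : 0 ≤ kc) (h1 : nrm f ≤ kb * G) (h2 : grd f ≤ kb * H) (h3 : nrm (pd m f) ≤ kb * H)
    (h4 : nrm g ≤ kc * G) (h5 : grd g ≤ kc * H) (h6 : nrm (pd m g) ≤ kc * H) :
    |∫ x in cube, pd m s x * (f x * g x)|
      ≤ 2 * (β * (kb * kc * (G ^ (1 - θ) * H ^ θ * H))) := by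
  refine (abs_int_pd_mul_le hs hf hg hf0 hg0 hM m).trans ?_
  have a1 := aux_mul_le hθ0 hθ1 hG hH hkb hkc (nrm_nonneg _) (nrm_nonneg g) (grd_nonneg g) h3 h4 h5
  have a2 := aux_mul_le hθ0 hθ1 hG hH hkc hkb (nrm_nonneg _) (nrm_nonneg f) (grd_nonneg f) h6 h1 h2
  have a3 := mul_le_mul_of_nonneg_left a1 hβ
  have a4 := mul_le_mul_of_nonneg_left a2 hβ
  have e : kc * kb = kb * kc := mul_comm _ _
  rw [e] at a4
  linarith

variable (hs : ∀ i, SP (s i)) (hM : ∀ i, Mul θ β (s i)) (hβ : 0 ≤ β) (hθ0 : 0 ≤ θ) (hθ1 : θ < 1)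
  (hG : 0 ≤ G) (hH : 0 ≤ H) (hkb : 0 ≤ kb) (hkc : 0 ≤ kc)
  (hb : GH2 b (kb * G) (kb * H)) (hc : GH2 c (kc * G) (kc * H))

include hs hM hβ hθ0 hθ1 hG hH hkb hkc hb hc

theorem abs_C3_m1 : |C3 s b c| ≤ 54 * (β * (kb * kc * (G ^ (1 - θ) * H ^ θ * H))) := by
  refine (abs_sum3_le (B := 2 * (β * (kb * kc * (G ^ (1 - θ) * H ^ θ * H))))
    fun i j m => ?_).trans (by linarith)
  exact abs_int_C3_le (hs i) ((hb.sp j).pd i) ((hc.sp j).pd m) (int_pd_zero (hb.sp j) i)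
    (int_pd_zero (hc.sp j) m) (hM i) m hβ hθ0 hθ1 hG hH hkb hkc (hb.gh.g _ _)
    ((grd_pd_le_lap (hb.sp j) i).trans (nrm_lap_le hb j)) (hb.gh.h _ _ _) (hc.gh.g _ _)
    ((grd_pd_le_lap (hc.sp j) m).trans (nrm_lap_le hc j)) (hc.gh.h _ _ _)

theorem abs_C3_m2 : |C3 b s c| ≤ 54 * (β * (kb * kc * (G ^ (1 - θ) * H ^ θ * H))) := by
  refine (abs_sum3_le (B := 2 * (β * (kb * kc * (G ^ (1 - θ) * H ^ θ * H))))
    fun i j m => ?_).trans (by linarith)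
  have e : ∫ x in cube, pd m (b i) x * (pd i (s j) x * pd m (c j) x)
      = ∫ x in cube, pd i (s j) x * (pd m (b i) x * pd m (c j) x) := by
    congr 1
    funext x
    ring
  rw [e]
  exact abs_int_C3_le (hs j) ((hb.sp i).pd m) ((hc.sp j).pd m) (int_pd_zero (hb.sp i) m)
    (int_pd_zero (hc.sp j) m) (hM j) i hβ hθ0 hθ1 hG hH hkb hkc (hb.gh.g _ _)
    ((grd_pd_le_lap (hb.sp i) m).trans (nrm_lap_le hb i)) (hb.gh.h _ _ _) (hc.gh.g _ _)
    ((grd_pd_le_lap (hc.sp j) m).trans (nrm_lap_le hc j)) (hc.gh.h _ _ _)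

theorem abs_C3_m3 : |C3 b c s| ≤ 54 * (β * (kb * kc * (G ^ (1 - θ) * H ^ θ * H))) := by
  refine (abs_sum3_le (B := 2 * (β * (kb * kc * (G ^ (1 - θ) * H ^ θ * H))))
    fun i j m => ?_).trans (by linarith)
  have e : ∫ x in cube, pd m (b i) x * (pd i (c j) x * pd m (s j) x)
      = ∫ x in cube, pd m (s j) x * (pd m (b i) x * pd i (c j) x) := by
    congr 1
    funext x
    ring
  rw [e]
  exact abs_int_C3_le (hs j) ((hb.sp i).pd m) ((hc.sp j).pd i) (int_pd_zero (hb.sp i) m)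
    (int_pd_zero (hc.sp j) i) (hM j) m hβ hθ0 hθ1 hG hH hkb hkc (hb.gh.g _ _)
    ((grd_pd_le_lap (hb.sp i) m).trans (nrm_lap_le hb i)) (hb.gh.h _ _ _) (hc.gh.g _ _)
    ((grd_pd_le_lap (hc.sp j) i).trans (nrm_lap_le hc j)) (hc.gh.h _ _ _)

end

/-- The difference of the enstrophy productions of `a` and `v`. -/
theorem cub_compare_mul {a v w : Fin 3 → V → ℝ} {A θ β G H K : ℝ} {Q : Set K3}
    (hK : 0 ≤ K) (hβ0 : 0 ≤ β) (hθ0 : 0 ≤ θ) (hθ1 : θ < 1) (hQ : DimTwo A Q) (ha : GH2 a G H)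
    (hv : GH2 v (K * G) (K * H))
    (hw : ∀ i, SP (w i)) (hwQ : ∀ i k, k ∉ Q → fr (w i) k = 0)
    (hGw : ∑ i, ∑ j, ∫ x in cube, pd j (w i) x ^ 2 ≤ (K * G) ^ 2)
    (hM : ∀ i, Mul θ β (fun x => a i x - v i x - w i x)) :
    cub v - cub a ≤ (1 + K + K ^ 2) * (54 * (β * (G ^ (1 - θ) * H ^ θ * H))
      + Real.sqrt (2 * A) * K / 3 * (G ^ 2 * H)) := by
  set s : Fin 3 → V → ℝ := fun i x => a i x - v i x - w i x with hs
  have hsp : ∀ i, SP (s i) := fun i => ((ha.sp i).sub (hv.sp i)).sub (hw i)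
  have hdec : ∀ i, a i = fun x => v i x + w i x + s i x := by
    intro i
    funext x
    simp only [hs]
    ring
  have e1 := C3_add1 (b := a) (c := a) hv.sp hw hsp ha.sp ha.sp hdec
  have e2 := C3_add2 (b := v) (c := a) hv.sp hw hsp hv.sp ha.sp hdec
  have e3 := C3_add3 (b := v) (c := v) hv.sp hw hsp hv.sp hv.sp hdec
  have hKG : 0 ≤ K * G := mul_nonneg hK ha.g0
  have ha' : GH2 a (1 * G) (1 * H) := by simpa using ha
  have hG := ha.g0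
  have hH := ha.h0
  have b1 := abs_le.1 (abs_C3_m1 hsp hM hβ0 hθ0 hθ1 hG hH zero_le_one zero_le_one ha' ha')
  have b2 := abs_le.1 (abs_C3_m2 hsp hM hβ0 hθ0 hθ1 hG hH hK zero_le_one hv ha')
  have b3 := abs_le.1 (abs_C3_m3 hsp hM hβ0 hθ0 hθ1 hG hH hK hK hv hv)
  have c1 := abs_le.1 (abs_C3_q1 hQ hw hwQ hKG hGw ha ha)
  have c2 := abs_le.1 (abs_C3_q2 hQ hw hwQ hKG hGw hv ha)
  have c3 := abs_le.1 (abs_C3_q3 hQ hw hwQ hKG hGw hv hv)
  rw [cub_eq v, cub_eq a]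
  set X := G ^ (1 - θ) * H ^ θ * H with hX
  have hfin : (1 + K + K ^ 2) * (54 * (β * X) + Real.sqrt (2 * A) * K / 3 * (G ^ 2 * H))
      = 54 * (β * (1 * 1 * X)) + 54 * (β * (K * 1 * X)) + 54 * (β * (K * K * X))
        + Real.sqrt (2 * A) * (K * G * (H * G + G * H)) / 6
        + Real.sqrt (2 * A) * (K * G * (K * H * G + K * G * H)) / 6
        + Real.sqrt (2 * A) * (K * G * (K * H * (K * G) + K * G * (K * H))) / 6 := by
    ring
  rw [hfin]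
  linarith [b1.1, b2.1, b3.1, c1.1, c2.1, c3.1]

end H459R3.NS
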