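import Pool.Agent.H459R3.NS.Phys

/-!
Fourier coefficients of smooth periodic functions.
-/

open MeasureTheory Set Filter Topology
open scoped ContDiff

namespace H459R3.NS

theorem per_ofReal {f : V → ℝ} (hp : Per f) : Per (fun x => (f x : ℂ)) := fun i x => by
  simp only [hp i x]

theorem contDiff_ofReal {f : V → ℝ} {n : WithTop ℕ∞} (hf : ContDiff ℝ n f) :
    ContDiff ℝ n (fun x => (f x : ℂ)) := Complex.ofRealCLM.contDiff.comp hf

theorem hasFDerivAt_ph (k : K3) (x : V) :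
    HasFDerivAt (ph k) (∑ i, (k i : ℝ) • (ContinuousLinearMap.proj i : V →L[ℝ] ℝ)) x := by
  unfold ph
  refine HasFDerivAt.fun_sum fun i _ => ?_
  exact ((ContinuousLinearMap.proj (R := ℝ) (φ := fun _ : Fin 3 => ℝ) i).hasFDerivAt
    (x := x)).const_mul (k i : ℝ)

theorem pd_ee (k : K3) (j : Fin 3) (x : V) :
    pd j (ee k) x = 2 * Real.pi * Complex.I * (k j : ℂ) * ee k x := by
  have h1 : HasFDerivAt (fun y => (ph k y : ℂ))
      (Complex.ofRealCLM.comp (∑ i, (k i : ℝ) • (ContinuousLinearMap.proj i : V →L[ℝ] ℝ))) x :=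
    Complex.ofRealCLM.hasFDerivAt.comp x (hasFDerivAt_ph k x)
  have h2 := (h1.const_mul (2 * Real.pi * Complex.I)).cexp
  have h3 : HasFDerivAt (ee k) _ x := h2
  unfold pd
  rw [h3.fderiv]
  simp only [smul_apply, ContinuousLinearMap.comp_apply, sum_apply,
    ContinuousLinearMap.proj_apply, smul_eq_mul, Pi.single_apply, Complex.ofRealCLM_apply]
  rw [Finset.sum_eq_single j (fun b _ hb => by rw [if_neg hb, mul_zero])
    (fun h => absurd (Finset.mem_univ j) h), if_pos rfl]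
  unfold ee
  push_cast
  ring

theorem fr_pd {f : V → ℝ} (hf : SP f) (j : Fin 3) : fr (pd j f) = D j (fr f) := by
  funext k
  have hc : ContDiff ℝ 1 (fun x => (f x : ℂ)) := contDiff_ofReal (hf.smooth.of_le (by norm_cast))
  have he : ContDiff ℝ 1 (ee (-k)) := ee_contDiff _
  have hprod : ContDiff ℝ 1 (fun x => ee (-k) x * (f x : ℂ)) := he.mul hc
  have h := integral_pd hprod ((ee_per (-k)).mul (per_ofReal hf.per)) j
  have e : ∀ x, pd j (fun x => ee (-k) x * (f x : ℂ)) x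
      = ee (-k) x * ((pd j f x : ℝ) : ℂ)
        - 2 * Real.pi * Complex.I * (k j : ℂ) * (ee (-k) x * (f x : ℂ)) := by
    intro x
    have d1 : HasFDerivAt (ee (-k)) (fderiv ℝ (ee (-k)) x) x :=
      (he.differentiable one_ne_zero x).hasFDerivAt
    have d0 : HasFDerivAt f (fderiv ℝ f x) x :=
      ((hf.smooth.differentiable (by norm_cast)) x).hasFDerivAt
    have d2 : HasFDerivAt (fun y => (f y : ℂ)) (Complex.ofRealCLM.comp (fderiv ℝ f x)) x :=
      Complex.ofRealCLM.hasFDerivAt.comp x d0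
    have d3 : HasFDerivAt (fun y => ee (-k) y * (f y : ℂ)) _ x := d1.mul d2
    have e1 := pd_ee (-k) j x
    unfold pd at e1 ⊢
    rw [d3.fderiv]
    simp only [ContinuousLinearMap.add_apply, smul_apply, smul_eq_mul,
      ContinuousLinearMap.comp_apply, Complex.ofRealCLM_apply]
    rw [e1]
    simp only [Pi.neg_apply]
    push_cast
    ring
  simp_rw [e] at h
  have c1 : Continuous (fun x => ee (-k) x * ((pd j f x : ℝ) : ℂ)) :=
    (ee_continuous _).mul (contDiff_ofReal (hf.pd j).smooth).continuous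
  have c2 : Continuous (fun x => ee (-k) x * (f x : ℂ)) := hprod.continuous
  rw [integral_sub (integrableOn_cube c1) ((integrableOn_cube c2).const_mul _),
    integral_const_mul, sub_eq_zero] at h
  exact h

theorem norm_fr_le {f : V → ℝ} (hf : SP f) : ∃ C, ∀ k, ‖fr f k‖ ≤ C := by
  refine ⟨∫ x in cube, ‖f x‖, fun k => ?_⟩
  unfold fr fc
  refine (norm_integral_le_integral_norm _).trans (le_of_eq ?_)
  congr 1
  funext x
  rw [norm_mul, norm_ee, one_mul, Complex.norm_real]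

theorem _root_.H459R3.NS.SP.iter {f : V → ℝ} (hf : SP f) (j : Fin 3) (n : ℕ) :
    SP ((NS.pd j)^[n] f) := by
  induction n with
  | zero => exact hf
  | succ n ih => rw [Function.iterate_succ_apply']; exact ih.pd j

theorem fr_iter {f : V → ℝ} (hf : SP f) (j : Fin 3) (n : ℕ) (k : K3) :
    fr ((pd j)^[n] f) k = (2 * Real.pi * Complex.I * (k j : ℂ)) ^ n * fr f k := by
  induction n with
  | zero => simp
  | succ n ih =>
    rw [Function.iterate_succ_apply', fr_pd (hf.iter j n), D, ih]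
    ring

theorem N_pow_le (k : K3) (n : ℕ) : (N k : ℝ) ^ n ≤ ∑ j, |(k j : ℝ)| ^ n := by
  obtain ⟨j, hj⟩ : ∃ j, N k = (k j).natAbs := by
    obtain ⟨j, -, hj⟩ := Finset.exists_mem_eq_sup (Finset.univ : Finset (Fin 3))
      ⟨0, Finset.mem_univ 0⟩ (fun j => (k j).natAbs)
    exact ⟨j, hj⟩
  have h1 : (N k : ℝ) ^ n = |(k j : ℝ)| ^ n := by
    rw [hj]
    congr 1
    rw [← Int.cast_abs, Int.abs_eq_natAbs]
    simp
  rw [h1]
  exact Finset.single_le_sum (f := fun l => |(k l : ℝ)| ^ n) (fun l _ => by positivity)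
    (Finset.mem_univ j)

theorem N_pow_fr {f : V → ℝ} (hf : SP f) (n : ℕ) :
    ∃ C, ∀ k, (N k : ℝ) ^ n * ‖fr f k‖ ≤ C := by
  choose C hC using fun j => norm_fr_le (hf.iter j n)
  refine ⟨∑ j, C j, fun k => ?_⟩
  have h1 : ∀ j, |(k j : ℝ)| ^ n * ‖fr f k‖ ≤ C j := by
    intro j
    refine le_trans ?_ (hC j k)
    rw [fr_iter hf, norm_mul, norm_pow]
    gcongr
    rw [norm_mul, norm_mul, norm_mul, Complex.norm_I, mul_one, Complex.norm_real,
      Real.norm_eq_abs, abs_of_pos Real.pi_pos, Complex.norm_ofNat, Complex.norm_intCast]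
    have h0 : 0 ≤ |(k j : ℝ)| := abs_nonneg _
    have := Real.pi_gt_three
    nlinarith
  calc (N k : ℝ) ^ n * ‖fr f k‖ ≤ (∑ j, |(k j : ℝ)| ^ n) * ‖fr f k‖ := by
        gcongr
        exact N_pow_le k n
    _ = ∑ j, |(k j : ℝ)| ^ n * ‖fr f k‖ := Finset.sum_mul _ _ _
    _ ≤ ∑ j, C j := Finset.sum_le_sum fun j _ => h1 j

/-- coordinates -/
def eqv : K3 ≃ ℤ × ℤ × ℤ where
  toFun k := (k 0, k 1, k 2)
  invFun p := ![p.1, p.2.1, p.2.2]
  left_inv k := by funext i; fin_cases i <;> rfl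
  right_inv p := rfl

theorem summable_int : Summable fun n : ℤ => 1 / (1 + (n : ℝ) ^ 2) := by
  have h : Summable fun n : ℤ => |(n : ℝ)| ^ (-2 : ℝ) := Real.summable_abs_int_rpow (by norm_num)
  have h2 := h.add (summable_of_finite_support (f := fun n : ℤ => if n = 0 then (1 : ℝ) else 0)
    ((Set.finite_singleton (0 : ℤ)).subset fun n hn => by
      by_contra h
      exact hn (if_neg h)))
  refine Summable.of_nonneg_of_le (fun n => by positivity) (fun n => ?_) h2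
  by_cases hn : n = 0
  · subst hn; simp
  · rw [if_neg hn, add_zero]
    have hn' : (n : ℝ) ≠ 0 := by exact_mod_cast hn
    rw [Real.rpow_neg (abs_nonneg _), ← one_div, show (2 : ℝ) = ((2 : ℕ) : ℝ) by norm_num,
      Real.rpow_natCast, sq_abs]
    apply one_div_le_one_div_of_le (by positivity)
    linarith

theorem summable_K3 : Summable fun k : K3 =>
    (1 / (1 + (k 0 : ℝ) ^ 2)) * ((1 / (1 + (k 1 : ℝ) ^ 2)) * (1 / (1 + (k 2 : ℝ) ^ 2))) := by
  have h1 := summable_int.mul_of_nonneg summable_int (fun n => by positivity)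
    (fun n => by positivity)
  have h2 := summable_int.mul_of_nonneg h1 (fun n => by positivity)
    (fun p => by positivity)
  have h3 := (eqv.summable_iff (f := fun p : ℤ × ℤ × ℤ =>
    (1 / (1 + (p.1 : ℝ) ^ 2)) * ((1 / (1 + (p.2.1 : ℝ) ^ 2)) * (1 / (1 + (p.2.2 : ℝ) ^ 2))))).2 h2
  exact h3

theorem one_add_sq_le (k : K3) (j : Fin 3) : 1 + (k j : ℝ) ^ 2 ≤ (1 + (N k : ℝ)) ^ 2 := by
  have h := (N_le_iff k (N k)).1 le_rfl j
  have h1 : |(k j : ℝ)| ≤ N k := by exact_mod_cast h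
  rw [← sq_abs (k j : ℝ)]
  nlinarith [abs_nonneg (k j : ℝ)]

/-- Fourier coefficients of smooth functions are rapidly decreasing. -/
theorem rap_fr {f : V → ℝ} (hf : SP f) : Rap (fr f) := by
  intro n
  obtain ⟨C0, hC0⟩ := N_pow_fr hf n
  obtain ⟨C1, hC1⟩ := N_pow_fr hf (n + 6)
  have hb : ∀ k : K3, (N k : ℝ) ^ n * ‖fr f k‖ ≤ (64 * (C0 + C1)) *
      ((1 / (1 + (k 0 : ℝ) ^ 2)) * ((1 / (1 + (k 1 : ℝ) ^ 2)) * (1 / (1 + (k 2 : ℝ) ^ 2)))) := by
    intro k
    have hN : (0 : ℝ) ≤ N k := by positivity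
    have h1 : (1 + (N k : ℝ)) ^ 6 * ((N k : ℝ) ^ n * ‖fr f k‖) ≤ 64 * (C0 + C1) := by
      have h2 : (1 + (N k : ℝ)) ^ 6 ≤ 64 * (1 + (N k : ℝ) ^ 6) := by
        rcases le_total (N k : ℝ) 1 with h | h
        · have : (1 + (N k : ℝ)) ^ 6 ≤ (1 + 1) ^ 6 := by gcongr
          nlinarith [pow_nonneg hN 6]
        · have : (1 + (N k : ℝ)) ^ 6 ≤ ((N k : ℝ) + (N k : ℝ)) ^ 6 := by gcongr
          have e : ((N k : ℝ) + (N k : ℝ)) ^ 6 = 64 * (N k : ℝ) ^ 6 := by ring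
          linarith
      calc (1 + (N k : ℝ)) ^ 6 * ((N k : ℝ) ^ n * ‖fr f k‖)
          ≤ (64 * (1 + (N k : ℝ) ^ 6)) * ((N k : ℝ) ^ n * ‖fr f k‖) := by gcongr
        _ = 64 * ((N k : ℝ) ^ n * ‖fr f k‖ + (N k : ℝ) ^ (n + 6) * ‖fr f k‖) := by ring
        _ ≤ 64 * (C0 + C1) := by
          have a1 := hC0 k
          have a2 := hC1 k
          linarith
    have h0 := one_add_sq_le k 0
    have h1' := one_add_sq_le k 1
    have h2' := one_add_sq_le k 2
    have hprod : (1 + (k 0 : ℝ) ^ 2) * ((1 + (k 1 : ℝ) ^ 2) * (1 + (k 2 : ℝ) ^ 2))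
        ≤ (1 + (N k : ℝ)) ^ 6 := by
      calc (1 + (k 0 : ℝ) ^ 2) * ((1 + (k 1 : ℝ) ^ 2) * (1 + (k 2 : ℝ) ^ 2))
          ≤ (1 + (N k : ℝ)) ^ 2 * ((1 + (N k : ℝ)) ^ 2 * (1 + (N k : ℝ)) ^ 2) := by gcongr
        _ = _ := by ring
    have hx : (0 : ℝ) ≤ (N k : ℝ) ^ n * ‖fr f k‖ := by positivity
    have hP : (0 : ℝ) < (1 + (k 0 : ℝ) ^ 2) * ((1 + (k 1 : ℝ) ^ 2) * (1 + (k 2 : ℝ) ^ 2)) := by
      positivity
    have e : (64 * (C0 + C1)) *
      ((1 / (1 + (k 0 : ℝ) ^ 2)) * ((1 / (1 + (k 1 : ℝ) ^ 2)) * (1 / (1 + (k 2 : ℝ) ^ 2))))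
      = (64 * (C0 + C1)) / ((1 + (k 0 : ℝ) ^ 2) * ((1 + (k 1 : ℝ) ^ 2) * (1 + (k 2 : ℝ) ^ 2))) := by
      field_simp
    rw [e, le_div_iff₀ hP, mul_comm]
    exact (mul_le_mul_of_nonneg_right hprod hx).trans h1
  exact Summable.of_nonneg_of_le (fun k => by positivity) hb (summable_K3.mul_left _)

theorem S_fr {f : V → ℝ} (hf : SP f) (x : V) : S (fr f) x = (f x : ℂ) :=
  (hasSum_fc (per_ofReal hf.per) (contDiff_ofReal hf.smooth).continuous
    (rap_fr hf).summable x).tsum_eq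

theorem tri_fr {f g h : V → ℝ} (hf : SP f) (hg : SP g) (hh : SP h) :
    Tri (fr f) (fr g) (fr h) = ((∫ x in cube, f x * (g x * h x) : ℝ) : ℂ) := by
  rw [tri_eq (rap_fr hf).summable (rap_fr hg).summable (rap_fr hh).summable,
    ← integral_complex_ofReal]
  congr 1
  funext x
  rw [S_fr hf, S_fr hg, S_fr hh]
  push_cast
  ring

theorem n2_fr {f : V → ℝ} (hf : SP f) : n2 (fr f) ^ 2 = ∫ x in cube, f x ^ 2 := by
  rw [← integral_norm_sq (rap_fr hf).summable]
  congr 1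
  funext x
  rw [S_fr hf, Complex.norm_real, Real.norm_eq_abs, sq_abs]

end H459R3.NS
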