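import Pool.Agent.H459R3.NS.Four

/-!
Absolutely convergent Fourier series and trilinear forms.
-/

open MeasureTheory Set Filter Topology
open scoped ContDiff

namespace H459R3.NS

/-- The sum of the Fourier series with coefficients `a`. -/
noncomputable def S (a : K3 → ℂ) (x : V) : ℂ := ∑' k, a k * ee k x

theorem norm_term (a : K3 → ℂ) (k : K3) (x : V) : ‖a k * ee k x‖ = ‖a k‖ := by
  rw [norm_mul, norm_ee, mul_one]

theorem summable_term {a : K3 → ℂ} (ha : Summable a) (x : V) :
    Summable fun k => a k * ee k x := by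
  refine Summable.of_norm ?_
  simp_rw [norm_term]
  exact ha.norm

theorem S_continuous {a : K3 → ℂ} (ha : Summable a) : Continuous (S a) := by
  unfold S
  exact continuous_tsum (fun k => continuous_const.mul (ee_continuous k)) ha.norm
    (fun k x => (norm_term a k x).le)

theorem norm_S_le {a : K3 → ℂ} (ha : Summable a) (x : V) : ‖S a x‖ ≤ ∑' k, ‖a k‖ := by
  unfold S
  refine (norm_tsum_le_tsum_norm ?_).trans (le_of_eq (tsum_congr fun k => norm_term a k x))
  simp_rw [norm_term]
  exact ha.norm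

theorem integral_S_mul {a : K3 → ℂ} (ha : Summable a) {g : V → ℂ} (hg : Continuous g) :
    HasSum (fun k => a k * ∫ x in cube, ee k x * g x) (∫ x in cube, S a x * g x) := by
  have hi : ∀ k, Integrable (fun x => a k * (ee k x * g x)) (volume.restrict cube) := fun k =>
    (integrableOn_cube ((ee_continuous k).mul hg)).const_mul _
  have hs : Summable fun k => ∫ x in cube, ‖a k * (ee k x * g x)‖ := by
    have e : ∀ k, ∫ x in cube, ‖a k * (ee k x * g x)‖ = ‖a k‖ * ∫ x in cube, ‖g x‖ := by
      intro k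
      rw [← integral_const_mul]
      congr 1
      funext x
      rw [norm_mul, norm_mul, norm_ee, one_mul]
    simp_rw [e]
    exact ha.norm.mul_right _
  have h := hasSum_integral_of_summable_integral_norm hi hs
  have e1 : ∀ k, ∫ x in cube, a k * (ee k x * g x) = a k * ∫ x in cube, ee k x * g x :=
    fun k => integral_const_mul _ _
  simp_rw [e1] at h
  have e2 : (∫ x in cube, ∑' k, a k * (ee k x * g x)) = ∫ x in cube, S a x * g x := by
    congr 1
    funext x
    unfold S
    rw [← tsum_mul_right]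
    exact tsum_congr fun k => by ring
  rwa [e2] at h

theorem integral_ee_S (k : K3) {c : K3 → ℂ} (hc : Summable c) :
    ∫ x in cube, ee k x * S c x = c (-k) := by
  have h := integral_S_mul hc (ee_continuous k)
  have e : ∀ m, c m * ∫ x in cube, ee m x * ee k x = if m = -k then c (-k) else 0 := by
    intro m
    simp_rw [← ee_add_left]
    rw [integral_ee]
    by_cases hm : m = -k
    · rw [if_pos hm, if_pos (by rw [hm]; simp), mul_one, hm]
    · rw [if_neg hm, if_neg (fun h => hm (eq_neg_of_add_eq_zero_left h)), mul_zero]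
  simp_rw [e] at h
  have h2 := h.unique (hasSum_ite_eq (-k) (c (-k)))
  rw [← h2]
  congr 1
  funext x
  ring

theorem integral_ee_S_S (k : K3) {b c : K3 → ℂ} (hb : Summable b) (hc : Summable c) :
    HasSum (fun l => b l * c (-k - l)) (∫ x in cube, ee k x * (S b x * S c x)) := by
  have h := integral_S_mul hb (g := fun x => ee k x * S c x)
    ((ee_continuous k).mul (S_continuous hc))
  have e : ∀ l, b l * ∫ x in cube, ee l x * (ee k x * S c x) = b l * c (-k - l) := by
    intro l
    have e1 : (∫ x in cube, ee l x * (ee k x * S c x)) = ∫ x in cube, ee (l + k) x * S c x := by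
      congr 1
      funext x
      rw [ee_add_left]; ring
    rw [e1, integral_ee_S (l + k) hc]
    congr 2
    abel
  simp_rw [e] at h
  have e2 : (∫ x in cube, S b x * (ee k x * S c x)) = ∫ x in cube, ee k x * (S b x * S c x) := by
    congr 1
    funext x
    ring
  rwa [e2] at h

/-- The trilinear form. -/
noncomputable def Tri (a b c : K3 → ℂ) : ℂ := ∑' p : K3 × K3, a p.1 * b p.2 * c (-p.1 - p.2)

theorem summable_norm_tri {a b c : K3 → ℂ} (ha : Summable a) (hb : Summable b)
    (hc : Summable c) : Summable fun p : K3 × K3 => ‖a p.1‖ * ‖b p.2‖ * ‖c (-p.1 - p.2)‖ := by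
  have hM : ∀ k, ‖c k‖ ≤ ∑' m, ‖c m‖ := fun k => hc.norm.le_tsum k fun _ _ => norm_nonneg _
  refine Summable.of_nonneg_of_le (fun p => by positivity)
    (fun p => mul_le_mul_of_nonneg_left (hM _) (by positivity))
    ((Summable.mul_of_nonneg ha.norm hb.norm (fun _ => norm_nonneg _)
      (fun _ => norm_nonneg _)).mul_right _)

theorem summable_tri {a b c : K3 → ℂ} (ha : Summable a) (hb : Summable b) (hc : Summable c) :
    Summable fun p : K3 × K3 => a p.1 * b p.2 * c (-p.1 - p.2) := by
  refine Summable.of_norm ?_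
  simp_rw [norm_mul]
  exact summable_norm_tri ha hb hc

theorem tri_eq {a b c : K3 → ℂ} (ha : Summable a) (hb : Summable b) (hc : Summable c) :
    Tri a b c = ∫ x in cube, S a x * (S b x * S c x) := by
  have h := integral_S_mul ha (g := fun x => S b x * S c x)
    ((S_continuous hb).mul (S_continuous hc))
  have h1 := (summable_tri ha hb hc).tsum_prod
  rw [Tri, h1, ← h.tsum_eq]
  refine tsum_congr fun k => ?_
  rw [← (integral_ee_S_S k hb hc).tsum_eq, ← tsum_mul_left]
  exact tsum_congr fun l => by ring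

/-- The `ℓ²` norm. -/
noncomputable def n2 (b : K3 → ℂ) : ℝ := Real.sqrt (∑' k, ‖b k‖ ^ 2)

theorem n2_nonneg (b : K3 → ℂ) : 0 ≤ n2 b := Real.sqrt_nonneg _

theorem summable_sq {b : K3 → ℂ} (hb : Summable b) : Summable fun k => ‖b k‖ ^ 2 := by
  have hM : ∀ k, ‖b k‖ ≤ ∑' m, ‖b m‖ := fun k => hb.norm.le_tsum k fun _ _ => norm_nonneg _
  refine Summable.of_nonneg_of_le (fun p => by positivity) (fun p => ?_)
    (hb.norm.mul_left (∑' m, ‖b m‖))
  rw [sq]
  exact mul_le_mul_of_nonneg_right (hM p) (norm_nonneg _)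

theorem n2_sq (b : K3 → ℂ) : n2 b ^ 2 = ∑' k, ‖b k‖ ^ 2 :=
  Real.sq_sqrt (tsum_nonneg fun _ => by positivity)

theorem integral_norm_sq {b : K3 → ℂ} (hb : Summable b) :
    ∫ x in cube, ‖S b x‖ ^ 2 = n2 b ^ 2 := by
  set b' : K3 → ℂ := fun k => (starRingEnd ℂ) (b (-k)) with hb'
  have hbs : Summable b' := by
    refine Summable.of_norm ?_
    simp only [hb', RCLike.norm_conj]
    exact ((Equiv.neg K3).summable_iff (f := fun k => ‖b k‖)).2 hb.norm
  have e1 : ∀ x, S b' x = (starRingEnd ℂ) (S b x) := by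
    intro x
    unfold S
    rw [Complex.conj_tsum, ← (Equiv.neg K3).tsum_eq]
    refine tsum_congr fun k => ?_
    simp only [hb', Equiv.neg_apply, map_mul, neg_neg, ee_neg]
  have h := integral_S_mul hb (S_continuous hbs)
  have e2 : ∀ k, b k * ∫ x in cube, ee k x * S b' x = ((‖b k‖ ^ 2 : ℝ) : ℂ) := by
    intro k
    rw [integral_ee_S k hbs]
    simp only [hb', neg_neg]
    rw [Complex.mul_conj, Complex.normSq_eq_norm_sq]
  simp_rw [e2] at h
  have e3 : (∫ x in cube, S b x * S b' x) = ((∫ x in cube, ‖S b x‖ ^ 2 : ℝ) : ℂ) := by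
    rw [← integral_complex_ofReal]
    congr 1
    funext x
    rw [e1, Complex.mul_conj, Complex.normSq_eq_norm_sq]
  rw [e3] at h
  have h2 : HasSum (fun k => ‖b k‖ ^ 2) (∫ x in cube, ‖S b x‖ ^ 2) := by
    exact_mod_cast h
  rw [n2_sq, h2.tsum_eq]

/-- Cauchy-Schwarz inequality for integrals of real functions. -/
theorem integral_mul_sq_le {α : Type*} {mα : MeasurableSpace α} {μ : Measure α} {a b : α → ℝ}
    (ha : Integrable (fun x => a x ^ 2) μ) (hb : Integrable (fun x => b x ^ 2) μ)
    (hab : Integrable (fun x => a x * b x) μ) :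
    (∫ x, a x * b x ∂μ) ^ 2 ≤ (∫ x, a x ^ 2 ∂μ) * ∫ x, b x ^ 2 ∂μ := by
  have h : ∀ l : ℝ, 0 ≤ (∫ x, a x ^ 2 ∂μ) * (l * l) + (2 * ∫ x, a x * b x ∂μ) * l
      + ∫ x, b x ^ 2 ∂μ := by
    intro l
    have h1 : 0 ≤ ∫ x, (l * a x + b x) ^ 2 ∂μ := integral_nonneg (fun x => by positivity)
    have h2 : ∀ x, (l * a x + b x) ^ 2 = (l * l) * a x ^ 2 + (2 * l) * (a x * b x) + b x ^ 2 :=
      fun x => by ring
    simp_rw [h2] at h1
    have i1 : Integrable (fun x => l * l * a x ^ 2 + 2 * l * (a x * b x)) μ :=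
      (ha.const_mul _).add (hab.const_mul _)
    rw [integral_add i1 hb,
      integral_add (ha.const_mul _) (hab.const_mul _), integral_const_mul, integral_const_mul] at h1
    linarith
  have h3 := discrim_le_zero h
  rw [discrim] at h3
  nlinarith

theorem norm_tri_le {a b c : K3 → ℂ} (ha : Summable a) (hb : Summable b) (hc : Summable c)
    {M : ℝ} (hM : ∀ x, ‖S a x‖ ≤ M) : ‖Tri a b c‖ ≤ M * (n2 b * n2 c) := by
  have hM0 : 0 ≤ M := (norm_nonneg _).trans (hM 0)
  have ca := S_continuous ha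
  have cb := S_continuous hb
  have cc := S_continuous hc
  rw [tri_eq ha hb hc]
  have h1 : ‖∫ x in cube, S a x * (S b x * S c x)‖
      ≤ ∫ x in cube, M * (‖S b x‖ * ‖S c x‖) := by
    refine norm_integral_le_of_norm_le (integrableOn_cube (by fun_prop))
      (Eventually.of_forall fun x => ?_)
    rw [norm_mul, norm_mul]
    exact mul_le_mul_of_nonneg_right (hM x) (by positivity)
  refine h1.trans ?_
  rw [integral_const_mul]
  refine mul_le_mul_of_nonneg_left ?_ hM0
  have h2 := integral_mul_sq_le (μ := volume.restrict cube) (a := fun x => ‖S b x‖)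
    (b := fun x => ‖S c x‖) (integrableOn_cube (by fun_prop)) (integrableOn_cube (by fun_prop))
    (integrableOn_cube (by fun_prop))
  rw [integral_norm_sq hb, integral_norm_sq hc, ← mul_pow] at h2
  exact le_of_sq_le_sq h2 (mul_nonneg (n2_nonneg _) (n2_nonneg _))
where
  le_of_sq_le_sq {x y : ℝ} (h : x ^ 2 ≤ y ^ 2) (hy : 0 ≤ y) : x ≤ y := by
    by_contra hc
    push Not at hc
    nlinarith

theorem tri_comm12 (a b c : K3 → ℂ) : Tri a b c = Tri b a c := by
  unfold Tri
  rw [← (Equiv.prodComm K3 K3).tsum_eq]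
  refine tsum_congr fun p => ?_
  simp only [Equiv.prodComm_apply, Prod.fst_swap, Prod.snd_swap]
  rw [show -p.2 - p.1 = -p.1 - p.2 by abel]
  ring

/-- The involution `(k, l) ↦ (k, -k-l)`. -/
def inv23 : K3 × K3 ≃ K3 × K3 where
  toFun p := (p.1, -p.1 - p.2)
  invFun p := (p.1, -p.1 - p.2)
  left_inv p := by ext <;> simp
  right_inv p := by ext <;> simp

theorem tri_comm23 (a b c : K3 → ℂ) : Tri a b c = Tri a c b := by
  unfold Tri
  rw [← inv23.tsum_eq]
  refine tsum_congr fun p => ?_
  have : inv23 p = (p.1, -p.1 - p.2) := rfl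
  rw [this]
  simp only
  rw [show -p.1 - (-p.1 - p.2) = p.2 by abel]
  ring

theorem norm_tri_le2 {a b c : K3 → ℂ} (ha : Summable a) (hb : Summable b) (hc : Summable c)
    {M : ℝ} (hM : ∀ x, ‖S b x‖ ≤ M) : ‖Tri a b c‖ ≤ M * (n2 a * n2 c) := by
  rw [tri_comm12]
  exact norm_tri_le hb ha hc hM

theorem norm_tri_le3 {a b c : K3 → ℂ} (ha : Summable a) (hb : Summable b) (hc : Summable c)
    {M : ℝ} (hM : ∀ x, ‖S c x‖ ≤ M) : ‖Tri a b c‖ ≤ M * (n2 a * n2 b) := by
  rw [tri_comm23, tri_comm12]
  exact norm_tri_le hc ha hb hM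

end H459R3.NS
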