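import Pool.Agent.H459R3.NS.Mult

/-!
The Sobolev inequality on the torus.
-/

open MeasureTheory Set Filter Topology
open scoped ContDiff ENNReal NNReal

namespace H459R3.NS

/-- the box `[-1, 2]³` -/
def box : Set V := Icc (-1) 2

theorem measurableSet_cube : MeasurableSet cube := measurableSet_Icc

theorem lintegral_box_le {h : V → ℝ≥0∞} (hm : Measurable h) (hp : Per h) :
    ∫⁻ x in box, h x ≤ 27 * ∫⁻ x in cube, h x := by
  set S : (Fin 3 → Fin 3) → Set V := fun n =>
    (fun x => x + (fun i => ((1 - (n i : ℤ) : ℤ) : ℝ))) ⁻¹' cube with hS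
  have hcov : box ⊆ ⋃ n, S n := by
    intro x hx
    have hx1 : ∀ i, -1 ≤ x i := fun i => hx.1 i
    have hx2 : ∀ i, x i ≤ 2 := fun i => hx.2 i
    rw [mem_iUnion]
    have : ∀ i, ∃ n : Fin 3, 0 ≤ x i + ((1 - (n : ℤ) : ℤ) : ℝ) ∧
        x i + ((1 - (n : ℤ) : ℤ) : ℝ) ≤ 1 := by
      intro i
      rcases le_total (x i) 0 with h | h
      · exact ⟨0, by simp; linarith [hx1 i], by simp; linarith⟩
      · rcases le_total (x i) 1 with h' | h'
        · exact ⟨1, by simp; linarith, by simp; linarith⟩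
        · refine ⟨2, ?_, ?_⟩
          · have : (((2 : Fin 3) : ℕ) : ℤ) = 2 := rfl
            rw [this]; push_cast; linarith
          · have : (((2 : Fin 3) : ℕ) : ℤ) = 2 := rfl
            rw [this]; push_cast; linarith [hx2 i]
    choose n hn using this
    exact ⟨n, fun i => (hn i).1, fun i => (hn i).2⟩
  have hone : ∀ n, ∫⁻ x in S n, h x = ∫⁻ x in cube, h x := by
    intro n
    have h1 := (measurePreserving_add_right (volume : Measure V)
      (fun i => ((1 - (n i : ℤ) : ℤ) : ℝ))).setLIntegral_comp_preimage measurableSet_cube hm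
    rw [← h1]
    congr 1
    funext x
    exact (hp.int (fun i => 1 - (n i : ℤ)) x).symm
  calc ∫⁻ x in box, h x ≤ ∫⁻ x in ⋃ n, S n, h x := lintegral_mono_set hcov
    _ ≤ ∑' n, ∫⁻ x in S n, h x := lintegral_iUnion_le _ _
    _ = 27 * ∫⁻ x in cube, h x := by
      simp_rw [hone]
      rw [tsum_fintype, Finset.sum_const, Finset.card_univ]
      simp

theorem fderiv_norm_le {f : V → ℝ} (x : V) : ‖fderiv ℝ f x‖ ≤ ∑ j, |pd j f x| := by
  refine ContinuousLinearMap.opNorm_le_bound _ (Finset.sum_nonneg fun _ _ => abs_nonneg _)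
    fun v => ?_
  have e : fderiv ℝ f x v = ∑ j, v j * pd j f x := by
    conv_lhs => rw [← Finset.univ_sum_single v]
    rw [map_sum]
    refine Finset.sum_congr rfl fun j _ => ?_
    have : (Pi.single j (v j) : V) = v j • Pi.single j 1 := by
      rw [← Pi.single_smul]; simp
    rw [this, map_smul]
    rfl
  rw [e, Real.norm_eq_abs, Finset.sum_mul]
  refine (Finset.abs_sum_le_sum_abs _ _).trans (Finset.sum_le_sum fun j _ => ?_)
  rw [abs_mul, mul_comm]
  refine mul_le_mul_of_nonneg_left ?_ (abs_nonneg _)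
  rw [← Real.norm_eq_abs]
  exact norm_le_pi_norm v j

theorem sobolev : ∃ C : ℝ, 0 ≤ C ∧ ∀ f : V → ℝ, SP f →
    eLpNorm f 6 (volume.restrict cube)
      ≤ ENNReal.ofReal (C * Real.sqrt ((∑ j, ∫ x in cube, pd j f x ^ 2) + ∫ x in cube, f x ^ 2)) := by
  -- the bump function
  set c : V := fun _ => 1 / 2 with hc
  let χ : ContDiffBump c := ⟨1 / 2, 1, by norm_num, by norm_num⟩
  have hχ1 : ∀ x ∈ cube, χ x = 1 := by
    intro x hx
    refine χ.one_of_mem_closedBall ?_
    rw [Metric.mem_closedBall, dist_pi_le_iff (by norm_num)]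
    intro i
    have h1 : 0 ≤ x i := hx.1 i
    have h2 : x i ≤ 1 := hx.2 i
    rw [Real.dist_eq, abs_le]
    constructor
    · show -(1 / 2 : ℝ) ≤ x i - 1 / 2
      linarith
    · show x i - 1 / 2 ≤ (1 / 2 : ℝ)
      linarith
  have hχs : ∀ x, x ∉ box → χ =ᶠ[𝓝 x] 0 := by
    intro x hx
    have h1 : x ∉ tsupport χ := by
      rw [χ.tsupport_eq]
      intro h2
      apply hx
      rw [Metric.mem_closedBall, dist_pi_le_iff (by exact χ.rOut_pos.le)] at h2
      constructor
      · intro i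
        have := h2 i
        rw [Real.dist_eq, abs_le] at this
        have h3 : -(1 : ℝ) ≤ x i - 1 / 2 := this.1
        show (-1 : ℝ) ≤ x i
        linarith
      · intro i
        have := h2 i
        rw [Real.dist_eq, abs_le] at this
        have h3 : x i - 1 / 2 ≤ (1 : ℝ) := this.2
        show x i ≤ (2 : ℝ)
        linarith
    exact notMem_tsupport_iff_eventuallyEq.1 h1
  obtain ⟨M0, hM0⟩ : ∃ M, ∀ x, ‖fderiv ℝ χ x‖ ≤ M := by
    have h1 : HasCompactSupport (fderiv ℝ (χ : V → ℝ)) := χ.hasCompactSupport.fderiv (𝕜 := ℝ)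
    have h2 : Continuous (fderiv ℝ (χ : V → ℝ)) :=
      (χ.contDiff (n := 1)).continuous_fderiv one_ne_zero
    exact h1.exists_bound_of_continuous h2
  set M : ℝ := max M0 1 with hM
  have hM1 : 1 ≤ M := le_max_right _ _
  have hMd : ∀ x, ‖fderiv ℝ χ x‖ ≤ M := fun x => (hM0 x).trans (le_max_left _ _)
  set K : ℝ≥0 := SNormLESNormFDerivOfEqConst ℝ (volume : Measure V) 2 with hK
  refine ⟨K * Real.sqrt (216 * M ^ 2), by positivity, fun f hf => ?_⟩
  set g : V → ℝ := fun x => χ x * f x with hg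
  have hgs : ContDiff ℝ 1 g := (χ.contDiff).mul (hf.smooth.of_le (by norm_cast))
  have hgc : HasCompactSupport g := χ.hasCompactSupport.mul_right
  have hfin : Module.finrank ℝ V = 3 := by simp
  have h1 : eLpNorm g ((6 : ℝ≥0) : ℝ≥0∞) volume
      ≤ K * eLpNorm (fderiv ℝ g) ((2 : ℝ≥0) : ℝ≥0∞) volume :=
    eLpNorm_le_eLpNorm_fderiv_of_eq (volume : Measure V) (p := 2) (p' := 6) hgs hgc
      (by norm_num) (by rw [hfin]; norm_num) (by rw [hfin]; norm_num)
  -- left side
  have h2 : eLpNorm f 6 (volume.restrict cube) ≤ eLpNorm g ((6 : ℝ≥0) : ℝ≥0∞) volume := by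
    have e : eLpNorm f 6 (volume.restrict cube) = eLpNorm g 6 (volume.restrict cube) := by
      refine eLpNorm_congr_ae ?_
      filter_upwards [ae_restrict_mem measurableSet_cube] with x hx
      simp only [hg, hχ1 x hx, one_mul]
    rw [e]
    exact eLpNorm_mono_measure _ Measure.restrict_le_self
  -- right side
  set Φ : V → ℝ := fun x => (∑ j, pd j f x ^ 2) + f x ^ 2 with hΦ
  have hΦc : Continuous Φ := by
    have : ∀ j, Continuous (pd j f) := fun j => (hf.pd j).cont
    have := hf.cont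
    fun_prop
  have hΦp : Per Φ := by
    intro i x
    simp only [hΦ, (hf.pd _).per i x, hf.per i x]
  have hΦ0 : ∀ x, 0 ≤ Φ x := fun x => by positivity
  have h3 : ∀ x, ‖fderiv ℝ g x‖ ^ 2 ≤ box.indicator (fun x => 8 * M ^ 2 * Φ x) x := by
    intro x
    by_cases hx : x ∈ box
    · rw [indicator_of_mem hx]
      have hd : HasFDerivAt g _ x :=
        (((χ.contDiff (n := 1)).differentiable one_ne_zero x).hasFDerivAt).mul
        (hf.diff x).hasFDerivAt
      rw [hd.fderiv]
      have a1 : ‖χ x • fderiv ℝ f x + f x • fderiv ℝ χ x‖ ≤ M * ((∑ j, |pd j f x|) + |f x|) := by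
        refine (norm_add_le _ _).trans ?_
        rw [norm_smul, norm_smul, Real.norm_eq_abs, Real.norm_eq_abs, abs_of_nonneg χ.nonneg]
        have b1 : χ x * ‖fderiv ℝ f x‖ ≤ M * ∑ j, |pd j f x| :=
          mul_le_mul (χ.le_one.trans hM1) (fderiv_norm_le x) (norm_nonneg _) (by positivity)
        have b2 : |f x| * ‖fderiv ℝ χ x‖ ≤ |f x| * M :=
          mul_le_mul_of_nonneg_left (hMd x) (abs_nonneg _)
        linarith
      calc _ ≤ (M * ((∑ j, |pd j f x|) + |f x|)) ^ 2 := pow_le_pow_left₀ (norm_nonneg _) a1 2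
        _ ≤ 8 * M ^ 2 * Φ x := by
          rw [mul_pow]
          have b3 : ((∑ j, |pd j f x|) + |f x|) ^ 2 ≤ 8 * Φ x := by
            simp only [hΦ, Fin.sum_univ_three]
            rw [← sq_abs (pd 0 f x), ← sq_abs (pd 1 f x), ← sq_abs (pd 2 f x), ← sq_abs (f x)]
            nlinarith [sq_nonneg (|pd 0 f x| - |pd 1 f x|), sq_nonneg (|pd 0 f x| - |pd 2 f x|),
              sq_nonneg (|pd 0 f x| - |f x|), sq_nonneg (|pd 1 f x| - |pd 2 f x|),
              sq_nonneg (|pd 1 f x| - |f x|), sq_nonneg (|pd 2 f x| - |f x|)]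
          have b4 := mul_le_mul_of_nonneg_left b3 (sq_nonneg M)
          linarith
    · rw [indicator_of_notMem hx]
      have h4 : g =ᶠ[𝓝 x] 0 := by
        filter_upwards [hχs x hx] with y hy
        simp only [hg, hy, Pi.zero_apply, zero_mul]
      rw [h4.fderiv_eq]
      simp
  have h5 : eLpNorm (fderiv ℝ g) ((2 : ℝ≥0) : ℝ≥0∞) volume
      ≤ ENNReal.ofReal (Real.sqrt (216 * M ^ 2) * Real.sqrt (∫ x in cube, Φ x)) := by
    rw [eLpNorm_eq_lintegral_rpow_enorm_toReal (by norm_num) (by norm_num)]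
    have e1 : ((2 : ℝ≥0) : ℝ≥0∞).toReal = 2 := by norm_num
    rw [e1]
    have a1 : ∫⁻ x, ‖fderiv ℝ g x‖ₑ ^ (2 : ℝ)
        ≤ ENNReal.ofReal (216 * M ^ 2 * ∫ x in cube, Φ x) := by
      calc ∫⁻ x, ‖fderiv ℝ g x‖ₑ ^ (2 : ℝ)
          ≤ ∫⁻ x, box.indicator (fun x => ENNReal.ofReal (8 * M ^ 2 * Φ x)) x := by
            refine lintegral_mono fun x => ?_
            have e2 : ‖fderiv ℝ g x‖ₑ ^ (2 : ℝ) = ENNReal.ofReal (‖fderiv ℝ g x‖ ^ 2) := by
              rw [← ofReal_norm_eq_enorm, ENNReal.ofReal_rpow_of_nonneg (norm_nonneg _)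
                (by norm_num)]
              norm_cast
            rw [e2]
            refine (ENNReal.ofReal_le_ofReal (h3 x)).trans (le_of_eq ?_)
            by_cases hx : x ∈ box
            · rw [indicator_of_mem hx, indicator_of_mem hx]
            · rw [indicator_of_notMem hx, indicator_of_notMem hx, ENNReal.ofReal_zero]
        _ = ∫⁻ x in box, ENNReal.ofReal (8 * M ^ 2 * Φ x) :=
            lintegral_indicator measurableSet_Icc _
        _ ≤ 27 * ∫⁻ x in cube, ENNReal.ofReal (8 * M ^ 2 * Φ x) := by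
            refine lintegral_box_le ?_ ?_
            · exact (continuous_const.mul hΦc).measurable.ennreal_ofReal
            · intro i x
              simp only [hΦp i x]
        _ = 27 * ENNReal.ofReal (∫ x in cube, 8 * M ^ 2 * Φ x) := by
            rw [ofReal_integral_eq_lintegral_ofReal (f := fun x => 8 * M ^ 2 * Φ x)
              (integrableOn_cube (continuous_const.mul hΦc))
              (Eventually.of_forall fun x => mul_nonneg (by positivity) (hΦ0 x))]
        _ = _ := by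
            rw [show (27 : ℝ≥0∞) = ENNReal.ofReal 27 by simp,
              ← ENNReal.ofReal_mul (by norm_num), integral_const_mul]
            congr 1
            ring
    have hI : 0 ≤ ∫ x in cube, Φ x := integral_nonneg hΦ0
    calc (∫⁻ x, ‖fderiv ℝ g x‖ₑ ^ (2 : ℝ)) ^ (1 / (2 : ℝ))
        ≤ (ENNReal.ofReal (216 * M ^ 2 * ∫ x in cube, Φ x)) ^ (1 / (2 : ℝ)) := by gcongr
      _ = ENNReal.ofReal (Real.sqrt (216 * M ^ 2 * ∫ x in cube, Φ x)) := by
        rw [ENNReal.ofReal_rpow_of_nonneg (by positivity) (by norm_num), ← Real.sqrt_eq_rpow]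
      _ = _ := by rw [Real.sqrt_mul (by positivity)]
  have h6 : ∫ x in cube, Φ x
      = (∑ j, ∫ x in cube, pd j f x ^ 2) + ∫ x in cube, f x ^ 2 := by
    simp only [hΦ]
    have i1 : ∀ j ∈ (Finset.univ : Finset (Fin 3)), IntegrableOn (fun x => pd j f x ^ 2) cube :=
      fun j _ => integrableOn_cube ((hf.pd j).cont.pow 2)
    have i2 : IntegrableOn (fun x => f x ^ 2) cube := integrableOn_cube (hf.cont.pow 2)
    rw [integral_add (integrable_finsetSum _ i1) i2, integral_finsetSum _ i1]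
  rw [h6] at h5
  refine h2.trans (h1.trans ?_)
  calc K * eLpNorm (fderiv ℝ g) ((2 : ℝ≥0) : ℝ≥0∞) volume
      ≤ ENNReal.ofReal K * ENNReal.ofReal (Real.sqrt (216 * M ^ 2)
        * Real.sqrt ((∑ j, ∫ x in cube, pd j f x ^ 2) + ∫ x in cube, f x ^ 2)) := by
        rw [ENNReal.ofReal_coe_nnreal]
        gcongr
    _ = _ := by
        rw [← ENNReal.ofReal_mul (by positivity)]
        congr 1
        ring

end H459R3.NS
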