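import Pool.Agent.H459R3.NS.Evo

/-!
Smooth periodic solutions of the Navier-Stokes equations: energy and enstrophy.
-/

open MeasureTheory Set Filter Topology
open scoped ContDiff

namespace H459R3.NS

section

variable {ν T : ℝ} {u : ℝ → V → V} {p : ℝ → V → ℝ}

theorem IsSol.smooth_c (h : IsSol ν T u p) (i : Fin 3) :
    ContDiffOn ℝ ∞ (fun z : ℝ × V => u z.1 z.2 i) (Ico 0 T ×ˢ univ) :=
  (contDiffOn_pi.1 h.smooth_u) i

theorem IsSol.sp (h : IsSol ν T u p) {t : ℝ} (ht : t ∈ Ico 0 T) (i : Fin 3) :
    SP (fun y => u t y i) where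
  smooth := contDiff_slice (f := fun t y => u t y i) (h.smooth_c i) ht
  per := fun j x => by simp only [h.per_u t ht j x]

theorem IsSol.sp_p (h : IsSol ν T u p) {t : ℝ} (ht : t ∈ Ico 0 T) : SP (p t) where
  smooth := contDiff_slice h.smooth_p ht
  per := h.per_p t ht

theorem IsSol.dt_eq (h : IsSol ν T u p) {t : ℝ} (ht : t ∈ Ioo 0 T) (i : Fin 3) (x : V) :
    dt (fun s y => u s y i) t x = ν * lap (fun y => u t y i) x
      - conv (fun i y => u t y i) i x - pd i (p t) x := by
  have h1 := h.momentum t ht x i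
  unfold dt lap conv
  linarith

theorem IsSol.sp_dt (h : IsSol ν T u p) {t : ℝ} (ht : t ∈ Ioo 0 T) (i : Fin 3) :
    SP (dt (fun s y => u s y i) t) where
  smooth := contDiff_dt (f := fun s y => u s y i) (h.smooth_c i) ht
  per := fun j x => by
    have hI : t ∈ Ico 0 T := ⟨ht.1.le, ht.2⟩
    rw [h.dt_eq ht, h.dt_eq ht, (h.sp hI i).lap.per j x,
      (sp_conv (v := fun i y => u t y i) (fun i => h.sp hI i) i).per j x,
      ((h.sp_p hI).pd i).per j x]

theorem IsSol.energy_hasDerivAt (h : IsSol ν T u p) {t : ℝ} (ht : t ∈ Ioo 0 T) :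
    HasDerivAt (fun s => energy (u s)) (-(2 * ν * enstrophy (u t))) t := by
  have hI : t ∈ Ico 0 T := ⟨ht.1.le, ht.2⟩
  set v : Fin 3 → V → ℝ := fun i y => u t y i with hv
  have hsp : ∀ i, SP (v i) := fun i => h.sp hI i
  have hdiv : ∀ x, ∑ i, pd i (v i) x = 0 := h.divfree t hI
  have h1 : ∀ i, HasDerivAt (fun s => ∫ x in cube, u s x i ^ 2)
      (2 * ∫ x in cube, v i x * dt (fun s y => u s y i) t x) t := by
    intro i
    have hF : ContDiffOn ℝ 1 (fun z : ℝ × V => u z.1 z.2 i ^ 2) (Ioo 0 T ×ˢ univ) :=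
      (mono_Ioo (f := fun s y => u s y i) (h.smooth_c i) (by norm_cast)).pow 2
    have key := hasDerivAt_int (F := fun s x => u s x i ^ 2) hF ht
    refine key.congr_deriv ?_
    rw [← integral_const_mul]
    congr 1
    funext x
    have h2 : HasDerivAt (fun s => u s x i) (dt (fun s y => u s y i) t x) t := by
      have := hasDerivAt_slice (F := fun s y => u s y i)
        (mono_Ioo (f := fun s y => u s y i) (h.smooth_c i) (by norm_cast)) ht x
      rwa [← NS.dt_eq (f := fun s y => u s y i) (h.smooth_c i) ht x] at this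
    have h3 : HasDerivAt (fun s => u s x i ^ 2) _ t := h2.pow 2
    rw [h3.deriv]
    simp only [hv]
    push_cast
    ring
  have h2 : HasDerivAt (fun s => energy (u s))
      (∑ i, 2 * ∫ x in cube, v i x * dt (fun s y => u s y i) t x) t :=
    HasDerivAt.fun_sum fun i _ => h1 i
  refine h2.congr_deriv ?_
  have e1 : ∀ i, ∫ x in cube, v i x * dt (fun s y => u s y i) t x
      = ν * (∫ x in cube, lap (v i) x * v i x) - (∫ x in cube, v i x * conv v i x)
        - ∫ x in cube, v i x * pd i (p t) x := by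
    intro i
    have e : ∀ x, v i x * dt (fun s y => u s y i) t x
        = ν * (lap (v i) x * v i x) - v i x * conv v i x - v i x * pd i (p t) x := by
      intro x
      rw [h.dt_eq ht]
      ring
    simp_rw [e]
    have i1 : IntegrableOn (fun x => ν * (lap (v i) x * v i x)) cube :=
      ((hsp i).lap.mul (hsp i)).int.const_mul ν
    have i2 : IntegrableOn (fun x => v i x * conv v i x) cube :=
      ((hsp i).mul (sp_conv hsp i)).int
    have i3 : IntegrableOn (fun x => v i x * pd i (p t) x) cube :=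
      ((hsp i).mul ((h.sp_p hI).pd i)).int
    have i12 : IntegrableOn (fun x => ν * (lap (v i) x * v i x) - v i x * conv v i x) cube :=
      i1.sub i2
    rw [integral_sub i12 i3, integral_sub i1 i2, integral_const_mul]
  simp_rw [e1]
  rw [← Finset.mul_sum, Finset.sum_sub_distrib, Finset.sum_sub_distrib, int_conv hsp hdiv,
    int_press hsp hdiv (h.sp_p hI), ← Finset.mul_sum]
  have e2 : ∑ i, ∫ x in cube, lap (v i) x * v i x = -enstrophy (u t) := by
    unfold enstrophy
    rw [← Finset.sum_neg_distrib]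
    refine Finset.sum_congr rfl fun i _ => ?_
    rw [int_lap_mul (hsp i) (hsp i)]
    congr 1
    refine Finset.sum_congr rfl fun j _ => ?_
    congr 1
    funext x
    rw [sq]
  rw [e2]
  ring

theorem IsSol.enstrophy_hasDerivAt (h : IsSol ν T u p) {t : ℝ} (ht : t ∈ Ioo 0 T) :
    HasDerivAt (fun s => enstrophy (u s))
      (-(2 * ν * palin (u t)) - 2 * cub (fun i y => u t y i)) t := by
  have hI : t ∈ Ico 0 T := ⟨ht.1.le, ht.2⟩
  set v : Fin 3 → V → ℝ := fun i y => u t y i with hv
  have hsp : ∀ i, SP (v i) := fun i => h.sp hI i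
  have hdiv : ∀ x, ∑ i, pd i (v i) x = 0 := h.divfree t hI
  have h1 : ∀ i j, HasDerivAt (fun s => ∫ x in cube, pd j (fun y => u s y i) x ^ 2)
      (2 * ∫ x in cube, pd j (v i) x * pd j (dt (fun s y => u s y i) t) x) t := by
    intro i j
    have hG : ContDiffOn ℝ ∞ (fun z : ℝ × V => pd j (fun y => u z.1 y i) z.2)
        (Ico 0 T ×ˢ univ) := contDiffOn_pd (f := fun s y => u s y i) (h.smooth_c i) j
    have hG1 : ContDiffOn ℝ 1 (fun z : ℝ × V => pd j (fun y => u z.1 y i) z.2)
        (Ioo 0 T ×ˢ univ) :=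
      mono_Ioo (f := fun s x => pd j (fun y => u s y i) x) hG (by norm_cast)
    have hF : ContDiffOn ℝ 1 (fun z : ℝ × V => pd j (fun y => u z.1 y i) z.2 ^ 2)
        (Ioo 0 T ×ˢ univ) := hG1.pow 2
    have key := hasDerivAt_int (F := fun s x => pd j (fun y => u s y i) x ^ 2) hF ht
    refine key.congr_deriv ?_
    rw [← integral_const_mul]
    congr 1
    funext x
    have h2 : HasDerivAt (fun s => pd j (fun y => u s y i) x)
        (pd j (dt (fun s y => u s y i) t) x) t := by
      have h3 := hasDerivAt_slice (F := fun s x => pd j (fun y => u s y i) x) hG1 ht x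
      have h4 := dt_pd (f := fun s y => u s y i) (h.smooth_c i) ht j x
      rw [NS.dt_eq (f := fun s => pd j (fun y => u s y i)) hG ht x] at h4
      rwa [h4] at h3
    have h3 : HasDerivAt (fun s => pd j (fun y => u s y i) x ^ 2) _ t := h2.pow 2
    rw [h3.deriv]
    simp only [hv]
    push_cast
    ring
  have h2 : HasDerivAt (fun s => enstrophy (u s))
      (∑ i, ∑ j, 2 * ∫ x in cube, pd j (v i) x * pd j (dt (fun s y => u s y i) t) x) t :=
    HasDerivAt.fun_sum fun i _ => HasDerivAt.fun_sum fun j _ => h1 i j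
  refine h2.congr_deriv ?_
  have e0 : ∀ i, ∑ j, 2 * ∫ x in cube, pd j (v i) x * pd j (dt (fun s y => u s y i) t) x
      = -2 * ∫ x in cube, lap (v i) x * dt (fun s y => u s y i) t x := by
    intro i
    rw [← Finset.mul_sum, int_lap_mul (hsp i) (h.sp_dt ht i)]
    ring
  simp_rw [e0]
  have e1 : ∀ i, ∫ x in cube, lap (v i) x * dt (fun s y => u s y i) t x
      = ν * (∫ x in cube, lap (v i) x ^ 2) - (∫ x in cube, lap (v i) x * conv v i x)
        - ∫ x in cube, lap (v i) x * pd i (p t) x := by
    intro i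
    have e : ∀ x, lap (v i) x * dt (fun s y => u s y i) t x
        = ν * (lap (v i) x ^ 2) - lap (v i) x * conv v i x - lap (v i) x * pd i (p t) x := by
      intro x
      rw [h.dt_eq ht]
      ring
    simp_rw [e]
    have i1 : IntegrableOn (fun x => ν * (lap (v i) x ^ 2)) cube := by
      have hc := (hsp i).lap.cont
      exact integrableOn_cube (continuous_const.mul (hc.pow 2))
    have i2 : IntegrableOn (fun x => lap (v i) x * conv v i x) cube :=
      ((hsp i).lap.mul (sp_conv hsp i)).int
    have i3 : IntegrableOn (fun x => lap (v i) x * pd i (p t) x) cube :=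
      ((hsp i).lap.mul ((h.sp_p hI).pd i)).int
    have i12 : IntegrableOn (fun x => ν * (lap (v i) x ^ 2) - lap (v i) x * conv v i x) cube :=
      i1.sub i2
    rw [integral_sub i12 i3, integral_sub i1 i2, integral_const_mul]
  simp_rw [e1]
  rw [← Finset.mul_sum, Finset.sum_sub_distrib, Finset.sum_sub_distrib, int_lap_conv hsp hdiv,
    int_lap_press hsp hdiv (h.sp_p hI), ← Finset.mul_sum]
  unfold palin
  ring

theorem IsSol.energy_continuousOn (h : IsSol ν T u p) :
    ContinuousOn (fun s => energy (u s)) (Ico 0 T) := by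
  unfold energy
  refine continuousOn_finsetSum _ fun i _ => ?_
  exact continuousOn_int (F := fun s x => u s x i ^ 2) ((h.smooth_c i).continuousOn.pow 2)

theorem IsSol.enstrophy_continuousOn (h : IsSol ν T u p) :
    ContinuousOn (fun s => enstrophy (u s)) (Ico 0 T) := by
  unfold enstrophy
  refine continuousOn_finsetSum _ fun i _ => continuousOn_finsetSum _ fun j _ => ?_
  exact continuousOn_int (F := fun s x => pd j (fun y => u s y i) x ^ 2)
    ((contDiffOn_pd (f := fun s y => u s y i) (h.smooth_c i) j).continuousOn.pow 2)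

end

end H459R3.NS
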