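import Pool.Agent.H459R3.NS.Ser

/-!
Two-dimensional sets of frequencies.
-/

open MeasureTheory Set Filter Topology
open scoped ENNReal

namespace H459R3.NS

/-- The sup norm. -/
def N (k : K3) : ℕ := Finset.univ.sup fun j => (k j).natAbs

theorem N_le_iff (k : K3) (r : ℕ) : N k ≤ r ↔ ∀ j, |k j| ≤ r := by
  unfold N
  rw [Finset.sup_le_iff]
  refine ⟨fun h j => ?_, fun h j _ => ?_⟩
  · have := h j (Finset.mem_univ j)
    rw [← Int.natCast_natAbs]; exact_mod_cast this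
  · have := h j
    rw [← Int.natCast_natAbs] at this; exact_mod_cast this

theorem N_eq_zero {k : K3} : N k = 0 ↔ k = 0 := by
  rw [← Nat.le_zero, N_le_iff]
  constructor
  · intro h
    funext j
    have := h j
    simpa using this
  · rintro rfl j
    simp

theorem N_neg (k : K3) : N (-k) = N k := by
  unfold N
  simp

theorem finite_box (x : K3) (r : ℕ) : {q : K3 | N (q - x) ≤ r}.Finite := by
  refine (Set.finite_Icc (fun j => x j - r) (fun j => x j + r)).subset fun q hq => ?_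
  have h := (N_le_iff _ _).1 hq
  constructor
  · intro j
    have := (abs_le.1 (h j)).1
    simp only [Pi.sub_apply] at this
    linarith
  · intro j
    have := (abs_le.1 (h j)).2
    simp only [Pi.sub_apply] at this
    linarith

theorem inv_telescope (n L : ℕ) (hn : 1 ≤ n) (hL : n ≤ L) :
    (1 : ℝ) / n = 1 / L + ∑ m ∈ Finset.Ico 1 L, if n ≤ m then (1 : ℝ) / (m * (m + 1)) else 0 := by
  induction L, hL using Nat.le_induction with
  | base =>
    have : ∑ m ∈ Finset.Ico 1 n, (if n ≤ m then (1 : ℝ) / (m * (m + 1)) else 0) = 0 := by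
      refine Finset.sum_eq_zero fun m hm => ?_
      rw [Finset.mem_Ico] at hm
      rw [if_neg (by omega)]
    rw [this, add_zero]
  | succ L hL ih =>
    rw [Finset.sum_Ico_succ_top (by omega), if_pos hL, ih]
    have h1 : (0 : ℝ) < L := by exact_mod_cast (by omega : 0 < L)
    push_cast
    field_simp
    ring

theorem thin_real {A : ℝ} {Q : Set K3} (hQ : DimTwo A Q) (x : K3) (L : ℕ) (hL : 1 ≤ L)
    (F : Finset K3) (hF : ∀ q ∈ F, q ∈ Q ∧ 0 < N (q - x) ∧ N (q - x) ≤ L) :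
    ∑ q ∈ F, (1 : ℝ) / N (q - x) ≤ 2 * A * L := by
  have hcount : ∀ r : ℕ, 1 ≤ r →
      ((F.filter fun q => N (q - x) ≤ r).card : ℝ) ≤ A * r ^ 2 := by
    intro r hr
    refine le_trans ?_ (hQ x r hr)
    have h1 : ((F.filter fun q => N (q - x) ≤ r : Finset K3) : Set K3)
        ⊆ {q ∈ Q | ∀ j, |q j - x j| ≤ r} := by
      intro q hq
      rw [Finset.mem_coe, Finset.mem_filter] at hq
      exact ⟨(hF q hq.1).1, (N_le_iff (q - x) r).1 hq.2⟩
    have h2 : ({q ∈ Q | ∀ j, |q j - x j| ≤ r}).Finite :=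
      (finite_box x r).subset fun q hq => (N_le_iff (q - x) r).2 hq.2
    have h3 := Set.ncard_le_ncard h1 h2
    rw [Set.ncard_coe_finset] at h3
    exact_mod_cast h3
  have hA : 0 ≤ A := by
    have := hcount 1 le_rfl
    simp only [Nat.cast_one, one_pow, mul_one] at this
    exact le_trans (by positivity) this
  have e1 : ∑ q ∈ F, (1 : ℝ) / N (q - x)
      = ∑ q ∈ F, (1 / (L : ℝ) + ∑ m ∈ Finset.Ico 1 L,
        if N (q - x) ≤ m then (1 : ℝ) / (m * (m + 1)) else 0) :=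
    Finset.sum_congr rfl fun q hq => inv_telescope _ _ (hF q hq).2.1 (hF q hq).2.2
  rw [e1, Finset.sum_add_distrib, Finset.sum_comm]
  have e2 : ∀ m ∈ Finset.Ico 1 L, ∑ q ∈ F, (if N (q - x) ≤ m then (1 : ℝ) / (m * (m + 1)) else 0)
      ≤ A := by
    intro m hm
    rw [Finset.mem_Ico] at hm
    rw [← Finset.sum_filter, Finset.sum_const, nsmul_eq_mul]
    have h1 := hcount m hm.1
    have hm0 : (0 : ℝ) < m := by exact_mod_cast (by omega : 0 < m)
    calc ((F.filter fun q => N (q - x) ≤ m).card : ℝ) * (1 / (m * (m + 1)))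
        ≤ (A * m ^ 2) * (1 / (m * (m + 1))) := by gcongr
      _ = A * (m / (m + 1)) := by field_simp
      _ ≤ A * 1 := by
        gcongr
        rw [div_le_one (by positivity)]
        linarith
      _ = A := mul_one A
  have e3 : ∑ q ∈ F, 1 / (L : ℝ) ≤ A * L := by
    rw [Finset.sum_const, nsmul_eq_mul]
    have h1 := hcount L hL
    rw [Finset.filter_true_of_mem fun q hq => (hF q hq).2.2] at h1
    have hL0 : (0 : ℝ) < L := by exact_mod_cast (by omega : 0 < L)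
    calc (F.card : ℝ) * (1 / L) ≤ (A * L ^ 2) * (1 / L) := by gcongr
      _ = A * L := by field_simp
  have e4 := Finset.sum_le_sum e2
  rw [Finset.sum_const, Nat.card_Ico, nsmul_eq_mul] at e4
  have h5 : ((L - 1 : ℕ) : ℝ) * A ≤ L * A := by
    gcongr
    omega
  linarith

theorem DimTwo.nonneg {A : ℝ} {Q : Set K3} (hQ : DimTwo A Q) : 0 ≤ A := by
  have := hQ 0 1 le_rfl
  simp only [Nat.cast_one, one_pow, mul_one] at this
  exact le_trans (by positivity) this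

open Classical in
theorem thin_enn {A : ℝ} {Q : Set K3} (hQ : DimTwo A Q) (l : K3) :
    ∑' q : K3, (if q ∈ Q ∧ 0 < N (q + l) ∧ N (q + l) ≤ N l then ((N (q + l) : ℝ≥0∞))⁻¹ else 0)
      ≤ ENNReal.ofReal (2 * A) * N l := by
  rw [ENNReal.tsum_eq_iSup_sum]
  refine iSup_le fun F => ?_
  rw [← Finset.sum_filter]
  set G := F.filter fun q => q ∈ Q ∧ 0 < N (q + l) ∧ N (q + l) ≤ N l with hG
  rcases Nat.eq_zero_or_pos (N l) with h0 | h0
  · have : G = ∅ := by
      rw [hG, Finset.filter_eq_empty_iff]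
      rintro q _ ⟨_, h1, h2⟩
      omega
    rw [this]; simp
  have hF : ∀ q ∈ G, q ∈ Q ∧ 0 < N (q - (-l)) ∧ N (q - (-l)) ≤ N l := by
    intro q hq
    rw [hG, Finset.mem_filter] at hq
    rw [sub_neg_eq_add]
    exact hq.2
  have h1 := thin_real hQ (-l) (N l) h0 G hF
  have e : ∑ q ∈ G, ((N (q + l) : ℝ≥0∞))⁻¹
      = ENNReal.ofReal (∑ q ∈ G, (1 : ℝ) / N (q - (-l))) := by
    rw [ENNReal.ofReal_sum_of_nonneg fun q _ => by positivity]
    refine Finset.sum_congr rfl fun q hq => ?_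
    have h2 := (hF q hq).2.1
    rw [sub_neg_eq_add] at h2 ⊢
    rw [one_div, ENNReal.ofReal_inv_of_pos (by exact_mod_cast h2), ENNReal.ofReal_natCast]
  rw [e]
  refine (ENNReal.ofReal_le_ofReal h1).trans ?_
  rw [ENNReal.ofReal_mul (mul_nonneg zero_le_two hQ.nonneg), ENNReal.ofReal_natCast]

/-- Cauchy-Schwarz -/
theorem enn_cs {ι : Type*} [Countable ι] (f g : ι → ℝ≥0∞) :
    (∑' i, f i * g i) ≤ (∑' i, f i ^ 2) ^ (1 / 2 : ℝ) * (∑' i, g i ^ 2) ^ (1 / 2 : ℝ) := by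
  letI : MeasurableSpace ι := ⊤
  have h := ENNReal.lintegral_mul_le_Lp_mul_Lq (Measure.count : Measure ι)
    (by rw [Real.holderConjugate_iff]; norm_num : Real.HolderConjugate 2 2)
    (f := f) (g := g) measurable_from_top.aemeasurable measurable_from_top.aemeasurable
  simp only [lintegral_count, Pi.mul_apply] at h
  have e : ∀ f : ι → ℝ≥0∞, (∑' i, f i ^ (2 : ℝ)) = ∑' i, f i ^ 2 := by
    intro f
    exact tsum_congr fun i => by rw [← ENNReal.rpow_natCast]; norm_num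
  rw [e, e] at h
  exact h

theorem enn_half_sq (x : ℝ≥0∞) : (x ^ (1 / 2 : ℝ)) ^ 2 = x := by
  rw [← ENNReal.rpow_natCast, ← ENNReal.rpow_mul]
  norm_num

/-- The `ℓ²` norm in extended reals -/
noncomputable def e2 (f : K3 → ℝ≥0∞) : ℝ≥0∞ := (∑' i, f i ^ 2) ^ (1 / 2 : ℝ)

open Classical in
theorem thin_half {A : ℝ} {Q : Set K3} (hQ : DimTwo A Q) (α β γ : K3 → ℝ≥0∞) :
    ∑' q : K3, ∑' k : K3, (if q ∈ Q ∧ 0 < N k ∧ N k ≤ N (-q - k) then
        α q * β k * γ (-q - k) else 0)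
      ≤ ENNReal.ofReal (2 * A) ^ (1 / 2 : ℝ) * (e2 α * e2 β * e2 (fun l => N l * γ l)) := by
  set ψ : K3 → K3 → ℝ≥0∞ := fun q k => if q ∈ Q ∧ 0 < N k ∧ N k ≤ N (-q - k) then
    (N (-q - k) * γ (-q - k)) * ((N (-q - k) : ℝ≥0∞)⁻¹) ^ (1 / 2 : ℝ)
      * ((N k : ℝ≥0∞)⁻¹) ^ (1 / 2 : ℝ) else 0 with hψ
  have h1 : ∀ q k, (if q ∈ Q ∧ 0 < N k ∧ N k ≤ N (-q - k) then
        α q * β k * γ (-q - k) else 0) ≤ α q * (β k * ψ q k) := by
    intro q k
    simp only [hψ]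
    split_ifs with h
    · obtain ⟨-, h1, h2⟩ := h
      set n := N k
      set m := N (-q - k)
      have hm0 : (m : ℝ≥0∞) ≠ 0 := by
        have : 0 < m := by omega
        exact_mod_cast this.ne'
      have key : (1 : ℝ≥0∞) ≤ m * ((m : ℝ≥0∞)⁻¹ ^ (1 / 2 : ℝ) * (n : ℝ≥0∞)⁻¹ ^ (1 / 2 : ℝ)) := by
        have e1 : (m : ℝ≥0∞)⁻¹ ^ (1 / 2 : ℝ) ≤ (n : ℝ≥0∞)⁻¹ ^ (1 / 2 : ℝ) := by
          refine ENNReal.rpow_le_rpow (ENNReal.inv_le_inv.2 ?_) (by norm_num)
          exact_mod_cast h2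
        calc (1 : ℝ≥0∞) = m * (m : ℝ≥0∞)⁻¹ :=
              (ENNReal.mul_inv_cancel hm0 (ENNReal.natCast_ne_top m)).symm
          _ = m * ((m : ℝ≥0∞)⁻¹ ^ (1 / 2 : ℝ) * (m : ℝ≥0∞)⁻¹ ^ (1 / 2 : ℝ)) := by
            rw [← sq, enn_half_sq]
          _ ≤ _ := by gcongr
      calc α q * β k * γ (-q - k) = α q * (β k * γ (-q - k)) * 1 := by ring
        _ ≤ α q * (β k * γ (-q - k))
            * (m * ((m : ℝ≥0∞)⁻¹ ^ (1 / 2 : ℝ) * (n : ℝ≥0∞)⁻¹ ^ (1 / 2 : ℝ))) := by gcongr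
        _ = _ := by ring
    · simp
  have h2 : ∀ q, ∑' k, α q * (β k * ψ q k) ≤ α q * (e2 β * (∑' k, ψ q k ^ 2) ^ (1 / 2 : ℝ)) := by
    intro q
    rw [ENNReal.tsum_mul_left]
    gcongr
    exact enn_cs _ _
  have h3 : ∑' q, ∑' k, ψ q k ^ 2 ≤ ENNReal.ofReal (2 * A) * ∑' l, (N l * γ l) ^ 2 := by
    have e1 : ∀ q, ∑' k, ψ q k ^ 2 = ∑' l, ψ q (-q - l) ^ 2 := by
      intro q
      rw [← (Equiv.subLeft (-q)).tsum_eq]
      rfl
    simp_rw [e1]
    rw [ENNReal.tsum_comm, ← ENNReal.tsum_mul_left]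
    refine ENNReal.tsum_le_tsum fun l => ?_
    have e2 : ∀ q, ψ q (-q - l) ^ 2 ≤ (N l * γ l) ^ 2 * (N l : ℝ≥0∞)⁻¹ *
        (if q ∈ Q ∧ 0 < N (q + l) ∧ N (q + l) ≤ N l then ((N (q + l) : ℝ≥0∞))⁻¹ else 0) := by
      intro q
      simp only [hψ]
      have ea : N (-q - l) = N (q + l) := by
        rw [← N_neg (q + l)]; congr 1; abel
      have eb : -q - (-q - l) = l := by abel
      rw [eb, ea]
      split_ifs with h
      · rw [mul_pow, mul_pow, enn_half_sq, enn_half_sq]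
      · simp
    refine (ENNReal.tsum_le_tsum e2).trans ?_
    rw [ENNReal.tsum_mul_left]
    refine (mul_le_mul_right (thin_enn hQ l) _).trans ?_
    rcases Nat.eq_zero_or_pos (N l) with h0 | h0
    · rw [h0]; simp
    · have hm0 : (N l : ℝ≥0∞) ≠ 0 := by exact_mod_cast h0.ne'
      calc (N l * γ l) ^ 2 * (N l : ℝ≥0∞)⁻¹ * (ENNReal.ofReal (2 * A) * N l)
          = (N l * γ l) ^ 2 * ENNReal.ofReal (2 * A) * (N l * (N l : ℝ≥0∞)⁻¹) := by ring
        _ = ENNReal.ofReal (2 * A) * (N l * γ l) ^ 2 := by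
          rw [ENNReal.mul_inv_cancel hm0 (ENNReal.natCast_ne_top _)]; ring
        _ ≤ _ := le_rfl
  calc ∑' q : K3, ∑' k : K3, (if q ∈ Q ∧ 0 < N k ∧ N k ≤ N (-q - k) then
        α q * β k * γ (-q - k) else 0)
      ≤ ∑' q, α q * (e2 β * (∑' k, ψ q k ^ 2) ^ (1 / 2 : ℝ)) :=
        ENNReal.tsum_le_tsum fun q =>
          (ENNReal.tsum_le_tsum fun k => h1 q k).trans (h2 q)
    _ = e2 β * ∑' q, α q * (∑' k, ψ q k ^ 2) ^ (1 / 2 : ℝ) := by
        rw [← ENNReal.tsum_mul_left]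
        exact tsum_congr fun q => by ring
    _ ≤ e2 β * (e2 α * (∑' q, ((∑' k, ψ q k ^ 2) ^ (1 / 2 : ℝ)) ^ 2) ^ (1 / 2 : ℝ)) := by
        gcongr
        exact enn_cs _ _
    _ = e2 β * (e2 α * (∑' q, ∑' k, ψ q k ^ 2) ^ (1 / 2 : ℝ)) := by
        simp_rw [enn_half_sq]
    _ ≤ e2 β * (e2 α * (ENNReal.ofReal (2 * A) * ∑' l, (N l * γ l) ^ 2) ^ (1 / 2 : ℝ)) := by
        gcongr
    _ = _ := by
        rw [ENNReal.mul_rpow_of_nonneg _ _ (by norm_num)]
        unfold e2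
        ring

open Classical in
/-- The trilinear estimate for two-dimensional sets. -/
theorem thin_full {A : ℝ} {Q : Set K3} (hQ : DimTwo A Q) (α β γ : K3 → ℝ≥0∞) (hβ : β 0 = 0)
    (hγ : γ 0 = 0) :
    ∑' q : K3, ∑' k : K3, (if q ∈ Q then α q * β k * γ (-q - k) else 0)
      ≤ ENNReal.ofReal (2 * A) ^ (1 / 2 : ℝ) * (e2 α * e2 β * e2 (fun l => N l * γ l)
        + e2 α * e2 γ * e2 (fun l => N l * β l)) := by
  have h1 : ∀ q k, (if q ∈ Q then α q * β k * γ (-q - k) else 0)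
      ≤ (if q ∈ Q ∧ 0 < N k ∧ N k ≤ N (-q - k) then α q * β k * γ (-q - k) else 0)
        + (if q ∈ Q ∧ 0 < N (-q - k) ∧ N (-q - k) ≤ N k then
          α q * γ (-q - k) * β k else 0) := by
    intro q k
    by_cases hq : q ∈ Q
    · rw [if_pos hq]
      by_cases hk : k = 0
      · rw [hk, hβ]; simp
      by_cases hl : -q - k = 0
      · rw [hl, hγ]; simp
      have hk' : 0 < N k := Nat.pos_of_ne_zero fun h => hk (N_eq_zero.1 h)
      have hl' : 0 < N (-q - k) := Nat.pos_of_ne_zero fun h => hl (N_eq_zero.1 h)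
      rcases le_total (N k) (N (-q - k)) with h | h
      · rw [if_pos ⟨hq, hk', h⟩]
        exact le_add_right le_rfl
      · rw [if_pos (c := q ∈ Q ∧ 0 < N (-q - k) ∧ N (-q - k) ≤ N k) ⟨hq, hl', h⟩]
        refine le_add_left (le_of_eq ?_)
        ring
    · rw [if_neg hq]
      exact bot_le
  have h2 : ∀ q, ∑' k, (if q ∈ Q ∧ 0 < N (-q - k) ∧ N (-q - k) ≤ N k then
          α q * γ (-q - k) * β k else 0)
      = ∑' k, (if q ∈ Q ∧ 0 < N k ∧ N k ≤ N (-q - k) then α q * γ k * β (-q - k) else 0) := by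
    intro q
    rw [← (Equiv.subLeft (-q)).tsum_eq]
    refine tsum_congr fun k => ?_
    simp only [Equiv.subLeft_apply]
    rw [show -q - (-q - k) = k by abel]
  calc ∑' q : K3, ∑' k : K3, (if q ∈ Q then α q * β k * γ (-q - k) else 0)
      ≤ ∑' q : K3, ∑' k : K3,
        ((if q ∈ Q ∧ 0 < N k ∧ N k ≤ N (-q - k) then α q * β k * γ (-q - k) else 0)
        + (if q ∈ Q ∧ 0 < N (-q - k) ∧ N (-q - k) ≤ N k then
          α q * γ (-q - k) * β k else 0)) :=
        ENNReal.tsum_le_tsum fun q => ENNReal.tsum_le_tsum fun k => h1 q k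
    _ = (∑' q : K3, ∑' k : K3,
        (if q ∈ Q ∧ 0 < N k ∧ N k ≤ N (-q - k) then α q * β k * γ (-q - k) else 0))
        + ∑' q : K3, ∑' k, (if q ∈ Q ∧ 0 < N k ∧ N k ≤ N (-q - k) then
          α q * γ k * β (-q - k) else 0) := by
        rw [← ENNReal.tsum_add]
        refine tsum_congr fun q => ?_
        rw [ENNReal.tsum_add, h2]
    _ ≤ _ := by
        rw [mul_add]
        exact add_le_add (thin_half hQ α β γ) (thin_half hQ α γ β)

end H459R3.NS
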