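import Pool.Agent.H459R3.NS.Thin

/-!
The trilinear form `∫ ∂ₘuᵢ ∂ᵢuⱼ ∂ₘuⱼ` in terms of Fourier coefficients.
-/

open MeasureTheory Set Filter Topology
open scoped ENNReal

namespace H459R3.NS

/-- multiplication by `2 π i kₘ` -/
noncomputable def D (m : Fin 3) (a : K3 → ℂ) (k : K3) : ℂ :=
  (2 * Real.pi * Complex.I * (k m : ℂ)) * a k

/-- rapidly decreasing sequences -/
def Rap (a : K3 → ℂ) : Prop := ∀ n : ℕ, Summable fun k => (N k : ℝ) ^ n * ‖a k‖

theorem Rap.summable {a : K3 → ℂ} (h : Rap a) : Summable a := by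
  refine Summable.of_norm ?_
  simpa using h 0

theorem abs_le_N (k : K3) (m : Fin 3) : ‖(k m : ℂ)‖ ≤ N k := by
  have h := (N_le_iff k (N k)).1 le_rfl m
  rw [Complex.norm_intCast]
  exact_mod_cast h

theorem norm_D_le (m : Fin 3) (a : K3 → ℂ) (k : K3) : ‖D m a k‖ ≤ 2 * Real.pi * (N k * ‖a k‖) := by
  have hp := Real.pi_pos
  rw [D, norm_mul, norm_mul, norm_mul, norm_mul, Complex.norm_I, mul_one, Complex.norm_real,
    Real.norm_eq_abs, abs_of_pos hp, Complex.norm_ofNat]
  have := abs_le_N k m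
  calc 2 * Real.pi * ‖(k m : ℂ)‖ * ‖a k‖ ≤ 2 * Real.pi * N k * ‖a k‖ := by gcongr
    _ = _ := by ring

theorem Rap.D {a : K3 → ℂ} (h : Rap a) (m : Fin 3) : Rap (D m a) := by
  intro n
  refine Summable.of_nonneg_of_le (fun k => by positivity) (fun k => ?_)
    ((h (n + 1)).mul_left (2 * Real.pi))
  calc (N k : ℝ) ^ n * ‖NS.D m a k‖ ≤ (N k : ℝ) ^ n * (2 * Real.pi * (N k * ‖a k‖)) := by
        gcongr
        exact norm_D_le m a k
    _ = 2 * Real.pi * ((N k : ℝ) ^ (n + 1) * ‖a k‖) := by ring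

theorem norm_indicator_le' (R : Set K3) (a : K3 → ℂ) (k : K3) : ‖R.indicator a k‖ ≤ ‖a k‖ :=
  norm_indicator_le_norm_self _ _

theorem Rap.ind {a : K3 → ℂ} (h : Rap a) (R : Set K3) : Rap (R.indicator a) := by
  intro n
  refine Summable.of_nonneg_of_le (fun k => by positivity) (fun k => ?_) (h n)
  gcongr
  exact norm_indicator_le' R a k

theorem D_ind (m : Fin 3) (R : Set K3) (a : K3 → ℂ) :
    D m (R.indicator a) = R.indicator (D m a) := by
  funext k
  by_cases hk : k ∈ R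
  · rw [indicator_of_mem hk, D, indicator_of_mem hk, D]
  · rw [indicator_of_notMem hk, D, indicator_of_notMem hk, mul_zero]

theorem n2_ind_le {a : K3 → ℂ} (h : Rap a) (R : Set K3) : n2 (R.indicator a) ≤ n2 a := by
  unfold n2
  refine Real.sqrt_le_sqrt ?_
  refine Summable.tsum_le_tsum (fun k => ?_) (summable_sq (h.ind R).summable)
    (summable_sq h.summable)
  have := norm_indicator_le' R a k
  gcongr

theorem tri_add1 {a a' b c : K3 → ℂ} (ha : Summable a) (ha' : Summable a') (hb : Summable b)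
    (hc : Summable c) : Tri (a + a') b c = Tri a b c + Tri a' b c := by
  unfold Tri
  rw [← (summable_tri ha hb hc).tsum_add (summable_tri ha' hb hc)]
  refine tsum_congr fun p => ?_
  simp only [Pi.add_apply]
  ring

theorem tri_add2 {a b b' c : K3 → ℂ} (ha : Summable a) (hb : Summable b) (hb' : Summable b')
    (hc : Summable c) : Tri a (b + b') c = Tri a b c + Tri a b' c := by
  rw [tri_comm12, tri_add1 hb hb' ha hc, tri_comm12 b, tri_comm12 b']

theorem tri_add3 {a b c c' : K3 → ℂ} (ha : Summable a) (hb : Summable b) (hc : Summable c)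
    (hc' : Summable c') : Tri a b (c + c') = Tri a b c + Tri a b c' := by
  rw [tri_comm23, tri_add2 ha hc hc' hb, tri_comm23 a c, tri_comm23 a c']

/-- integration by parts -/
theorem tri_D1 {a b c : K3 → ℂ} (ha : Rap a) (hb : Rap b) (hc : Rap c) (m : Fin 3) :
    Tri (D m a) b c = -Tri a (D m b) c - Tri a b (D m c) := by
  unfold Tri
  rw [← tsum_neg, ← ((summable_tri ha.summable (hb.D m).summable hc.summable).neg).tsum_sub
    (summable_tri ha.summable hb.summable (hc.D m).summable)]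
  refine tsum_congr fun p => ?_
  simp only [D, Pi.sub_apply, Pi.neg_apply]
  push_cast
  ring

theorem tri_D2 {a b c : K3 → ℂ} (ha : Rap a) (hb : Rap b) (hc : Rap c) (m : Fin 3) :
    Tri a (D m b) c = -Tri (D m a) b c - Tri a b (D m c) := by
  rw [tri_D1 ha hb hc]; ring

theorem tri_D3 {a b c : K3 → ℂ} (ha : Rap a) (hb : Rap b) (hc : Rap c) (m : Fin 3) :
    Tri a b (D m c) = -Tri (D m a) b c - Tri a (D m b) c := by
  rw [tri_D1 ha hb hc]; ring

theorem tri_split {a b c : K3 → ℂ} (ha : Rap a) (hb : Rap b) (hc : Rap c) (R : Set K3) :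
    Tri a b c = Tri (R.indicator a) b c + Tri (Rᶜ.indicator a) (R.indicator b) c
      + Tri (Rᶜ.indicator a) (Rᶜ.indicator b) (R.indicator c)
      + Tri (Rᶜ.indicator a) (Rᶜ.indicator b) (Rᶜ.indicator c) := by
  have sa := ha.summable
  have sb := hb.summable
  have sc := hc.summable
  have sa1 := (ha.ind R).summable
  have sa2 := (ha.ind Rᶜ).summable
  have sb1 := (hb.ind R).summable
  have sb2 := (hb.ind Rᶜ).summable
  have sc1 := (hc.ind R).summable
  have sc2 := (hc.ind Rᶜ).summable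
  conv_lhs => rw [← Set.indicator_self_add_compl R a]
  rw [tri_add1 sa1 sa2 sb sc]
  conv_lhs =>
    arg 2
    rw [← Set.indicator_self_add_compl R b]
  rw [tri_add2 sa2 sb1 sb2 sc]
  conv_lhs =>
    arg 2
    arg 2
    rw [← Set.indicator_self_add_compl R c]
  rw [tri_add3 sa2 sb2 sc1 sc2]
  ring

/-- The trilinear form. -/
noncomputable def T3 (U : Fin 3 → K3 → ℂ) : ℂ :=
  ∑ i, ∑ j, ∑ m, Tri (D m (U i)) (D i (U j)) (D m (U j))

/-- the three terms with a controlled factor -/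
theorem norm_term_le {U : Fin 3 → K3 → ℂ} (hU : ∀ i, Rap (U i)) (R : Set K3) {β G H : ℝ}
    (hβ : ∀ i x, ‖S (R.indicator (U i)) x‖ ≤ β) (hG : ∀ i j, n2 (D i (U j)) ≤ G)
    (hH : ∀ i j m, n2 (D m (D i (U j))) ≤ H) (i j m : Fin 3) :
    ‖Tri (D m (U i)) (D i (U j)) (D m (U j))
      - Tri (D m (Rᶜ.indicator (U i))) (D i (Rᶜ.indicator (U j))) (D m (Rᶜ.indicator (U j)))‖
      ≤ 6 * (β * (G * H)) := by
  have hβ0 : 0 ≤ β := (norm_nonneg _).trans (hβ 0 0)
  have hG0 : 0 ≤ G := (n2_nonneg _).trans (hG 0 0)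
  have hH0 : 0 ≤ H := (n2_nonneg _).trans (hH 0 0 0)
  have h := tri_split ((hU i).D m) ((hU j).D i) ((hU j).D m) R
  simp only [← D_ind] at h
  rw [h, add_sub_cancel_right]
  have r1 := (hU i)
  have r2 := (hU j)
  have c1 := (hU i).ind Rᶜ
  have c2 := (hU j).ind Rᶜ
  have v1 := (hU i).ind R
  have v2 := (hU j).ind R
  -- bounds of norms
  have gi : ∀ (a b : Fin 3), n2 (D a (Rᶜ.indicator (U b))) ≤ G := fun a b => by
    rw [D_ind]; exact (n2_ind_le ((hU b).D a) _).trans (hG a b)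
  have hi : ∀ (a b c : Fin 3), n2 (D c (D a (Rᶜ.indicator (U b)))) ≤ H := fun a b c => by
    rw [D_ind, D_ind]; exact (n2_ind_le (((hU b).D a).D c) _).trans (hH a b c)
  have key : ∀ {x y X Y : ℝ}, 0 ≤ x → 0 ≤ y → x ≤ X → y ≤ Y → β * (x * y) ≤ β * (X * Y) := by
    intro x y X Y hx hy hX hY
    have : 0 ≤ X := hx.trans hX
    gcongr
  have t1 : ‖Tri (D m (R.indicator (U i))) (D i (U j)) (D m (U j))‖ ≤ 2 * (β * (G * H)) := by
    rw [tri_D1 v1 (r2.D i) (r2.D m) m]
    have e1 := norm_tri_le v1.summable ((r2.D i).D m).summable (r2.D m).summable (hβ i)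
    have e2 := norm_tri_le v1.summable (r2.D i).summable ((r2.D m).D m).summable (hβ i)
    have k1 := key (n2_nonneg _) (n2_nonneg _) (hH i j m) (hG m j)
    have k2 := key (n2_nonneg _) (n2_nonneg _) (hG i j) (hH m j m)
    calc _ ≤ ‖-Tri (R.indicator (U i)) (D m (D i (U j))) (D m (U j))‖
          + ‖Tri (R.indicator (U i)) (D i (U j)) (D m (D m (U j)))‖ := norm_sub_le _ _
      _ ≤ β * (H * G) + β * (G * H) := by
        rw [norm_neg]; exact add_le_add (e1.trans k1) (e2.trans k2)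
      _ = _ := by ring
  have t2 : ‖Tri (D m (Rᶜ.indicator (U i))) (D i (R.indicator (U j))) (D m (U j))‖
      ≤ 2 * (β * (G * H)) := by
    rw [tri_D2 (c1.D m) v2 (r2.D m) i]
    have e1 := norm_tri_le2 ((c1.D m).D i).summable v2.summable (r2.D m).summable (hβ j)
    have e2 := norm_tri_le2 (c1.D m).summable v2.summable ((r2.D m).D i).summable (hβ j)
    have k1 := key (n2_nonneg _) (n2_nonneg _) (hi m i i) (hG m j)
    have k2 := key (n2_nonneg _) (n2_nonneg _) (gi m i) (hH m j i)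
    calc _ ≤ ‖-Tri (D i (D m (Rᶜ.indicator (U i)))) (R.indicator (U j)) (D m (U j))‖
          + ‖Tri (D m (Rᶜ.indicator (U i))) (R.indicator (U j)) (D i (D m (U j)))‖ :=
            norm_sub_le _ _
      _ ≤ β * (H * G) + β * (G * H) := by
        rw [norm_neg]; exact add_le_add (e1.trans k1) (e2.trans k2)
      _ = _ := by ring
  have t3 : ‖Tri (D m (Rᶜ.indicator (U i))) (D i (Rᶜ.indicator (U j)))
      (D m (R.indicator (U j)))‖ ≤ 2 * (β * (G * H)) := by
    rw [tri_D3 (c1.D m) (c2.D i) v2 m]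
    have e1 := norm_tri_le3 ((c1.D m).D m).summable (c2.D i).summable v2.summable (hβ j)
    have e2 := norm_tri_le3 (c1.D m).summable ((c2.D i).D m).summable v2.summable (hβ j)
    have k1 := key (n2_nonneg _) (n2_nonneg _) (hi m i m) (gi i j)
    have k2 := key (n2_nonneg _) (n2_nonneg _) (gi m i) (hi i j m)
    calc _ ≤ ‖-Tri (D m (D m (Rᶜ.indicator (U i)))) (D i (Rᶜ.indicator (U j)))
            (R.indicator (U j))‖
          + ‖Tri (D m (Rᶜ.indicator (U i))) (D m (D i (Rᶜ.indicator (U j))))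
            (R.indicator (U j))‖ := norm_sub_le _ _
      _ ≤ β * (H * G) + β * (G * H) := by
        rw [norm_neg]; exact add_le_add (e1.trans k1) (e2.trans k2)
      _ = _ := by ring
  calc _ ≤ ‖Tri (D m (R.indicator (U i))) (D i (U j)) (D m (U j))‖
        + ‖Tri (D m (Rᶜ.indicator (U i))) (D i (R.indicator (U j))) (D m (U j))‖
        + ‖Tri (D m (Rᶜ.indicator (U i))) (D i (Rᶜ.indicator (U j)))
          (D m (R.indicator (U j)))‖ := norm_add₃_le
    _ ≤ 2 * (β * (G * H)) + 2 * (β * (G * H)) + 2 * (β * (G * H)) :=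
      add_le_add (add_le_add t1 t2) t3
    _ = _ := by ring

theorem norm_T3_sub_le {U : Fin 3 → K3 → ℂ} (hU : ∀ i, Rap (U i)) (R : Set K3) {β G H : ℝ}
    (hβ : ∀ i x, ‖S (R.indicator (U i)) x‖ ≤ β) (hG : ∀ i j, n2 (D i (U j)) ≤ G)
    (hH : ∀ i j m, n2 (D m (D i (U j))) ≤ H) :
    ‖T3 U - T3 (fun i => Rᶜ.indicator (U i))‖ ≤ 162 * (β * (G * H)) := by
  unfold T3
  rw [← Finset.sum_sub_distrib]
  have : ∀ i, ‖(∑ j, ∑ m, Tri (D m (U i)) (D i (U j)) (D m (U j)))
      - ∑ j, ∑ m, Tri (D m (Rᶜ.indicator (U i))) (D i (Rᶜ.indicator (U j)))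
        (D m (Rᶜ.indicator (U j)))‖ ≤ 54 * (β * (G * H)) := by
    intro i
    rw [← Finset.sum_sub_distrib]
    have : ∀ j, ‖(∑ m, Tri (D m (U i)) (D i (U j)) (D m (U j)))
      - ∑ m, Tri (D m (Rᶜ.indicator (U i))) (D i (Rᶜ.indicator (U j)))
        (D m (Rᶜ.indicator (U j)))‖ ≤ 18 * (β * (G * H)) := by
      intro j
      rw [← Finset.sum_sub_distrib]
      refine (norm_sum_le _ _).trans ?_
      refine (Finset.sum_le_sum fun m _ => norm_term_le hU R hβ hG hH i j m).trans ?_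
      rw [Finset.sum_const, Finset.card_univ, Fintype.card_fin, nsmul_eq_mul]
      push_cast
      linarith
    refine (norm_sum_le _ _).trans ?_
    refine (Finset.sum_le_sum fun j _ => this j).trans ?_
    rw [Finset.sum_const, Finset.card_univ, Fintype.card_fin, nsmul_eq_mul]
    push_cast
    linarith
  refine (norm_sum_le _ _).trans ?_
  refine (Finset.sum_le_sum fun j _ => this j).trans ?_
  rw [Finset.sum_const, Finset.card_univ, Fintype.card_fin, nsmul_eq_mul]
  push_cast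
  linarith

end H459R3.NS
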