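import Pool.Agent.H459R3.NS.Tril

/-!
The part of the trilinear form without controlled factors.
-/

open MeasureTheory Set Filter Topology
open scoped ENNReal

namespace H459R3.NS

/-- the symbol of the trilinear form -/
noncomputable def tt (U : Fin 3 → K3 → ℂ) (p : K3 × K3) : ℂ :=
  ∑ i, ∑ j, ∑ m, D m (U i) p.1 * D i (U j) p.2 * D m (U j) (-p.1 - p.2)

theorem T3_eq {U : Fin 3 → K3 → ℂ} (hU : ∀ i, Rap (U i)) :
    HasSum (tt U) (T3 U) := by
  unfold T3 tt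
  refine hasSum_sum fun i _ => hasSum_sum fun j _ => hasSum_sum fun m _ => ?_
  exact (summable_tri ((hU i).D m).summable ((hU j).D i).summable ((hU j).D m).summable).hasSum

/-- Frobenius norm of the gradient at frequency `k` -/
noncomputable def W (U : Fin 3 → K3 → ℂ) (k : K3) : ℝ :=
  Real.sqrt (∑ i, ∑ m, ‖D m (U i) k‖ ^ 2)

theorem W_sq (U : Fin 3 → K3 → ℂ) (k : K3) : W U k ^ 2 = ∑ i, ∑ m, ‖D m (U i) k‖ ^ 2 :=
  Real.sq_sqrt (by positivity)

theorem W_nonneg (U : Fin 3 → K3 → ℂ) (k : K3) : 0 ≤ W U k := Real.sqrt_nonneg _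

/-- `∑ aᵢₘ bⱼᵢ cⱼₘ ≤ |a| |b| |c|` -/
theorem frob (a b c : Fin 3 → Fin 3 → ℝ) {A B C : ℝ} (hA : 0 ≤ A) (hB : 0 ≤ B) (hC : 0 ≤ C)
    (ha : ∑ i, ∑ m, a i m ^ 2 = A ^ 2) (hb : ∑ i, ∑ m, b i m ^ 2 = B ^ 2)
    (hc : ∑ i, ∑ m, c i m ^ 2 = C ^ 2) :
    ∑ i, ∑ j, ∑ m, a i m * b j i * c j m ≤ A * B * C := by
  have e : ∑ i, ∑ j, ∑ m, a i m * b j i * c j m
      = ∑ p : Fin 3 × Fin 3, (∑ i, a i p.2 * b p.1 i) * c p.1 p.2 := by
    rw [Fintype.sum_prod_type, Finset.sum_comm]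
    refine Finset.sum_congr rfl fun j _ => ?_
    rw [Finset.sum_comm]
    refine Finset.sum_congr rfl fun m _ => ?_
    rw [Finset.sum_mul]
  rw [e]
  have h1 := Finset.sum_mul_sq_le_sq_mul_sq (Finset.univ : Finset (Fin 3 × Fin 3))
    (fun p => ∑ i, a i p.2 * b p.1 i) (fun p => c p.1 p.2)
  have h2 : ∑ p : Fin 3 × Fin 3, (∑ i, a i p.2 * b p.1 i) ^ 2 ≤ A ^ 2 * B ^ 2 := by
    have : ∀ p : Fin 3 × Fin 3, (∑ i, a i p.2 * b p.1 i) ^ 2
        ≤ (∑ i, a i p.2 ^ 2) * ∑ i, b p.1 i ^ 2 := fun p =>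
      Finset.sum_mul_sq_le_sq_mul_sq _ _ _
    refine (Finset.sum_le_sum fun p _ => this p).trans (le_of_eq ?_)
    rw [Fintype.sum_prod_type]
    simp only
    simp_rw [← Finset.sum_mul]
    rw [← Finset.mul_sum, hb, Finset.sum_comm, ha]
  have h3 : ∑ p : Fin 3 × Fin 3, c p.1 p.2 ^ 2 = C ^ 2 := by
    rw [Fintype.sum_prod_type]; exact hc
  rw [h3] at h1
  set X := ∑ p : Fin 3 × Fin 3, (∑ i, a i p.2 * b p.1 i) * c p.1 p.2
  have h4 : X ^ 2 ≤ (A * B * C) ^ 2 := by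
    refine h1.trans ?_
    calc _ ≤ A ^ 2 * B ^ 2 * C ^ 2 := by gcongr
      _ = _ := by ring
  by_contra hcon
  push Not at hcon
  have h5 : 0 ≤ A * B * C := by positivity
  nlinarith

theorem norm_tt_le (U : Fin 3 → K3 → ℂ) (p : K3 × K3) :
    ‖tt U p‖ ≤ W U p.1 * W U p.2 * W U (-p.1 - p.2) := by
  have h1 : ‖tt U p‖ ≤ ∑ i, ∑ j, ∑ m,
      ‖D m (U i) p.1‖ * ‖D i (U j) p.2‖ * ‖D m (U j) (-p.1 - p.2)‖ := by
    unfold tt
    refine (norm_sum_le _ _).trans (Finset.sum_le_sum fun i _ => ?_)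
    refine (norm_sum_le _ _).trans (Finset.sum_le_sum fun j _ => ?_)
    refine (norm_sum_le _ _).trans (Finset.sum_le_sum fun m _ => ?_)
    rw [norm_mul, norm_mul]
  refine h1.trans ?_
  exact frob (fun i m => ‖D m (U i) p.1‖) (fun i m => ‖D m (U i) p.2‖)
    (fun i m => ‖D m (U i) (-p.1 - p.2)‖) (W_nonneg _ _) (W_nonneg _ _) (W_nonneg _ _)
    (W_sq _ _).symm (W_sq _ _).symm (W_sq _ _).symm

theorem tt_collinear {U : Fin 3 → K3 → ℂ} (hdiv : ∀ k, ∑ i, (k i : ℂ) * U i k = 0)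
    {p q : K3} (h : crossProduct p q = 0) : tt U (p, q) = 0 := by
  have h0 : (p 1 : ℂ) * q 2 - p 2 * q 1 = 0 := by
    have := congrFun h 0
    simp only [cross_apply, Matrix.cons_val_zero, Pi.zero_apply] at this
    exact_mod_cast this
  have h1 : (p 2 : ℂ) * q 0 - p 0 * q 2 = 0 := by
    have := congrFun h 1
    simp only [cross_apply, Matrix.cons_val_one, Matrix.cons_val_zero, Pi.zero_apply] at this
    exact_mod_cast this
  have h2 : (p 0 : ℂ) * q 1 - p 1 * q 0 = 0 := by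
    have := congrFun h 2
    simp only [cross_apply, Matrix.cons_val, Pi.zero_apply] at this
    exact_mod_cast this
  have hp := hdiv p
  rw [Fin.sum_univ_three] at hp
  set r : K3 := -p - q with hr
  have key : ∀ m : Fin 3, (p m : ℂ) * (U 0 p * q 0 + U 1 p * q 1 + U 2 p * q 2) = 0 := by
    intro m
    fin_cases m
    · show (p 0 : ℂ) * _ = 0
      linear_combination (q 0 : ℂ) * hp + U 1 p * h2 - U 2 p * h1
    · show (p 1 : ℂ) * _ = 0
      linear_combination (q 1 : ℂ) * hp - U 0 p * h2 + U 2 p * h0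
    · show (p 2 : ℂ) * _ = 0
      linear_combination (q 2 : ℂ) * hp + U 0 p * h1 - U 1 p * h0
  have k0 := key 0
  have k1 := key 1
  have k2 := key 2
  unfold tt
  simp only [D, Fin.sum_univ_three, ← hr]
  set c : ℂ := 2 * Real.pi * Complex.I
  linear_combination (c ^ 3 * (r 0 : ℂ) * (U 0 q * U 0 r + U 1 q * U 1 r + U 2 q * U 2 r)) * k0
    + (c ^ 3 * (r 1 : ℂ) * (U 0 q * U 0 r + U 1 q * U 1 r + U 2 q * U 2 r)) * k1
    + (c ^ 3 * (r 2 : ℂ) * (U 0 q * U 0 r + U 1 q * U 1 r + U 2 q * U 2 r)) * k2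

theorem e2_W {U : Fin 3 → K3 → ℂ} (hU : ∀ i, Rap (U i)) {G : ℝ} (hG0 : 0 ≤ G)
    (hG : ∑ i, ∑ m, n2 (D m (U i)) ^ 2 ≤ G ^ 2) :
    e2 (fun k => ENNReal.ofReal (W U k)) ≤ ENNReal.ofReal G := by
  unfold e2
  have hs : ∀ i m, Summable fun k => ‖D m (U i) k‖ ^ 2 := fun i m =>
    summable_sq ((hU i).D m).summable
  have hsW : Summable fun k => W U k ^ 2 := by
    simp_rw [W_sq]
    exact summable_sum fun i _ => summable_sum fun m _ => hs i m
  have e : (∑' k, ENNReal.ofReal (W U k) ^ 2) = ENNReal.ofReal (∑' k, W U k ^ 2) := by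
    rw [ENNReal.ofReal_tsum_of_nonneg (fun k => sq_nonneg _) hsW]
    exact tsum_congr fun k => (ENNReal.ofReal_pow (W_nonneg _ _) 2).symm
  rw [e]
  have e' : (∑' k, W U k ^ 2) = ∑ i, ∑ m, n2 (D m (U i)) ^ 2 := by
    simp_rw [W_sq, n2_sq]
    rw [Summable.tsum_finsetSum fun i _ => summable_sum fun m _ => hs i m]
    refine Finset.sum_congr rfl fun i _ => ?_
    rw [Summable.tsum_finsetSum fun m _ => hs i m]
  rw [e']
  calc (ENNReal.ofReal (∑ i, ∑ m, n2 (D m (U i)) ^ 2)) ^ (1 / 2 : ℝ)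
      ≤ (ENNReal.ofReal (G ^ 2)) ^ (1 / 2 : ℝ) := by gcongr
    _ = ENNReal.ofReal G := by
      rw [ENNReal.ofReal_rpow_of_nonneg (by positivity) (by norm_num), ← Real.sqrt_eq_rpow,
        Real.sqrt_sq hG0]

theorem N_sq_le (k : K3) : (N k : ℝ) ^ 2 ≤ ∑ l, (k l : ℝ) ^ 2 := by
  obtain ⟨j, hj⟩ : ∃ j, N k = (k j).natAbs := by
    obtain ⟨j, -, hj⟩ := Finset.exists_mem_eq_sup (Finset.univ : Finset (Fin 3))
      ⟨0, Finset.mem_univ 0⟩ (fun j => (k j).natAbs)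
    exact ⟨j, hj⟩
  have h1 : (N k : ℝ) ^ 2 = (k j : ℝ) ^ 2 := by
    rw [hj, ← sq_abs (k j : ℝ)]
    congr 1
    rw [← Int.cast_abs, Int.abs_eq_natAbs]
    simp
  rw [h1]
  exact Finset.single_le_sum (f := fun l => (k l : ℝ) ^ 2) (fun l _ => sq_nonneg _)
    (Finset.mem_univ j)

theorem e2_NW {U : Fin 3 → K3 → ℂ} (hU : ∀ i, Rap (U i)) {H : ℝ} (hH0 : 0 ≤ H)
    (hH : ∑ i, ∑ m, ∑ l, n2 (D l (D m (U i))) ^ 2 ≤ H ^ 2) :
    e2 (fun k => N k * ENNReal.ofReal (W U k)) ≤ ENNReal.ofReal (H / (2 * Real.pi)) := by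
  have hpi := Real.pi_pos
  unfold e2
  have hs : ∀ i m l, Summable fun k => ‖D l (D m (U i)) k‖ ^ 2 := fun i m l =>
    summable_sq (((hU i).D m).D l).summable
  have hD : ∀ i m l k, ‖D l (D m (U i)) k‖ ^ 2
      = (2 * Real.pi) ^ 2 * ((k l : ℝ) ^ 2 * ‖D m (U i) k‖ ^ 2) := by
    intro i m l k
    rw [D, norm_mul, norm_mul, norm_mul, norm_mul, Complex.norm_I, mul_one, Complex.norm_real,
      Real.norm_eq_abs, abs_of_pos hpi, Complex.norm_ofNat, Complex.norm_intCast]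
    rw [mul_pow, mul_pow, sq_abs]
    ring
  have hb : ∀ k, ((N k : ℝ) * W U k) ^ 2
      ≤ ((2 * Real.pi) ^ 2)⁻¹ * ∑ i, ∑ m, ∑ l, ‖D l (D m (U i)) k‖ ^ 2 := by
    intro k
    have e1 : ∑ i, ∑ m, ∑ l, ‖D l (D m (U i)) k‖ ^ 2
        = (2 * Real.pi) ^ 2 * ((∑ l, (k l : ℝ) ^ 2) * W U k ^ 2) := by
      rw [W_sq]
      simp_rw [hD]
      simp_rw [← Finset.mul_sum, ← Finset.sum_mul, ← Finset.mul_sum]
    rw [e1, ← mul_assoc, inv_mul_cancel₀ (by positivity), one_mul, mul_pow]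
    exact mul_le_mul_of_nonneg_right (N_sq_le k) (sq_nonneg _)
  have hsR : Summable fun k => ∑ i, ∑ m, ∑ l, ‖D l (D m (U i)) k‖ ^ 2 :=
    summable_sum fun i _ => summable_sum fun m _ => summable_sum fun l _ => hs i m l
  have hsW : Summable fun k => ((N k : ℝ) * W U k) ^ 2 :=
    Summable.of_nonneg_of_le (fun k => sq_nonneg _) hb (hsR.mul_left _)
  have e : (∑' k, (N k * ENNReal.ofReal (W U k)) ^ 2)
      = ENNReal.ofReal (∑' k, ((N k : ℝ) * W U k) ^ 2) := by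
    rw [ENNReal.ofReal_tsum_of_nonneg (fun k => sq_nonneg _) hsW]
    refine tsum_congr fun k => ?_
    rw [ENNReal.ofReal_pow (mul_nonneg (by positivity) (W_nonneg _ _)),
      ENNReal.ofReal_mul (by positivity), ENNReal.ofReal_natCast]
  rw [e]
  have e' : (∑' k, ((N k : ℝ) * W U k) ^ 2) ≤ (H / (2 * Real.pi)) ^ 2 := by
    refine (hsW.tsum_le_tsum hb (hsR.mul_left _)).trans ?_
    rw [tsum_mul_left]
    have e3 : (∑' k, ∑ i, ∑ m, ∑ l, ‖D l (D m (U i)) k‖ ^ 2)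
        = ∑ i, ∑ m, ∑ l, n2 (D l (D m (U i))) ^ 2 := by
      simp_rw [n2_sq]
      rw [Summable.tsum_finsetSum fun i _ => summable_sum fun m _ => summable_sum fun l _ =>
        hs i m l]
      refine Finset.sum_congr rfl fun i _ => ?_
      rw [Summable.tsum_finsetSum fun m _ => summable_sum fun l _ => hs i m l]
      refine Finset.sum_congr rfl fun m _ => ?_
      rw [Summable.tsum_finsetSum fun l _ => hs i m l]
    rw [e3, div_pow, div_eq_inv_mul]
    gcongr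
  calc (ENNReal.ofReal (∑' k, ((N k : ℝ) * W U k) ^ 2)) ^ (1 / 2 : ℝ)
      ≤ (ENNReal.ofReal ((H / (2 * Real.pi)) ^ 2)) ^ (1 / 2 : ℝ) := by gcongr
    _ = ENNReal.ofReal (H / (2 * Real.pi)) := by
      rw [ENNReal.ofReal_rpow_of_nonneg (by positivity) (by norm_num), ← Real.sqrt_eq_rpow,
        Real.sqrt_sq (by positivity)]

/-- If all non-collinear triads with nonzero coefficients meet the two-dimensional set `Q`, then
the trilinear form is small. -/
theorem norm_T3_le {U : Fin 3 → K3 → ℂ} (hU : ∀ i, Rap (U i))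
    (hdiv : ∀ k, ∑ i, (k i : ℂ) * U i k = 0) {A : ℝ} {Q : Set K3} (hQ : DimTwo A Q)
    (hhit : ∀ p q : K3, crossProduct p q ≠ 0 → tt U (p, q) ≠ 0 → p ∈ Q ∨ q ∈ Q ∨ -p - q ∈ Q)
    {G H : ℝ} (hG0 : 0 ≤ G) (hH0 : 0 ≤ H)
    (hG : ∑ i, ∑ m, n2 (D m (U i)) ^ 2 ≤ G ^ 2)
    (hH : ∑ i, ∑ m, ∑ l, n2 (D l (D m (U i))) ^ 2 ≤ H ^ 2) :
    ‖T3 U‖ ≤ Real.sqrt (2 * A) * (G ^ 2 * H) := by
  classical
  have hpi := Real.pi_pos
  have hpi3 := Real.pi_gt_three
  set w : K3 → ℝ≥0∞ := fun k => ENNReal.ofReal (W U k) with hw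
  have w0 : w 0 = 0 := by
    have : W U 0 = 0 := by
      unfold W D
      simp
    rw [hw]; simp [this]
  -- the three sums
  set Z1 : ℝ≥0∞ := ∑' q : K3, ∑' k : K3, (if q ∈ Q then w q * w k * w (-q - k) else 0) with hZ
  have hb : ∀ p : K3 × K3, ‖tt U p‖ₑ ≤
      (if p.1 ∈ Q then w p.1 * w p.2 * w (-p.1 - p.2) else 0)
      + (if p.2 ∈ Q then w p.1 * w p.2 * w (-p.1 - p.2) else 0)
      + (if -p.1 - p.2 ∈ Q then w p.1 * w p.2 * w (-p.1 - p.2) else 0) := by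
    rintro ⟨p, q⟩
    have h1 : ‖tt U (p, q)‖ₑ ≤ w p * w q * w (-p - q) := by
      rw [hw]
      simp only
      rw [← ENNReal.ofReal_mul (W_nonneg _ _), ← ENNReal.ofReal_mul
        (mul_nonneg (W_nonneg _ _) (W_nonneg _ _)), ← ofReal_norm_eq_enorm]
      exact ENNReal.ofReal_le_ofReal (norm_tt_le U (p, q))
    simp only
    by_cases hz : tt U (p, q) = 0
    · rw [hz]; simp
    by_cases hc : crossProduct p q = 0
    · exact absurd (tt_collinear hdiv hc) hz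
    rcases hhit p q hc hz with h | h | h
    · rw [if_pos h]
      exact le_add_right (le_add_right h1)
    · rw [if_pos h]
      exact le_add_right (le_add_left h1)
    · rw [if_pos h]
      exact le_add_left h1
  have s1 : ∑' p : K3 × K3, (if p.1 ∈ Q then w p.1 * w p.2 * w (-p.1 - p.2) else 0) = Z1 := by
    rw [ENNReal.tsum_prod']
  have s2 : ∑' p : K3 × K3, (if p.2 ∈ Q then w p.1 * w p.2 * w (-p.1 - p.2) else 0) = Z1 := by
    rw [← s1, ← (Equiv.prodComm K3 K3).tsum_eq]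
    refine tsum_congr fun p => ?_
    simp only [Equiv.prodComm_apply, Prod.fst_swap, Prod.snd_swap]
    rw [show -p.2 - p.1 = -p.1 - p.2 by abel, mul_comm (w p.2)]
  have s3 : ∑' p : K3 × K3, (if -p.1 - p.2 ∈ Q then w p.1 * w p.2 * w (-p.1 - p.2) else 0)
      = Z1 := by
    rw [← s2, ← inv23.tsum_eq]
    refine tsum_congr fun p => ?_
    have : inv23 p = (p.1, -p.1 - p.2) := rfl
    rw [this]
    simp only
    rw [show -p.1 - (-p.1 - p.2) = p.2 by abel]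
    congr 1
    ring
  have h1 : ‖T3 U‖ₑ ≤ 3 * Z1 := by
    rw [← (T3_eq hU).tsum_eq]
    have hsm : Summable fun p => ‖tt U p‖ := by
      have hs3 : ∀ i j m, Summable fun p : K3 × K3 =>
          ‖D m (U i) p.1‖ * ‖D i (U j) p.2‖ * ‖D m (U j) (-p.1 - p.2)‖ := fun i j m =>
        summable_norm_tri ((hU i).D m).summable ((hU j).D i).summable ((hU j).D m).summable
      refine Summable.of_nonneg_of_le (fun p => norm_nonneg _) (fun p => ?_)
        (summable_sum (s := Finset.univ) fun i _ => summable_sum (s := Finset.univ) fun j _ =>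
          summable_sum (s := Finset.univ) fun m _ => hs3 i j m)
      unfold tt
      refine (norm_sum_le _ _).trans (Finset.sum_le_sum fun i _ => ?_)
      refine (norm_sum_le _ _).trans (Finset.sum_le_sum fun j _ => ?_)
      refine (norm_sum_le _ _).trans (Finset.sum_le_sum fun m _ => ?_)
      rw [norm_mul, norm_mul]
    have h2 : ‖∑' p, tt U p‖ₑ ≤ ∑' p, ‖tt U p‖ₑ := by
      rw [← ofReal_norm_eq_enorm]
      refine (ENNReal.ofReal_le_ofReal (norm_tsum_le_tsum_norm hsm)).trans (le_of_eq ?_)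
      rw [ENNReal.ofReal_tsum_of_nonneg (fun p => norm_nonneg _) hsm]
      exact tsum_congr fun p => ofReal_norm_eq_enorm _
    refine h2.trans ((ENNReal.tsum_le_tsum hb).trans (le_of_eq ?_))
    rw [ENNReal.tsum_add, ENNReal.tsum_add, s1, s2, s3]
    ring
  have h3 := thin_full hQ w w w w0 w0
  have eG : e2 w ≤ ENNReal.ofReal G := e2_W hU hG0 hG
  have eH : e2 (fun l => N l * w l) ≤ ENNReal.ofReal (H / (2 * Real.pi)) := e2_NW hU hH0 hH
  have h4 : ‖T3 U‖ₑ ≤ ENNReal.ofReal (Real.sqrt (2 * A) * (G ^ 2 * H)) := by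
    calc ‖T3 U‖ₑ ≤ 3 * (ENNReal.ofReal (2 * A) ^ (1 / 2 : ℝ) * (e2 w * e2 w *
          e2 (fun l => N l * w l) + e2 w * e2 w * e2 (fun l => N l * w l))) := by
          refine h1.trans ?_
          gcongr
      _ ≤ 3 * (ENNReal.ofReal (2 * A) ^ (1 / 2 : ℝ) * (ENNReal.ofReal G * ENNReal.ofReal G *
          ENNReal.ofReal (H / (2 * Real.pi)) + ENNReal.ofReal G * ENNReal.ofReal G *
          ENNReal.ofReal (H / (2 * Real.pi)))) := by gcongr
      _ = ENNReal.ofReal (Real.sqrt (2 * A) * (G ^ 2 * (6 / (2 * Real.pi) * H))) := by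
          rw [ENNReal.ofReal_rpow_of_nonneg (mul_nonneg zero_le_two hQ.nonneg) (by norm_num),
            ← Real.sqrt_eq_rpow, show (3 : ℝ≥0∞) = ENNReal.ofReal 3 by simp,
            ← ENNReal.ofReal_mul hG0, ← ENNReal.ofReal_mul (by positivity),
            ← ENNReal.ofReal_add (by positivity) (by positivity),
            ← ENNReal.ofReal_mul (by positivity), ← ENNReal.ofReal_mul (by positivity)]
          congr 1
          ring
      _ ≤ _ := by
          refine ENNReal.ofReal_le_ofReal ?_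
          have h6 : 6 / (2 * Real.pi) ≤ 1 := by
            rw [div_le_one (by positivity)]; linarith
          gcongr
          calc 6 / (2 * Real.pi) * H ≤ 1 * H := by gcongr
            _ = H := one_mul H
  rw [← ofReal_norm_eq_enorm] at h4
  exact (ENNReal.ofReal_le_ofReal_iff (by positivity)).1 h4

end H459R3.NS
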